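import Mathlib
import Pool.Agent.Lib.MP_04add8_pr.Exist2

open MeasureTheory ProbabilityTheory Filter Topology
open scoped ENNReal

set_option linter.unusedSectionVars false

namespace Pool.Agent.Lib.MP_04add8_pr

/-- the Kiefer-Wolfowitz chain driven by a sequence of pairs (service, interarrival) -/
noncomputable def pIter (w : ℝ × ℝ) (z : ℕ → ℝ × ℝ) : ℕ → ℝ × ℝ
  | 0 => w
  | n + 1 => kwStep (pIter w z n) (z n).1 (z n).2

lemma pIter_zero (w : ℝ × ℝ) (z : ℕ → ℝ × ℝ) : pIter w z 0 = w := rfl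

lemma pIter_succ (w : ℝ × ℝ) (z : ℕ → ℝ × ℝ) (n : ℕ) :
    pIter w z (n + 1) = kwStep (pIter w z n) (z n).1 (z n).2 := rfl

lemma pIter_gcons (w p : ℝ × ℝ) (z : ℕ → ℝ × ℝ) (n : ℕ) :
    pIter w (gcons p z) (n + 1) = pIter (kwStep w p.1 p.2) z n := by
  induction n with
  | zero => rfl
  | succ n ih => rw [pIter_succ, ih]; rfl

lemma pIter_congr (w : ℝ × ℝ) {z z' : ℕ → ℝ × ℝ} {n : ℕ} (h : ∀ k < n, z k = z' k) :
    pIter w z n = pIter w z' n := by
  induction n with
  | zero => rfl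
  | succ n ih =>
    rw [pIter_succ, pIter_succ, ih (fun k hk => h k (Nat.lt_succ_of_lt hk)), h n (Nat.lt_succ_self n)]

lemma pIter_add (w : ℝ × ℝ) (z : ℕ → ℝ × ℝ) (m n : ℕ) :
    pIter w z (m + n) = pIter (pIter w z m) (fun k => z (m + k)) n := by
  induction n with
  | zero => rfl
  | succ n ih => rw [← Nat.add_assoc, pIter_succ, pIter_succ, ih]

/-- first `n` terms from `z`, the others from `z'` -/
def cat {α : Type*} (n : ℕ) (z z' : ℕ → α) : ℕ → α := fun k => if k < n then z k else z' (k - n)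

lemma cat_zero {α : Type*} (z z' : ℕ → α) : cat 0 z z' = z' := by
  funext k; simp [cat]

lemma cat_lt {α : Type*} {n k : ℕ} (z z' : ℕ → α) (h : k < n) : cat n z z' k = z k := by
  simp [cat, h]

lemma cat_add {α : Type*} (n k : ℕ) (z z' : ℕ → α) : cat n z z' (n + k) = z' k := by
  simp [cat]

lemma cat_gcons {α : Type*} (n : ℕ) (p : α) (z z' : ℕ → α) :
    cat (n + 1) (gcons p z) z' = gcons p (cat n z z') := by
  funext k
  cases k with
  | zero => simp [cat, gcons]
  | succ k => simp [cat, gcons]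

lemma pIter_cat (w : ℝ × ℝ) (z z' : ℕ → ℝ × ℝ) (m n : ℕ) :
    pIter w (cat m z z') (m + n) = pIter (pIter w z m) z' n := by
  rw [pIter_add, pIter_congr w (fun k hk => cat_lt z z' hk)]
  congr 1
  funext k
  exact cat_add m k z z'

lemma pIter_ordered {w : ℝ × ℝ} (h0 : 0 ≤ w.1) (h1 : w.1 ≤ w.2) (z : ℕ → ℝ × ℝ) (n : ℕ) :
    0 ≤ (pIter w z n).1 ∧ (pIter w z n).1 ≤ (pIter w z n).2 := by
  cases n with
  | zero => exact ⟨h0, h1⟩
  | succ n => exact ⟨kwStep_fst_nonneg _ _ _, kwStep_fst_le_snd _ _ _⟩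

lemma pIter_mono {w w' : ℝ × ℝ} (h : w ≤ w') (z : ℕ → ℝ × ℝ) (n : ℕ) :
    pIter w z n ≤ pIter w' z n := by
  induction n with
  | zero => exact h
  | succ n ih => exact kwStep_mono ih _ _

lemma measurable_pIter (n : ℕ) :
    Measurable (fun q : (ℝ × ℝ) × (ℕ → ℝ × ℝ) => pIter q.1 q.2 n) := by
  induction n with
  | zero => exact measurable_fst
  | succ n ih =>
    have h1 : Measurable (fun q : (ℝ × ℝ) × (ℕ → ℝ × ℝ) => (pIter q.1 q.2 n, q.2 n)) :=
      ih.prodMk ((measurable_pi_apply n).comp measurable_snd)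
    exact measurable_kwStep.comp h1

lemma measurable_cat {α : Type*} [MeasurableSpace α] (n : ℕ) :
    Measurable (fun q : (ℕ → α) × (ℕ → α) => cat n q.1 q.2) := by
  rw [measurable_pi_iff]
  intro k
  by_cases h : k < n
  · simp only [cat, h, if_true]
    exact (measurable_pi_apply k).comp measurable_fst
  · simp only [cat, h, if_false]
    exact (measurable_pi_apply (k - n)).comp measurable_snd

section noise_

variable {μ ν : Measure ℝ} [IsProbabilityMeasure μ] [IsProbabilityMeasure ν]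

lemma noise_cons : (((μ.prod ν).prod (noise μ ν)).map
    (fun p : (ℝ × ℝ) × (ℕ → ℝ × ℝ) => gcons p.1 p.2)) = noise μ ν :=
  infinitePi_gcons (μ.prod ν)

lemma lintegral_noise_cons {f : (ℕ → ℝ × ℝ) → ℝ≥0∞} (hf : Measurable f) :
    ∫⁻ z, f z ∂(noise μ ν) = ∫⁻ p, ∫⁻ z, f (gcons p z) ∂(noise μ ν) ∂(μ.prod ν) := by
  conv_lhs => rw [← noise_cons]
  rw [lintegral_map hf measurable_gcons]
  exact lintegral_prod _ (hf.comp measurable_gcons).aemeasurable

lemma lintegral_noise_cat (n : ℕ) : ∀ {f : (ℕ → ℝ × ℝ) → ℝ≥0∞}, Measurable f →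
    ∫⁻ z, f z ∂(noise μ ν) =
      ∫⁻ z, ∫⁻ z', f (cat n z z') ∂(noise μ ν) ∂(noise μ ν) := by
  induction n with
  | zero =>
    intro f hf
    simp [cat_zero]
  | succ n ih =>
    intro f hf
    have hm : Measurable fun z : ℕ → ℝ × ℝ => ∫⁻ z', f (cat (n + 1) z z') ∂(noise μ ν) := by
      apply Measurable.lintegral_prod_right' (f := fun q : (ℕ → ℝ × ℝ) × (ℕ → ℝ × ℝ) =>
        f (cat (n + 1) q.1 q.2))
      exact hf.comp (measurable_cat (n + 1))
    rw [lintegral_noise_cons hf, lintegral_noise_cons hm]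
    apply lintegral_congr
    intro p
    have hp : Measurable fun z : ℕ → ℝ × ℝ => f (gcons p z) :=
      hf.comp (measurable_gcons.comp (measurable_const.prodMk measurable_id))
    rw [ih hp]
    simp only [cat_gcons]

/-- the path shift -/
noncomputable def pathShift (n : ℕ) (q : (ℝ × ℝ) × (ℕ → ℝ × ℝ)) : (ℝ × ℝ) × (ℕ → ℝ × ℝ) :=
  (pIter q.1 q.2 n, fun k => q.2 (n + k))

lemma measurable_pathShift (n : ℕ) : Measurable (pathShift n) := by
  unfold pathShift
  refine (measurable_pIter n).prodMk ?_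
  rw [measurable_pi_iff]
  intro k
  exact (measurable_pi_apply (n + k)).comp measurable_snd

lemma pathShift_succ (n : ℕ) (q : (ℝ × ℝ) × (ℕ → ℝ × ℝ)) :
    pathShift (n + 1) q = pathShift 1 (pathShift n q) := by
  unfold pathShift
  refine Prod.ext rfl ?_
  funext k
  change q.2 (n + 1 + k) = q.2 (n + (1 + k))
  rw [Nat.add_assoc]

/-- joint law of the stationary initial state and of the noise -/
lemma IsStationaryKW.measurePreserving_one {π : Measure (ℝ × ℝ)} (h : IsStationaryKW μ ν π) :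
    MeasurePreserving (pathShift 1) (π.prod (noise μ ν)) (π.prod (noise μ ν)) := by
  obtain ⟨hp, hs⟩ := h
  refine ⟨measurable_pathShift 1, ?_⟩
  have h1 : π.prod (noise μ ν) =
      ((π.prod ((μ.prod ν).prod (noise μ ν))).map
        (fun q : (ℝ × ℝ) × ((ℝ × ℝ) × (ℕ → ℝ × ℝ)) => (q.1, gcons q.2.1 q.2.2))) := by
    have := Measure.map_prod_map π ((μ.prod ν).prod (noise μ ν)) measurable_id
      (measurable_gcons (α := ℝ × ℝ))
    rw [Measure.map_id, noise_cons] at this
    exact this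
  have hm1 : Measurable (fun q : (ℝ × ℝ) × ((ℝ × ℝ) × (ℕ → ℝ × ℝ)) =>
      (q.1, gcons q.2.1 q.2.2)) :=
    measurable_fst.prodMk (measurable_gcons.comp measurable_snd)
  conv_lhs => rw [h1]
  rw [Measure.map_map (measurable_pathShift 1) hm1]
  have h2 : (pathShift 1 ∘ fun q : (ℝ × ℝ) × ((ℝ × ℝ) × (ℕ → ℝ × ℝ)) =>
      (q.1, gcons q.2.1 q.2.2)) =
      (Prod.map (fun p : (ℝ × ℝ) × (ℝ × ℝ) => kwStep p.1 p.2.1 p.2.2) id) ∘
        (MeasurableEquiv.prodAssoc (α := ℝ × ℝ) (β := ℝ × ℝ) (γ := ℕ → ℝ × ℝ)).symm := by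
    funext q
    unfold pathShift
    refine Prod.ext rfl ?_
    funext k
    change gcons q.2.1 q.2.2 (1 + k) = q.2.2 k
    rw [add_comm]
    rfl
  rw [h2, ← Measure.map_map (measurable_kwStep.prodMap measurable_id)
    (MeasurableEquiv.measurable _)]
  have h3 : (π.prod ((μ.prod ν).prod (noise μ ν))).map
      (MeasurableEquiv.prodAssoc (α := ℝ × ℝ) (β := ℝ × ℝ) (γ := ℕ → ℝ × ℝ)).symm =
      (π.prod (μ.prod ν)).prod (noise μ ν) := by
    rw [← Measure.prodAssoc_prod, Measure.map_map (MeasurableEquiv.measurable _)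
      (MeasurableEquiv.measurable _), MeasurableEquiv.symm_comp_self, Measure.map_id]
  rw [h3]
  have h4 := Measure.map_prod_map (π.prod (μ.prod ν)) (noise μ ν) measurable_kwStep measurable_id
  rw [hs, Measure.map_id] at h4
  exact h4.symm

lemma IsStationaryKW.measurePreserving_path {π : Measure (ℝ × ℝ)} (h : IsStationaryKW μ ν π)
    (n : ℕ) :
    MeasurePreserving (pathShift n) (π.prod (noise μ ν)) (π.prod (noise μ ν)) := by
  induction n with
  | zero =>
    have : (pathShift 0 : (ℝ × ℝ) × (ℕ → ℝ × ℝ) → (ℝ × ℝ) × (ℕ → ℝ × ℝ)) = id := by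
      funext q
      unfold pathShift
      refine Prod.ext rfl ?_
      funext k
      simp
    rw [this]
    exact MeasurePreserving.id _
  | succ n ih =>
    have : (pathShift (n + 1) : (ℝ × ℝ) × (ℕ → ℝ × ℝ) → (ℝ × ℝ) × (ℕ → ℝ × ℝ)) =
        pathShift 1 ∘ pathShift n := by
      funext q
      exact pathShift_succ n q
    rw [this]
    exact h.measurePreserving_one.comp ih

end noise_

end Pool.Agent.Lib.MP_04add8_pr
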