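import Mathlib
import Pool.Agent.Lib.MP_04add8_pr.Two.Path

open MeasureTheory ProbabilityTheory Filter Topology
open scoped ENNReal

set_option linter.unusedSectionVars false

namespace Pool.Agent.Lib.MP_04add8_pr

/-- total service time of the first `n` jobs -/
noncomputable def sumS (z : ℕ → ℝ × ℝ) (n : ℕ) : ℝ := ∑ i ∈ Finset.range n, (z i).1

/-- sum of the first `n` interarrival times truncated at `τ` -/
noncomputable def sumT (τ : ℝ) (z : ℕ → ℝ × ℝ) (n : ℕ) : ℝ :=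
  ∑ i ∈ Finset.range n, min (z i).2 τ

/-- sum of the first `n` interarrival times -/
noncomputable def sumA (z : ℕ → ℝ × ℝ) (n : ℕ) : ℝ := ∑ i ∈ Finset.range n, (z i).2

/-- workload of a single server fed with all jobs, interarrival times truncated at `τ` -/
noncomputable def reflT (τ r : ℝ) (z : ℕ → ℝ × ℝ) : ℕ → ℝ
  | 0 => r
  | n + 1 => max (reflT τ r z n + (z n).1 - min (z n).2 τ) 0

/-- cost of one job -/
noncomputable def jcost (a B x s : ℝ) : ℝ := if s ≤ B then 4 * x ^ (a - 1) * s else s ^ a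

/-- big jobs at steps `0` and `n1 + 1`, the other ones up to `n1 + n2 + 1` are small -/
def twoBig (B : ℝ) (n1 n2 : ℕ) : Set (ℕ → ℝ × ℝ) :=
  {z | B < (z 0).1 ∧ (∀ i < n1, (z (i + 1)).1 ≤ B) ∧ B < (z (n1 + 1)).1 ∧
    ∀ i < n2, (z (n1 + (i + 1) + 1)).1 ≤ B}

/-- the main event: two big jobs, small other jobs, and both servers busy at the end -/
def mainEvent (x B ε : ℝ) (n1 n2 : ℕ) : Set ((ℝ × ℝ) × (ℕ → ℝ × ℝ)) :=
  {q | q.1.2 ≤ 2 * ε * x ∧ q.2 ∈ twoBig B n1 n2 ∧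
    ∑ i ∈ Finset.range n1, (q.2 (i + 1)).1 ≤ ε * x ∧
    ∑ i ∈ Finset.range n2, (q.2 (n1 + (i + 1) + 1)).1 ≤ ε * x ∧
    x < (pIter q.1 q.2 (n1 + n2 + 2)).1}

/-- two big jobs and small jobs put together -/
def four (n1 : ℕ) (p1 : ℝ × ℝ) (z1 : ℕ → ℝ × ℝ) (p2 : ℝ × ℝ) (z2 : ℕ → ℝ × ℝ) : ℕ → ℝ × ℝ :=
  gcons p1 (cat n1 z1 (gcons p2 z2))

lemma four_zero (n1 : ℕ) (p1 : ℝ × ℝ) (z1 : ℕ → ℝ × ℝ) (p2 : ℝ × ℝ) (z2 : ℕ → ℝ × ℝ) :
    four n1 p1 z1 p2 z2 0 = p1 := rfl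

lemma four_one (n1 : ℕ) (p1 : ℝ × ℝ) (z1 : ℕ → ℝ × ℝ) (p2 : ℝ × ℝ) (z2 : ℕ → ℝ × ℝ)
    {i : ℕ} (hi : i < n1) : four n1 p1 z1 p2 z2 (i + 1) = z1 i := cat_lt _ _ hi

lemma four_two (n1 : ℕ) (p1 : ℝ × ℝ) (z1 : ℕ → ℝ × ℝ) (p2 : ℝ × ℝ) (z2 : ℕ → ℝ × ℝ) :
    four n1 p1 z1 p2 z2 (n1 + 1) = p2 := by
  have := cat_add n1 0 z1 (gcons p2 z2)
  exact this

lemma four_three (n1 : ℕ) (p1 : ℝ × ℝ) (z1 : ℕ → ℝ × ℝ) (p2 : ℝ × ℝ) (z2 : ℕ → ℝ × ℝ)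
    (i : ℕ) : four n1 p1 z1 p2 z2 (n1 + (i + 1) + 1) = z2 i := by
  have := cat_add n1 (i + 1) z1 (gcons p2 z2)
  exact this

lemma pIter_four (w : ℝ × ℝ) (n1 n2 : ℕ) (p1 : ℝ × ℝ) (z1 : ℕ → ℝ × ℝ) (p2 : ℝ × ℝ)
    (z2 : ℕ → ℝ × ℝ) :
    pIter w (four n1 p1 z1 p2 z2) (n1 + n2 + 2) =
      pIter (kwStep (pIter (kwStep w p1.1 p1.2) z1 n1) p2.1 p2.2) z2 n2 := by
  have h1 : n1 + n2 + 2 = (n1 + (n2 + 1)) + 1 := by ring
  rw [h1, four, pIter_gcons, pIter_cat, pIter_gcons]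

variable {μ ν : Measure ℝ} [IsProbabilityMeasure μ] [IsProbabilityMeasure ν]

lemma measurable_four (n1 : ℕ) : Measurable (fun q : (ℝ × ℝ) × (ℕ → ℝ × ℝ) × (ℝ × ℝ) ×
    (ℕ → ℝ × ℝ) => four n1 q.1 q.2.1 q.2.2.1 q.2.2.2) := by
  unfold four
  have h1 : Measurable (fun q : (ℝ × ℝ) × (ℕ → ℝ × ℝ) × (ℝ × ℝ) × (ℕ → ℝ × ℝ) =>
      gcons q.2.2.1 q.2.2.2) :=
    measurable_gcons.comp ((measurable_fst.comp (measurable_snd.comp measurable_snd)).prodMk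
      (measurable_snd.comp (measurable_snd.comp measurable_snd)))
  have h2 : Measurable (fun q : (ℝ × ℝ) × (ℕ → ℝ × ℝ) × (ℝ × ℝ) × (ℕ → ℝ × ℝ) =>
      cat n1 q.2.1 (gcons q.2.2.1 q.2.2.2)) :=
    (measurable_cat n1).comp ((measurable_fst.comp measurable_snd).prodMk h1)
  exact measurable_gcons.comp (measurable_fst.prodMk h2)

/-- the noise decomposed along two special steps -/
lemma lintegral_noise_four (n1 : ℕ) {f : (ℕ → ℝ × ℝ) → ℝ≥0∞} (hf : Measurable f) :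
    ∫⁻ z, f z ∂(noise μ ν) =
      ∫⁻ p1, ∫⁻ z1, ∫⁻ p2, ∫⁻ z2, f (four n1 p1 z1 p2 z2)
        ∂(noise μ ν) ∂(μ.prod ν) ∂(noise μ ν) ∂(μ.prod ν) := by
  rw [lintegral_noise_cons hf]
  apply lintegral_congr
  intro p1
  have h1 : Measurable fun z : ℕ → ℝ × ℝ => f (gcons p1 z) :=
    hf.comp (measurable_gcons.comp (measurable_const.prodMk measurable_id))
  rw [lintegral_noise_cat n1 h1]
  apply lintegral_congr
  intro z1
  have h2 : Measurable fun z : ℕ → ℝ × ℝ => f (gcons p1 (cat n1 z1 z)) :=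
    h1.comp ((measurable_cat n1).comp (measurable_const.prodMk measurable_id))
  rw [lintegral_noise_cons h2]
  rfl

lemma ae_noise {p : ℝ × ℝ → Prop} (h : ∀ᵐ x ∂(μ.prod ν), p x) :
    ∀ᵐ z ∂(noise μ ν), ∀ k, p (z k) := by
  rw [ae_all_iff]
  intro k
  exact (measurePreserving_eval_infinitePi (fun _ : ℕ => μ.prod ν) k).quasiMeasurePreserving.ae h

lemma measurable_sumS (n : ℕ) : Measurable (fun z : ℕ → ℝ × ℝ => sumS z n) := by
  unfold sumS; fun_prop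

lemma measurable_sumA (n : ℕ) : Measurable (fun z : ℕ → ℝ × ℝ => sumA z n) := by
  unfold sumA; fun_prop

lemma measurable_sumT (τ : ℝ) (n : ℕ) : Measurable (fun z : ℕ → ℝ × ℝ => sumT τ z n) := by
  unfold sumT; fun_prop

lemma measurable_reflT (τ : ℝ) (n : ℕ) :
    Measurable (fun q : ℝ × (ℕ → ℝ × ℝ) => reflT τ q.1 q.2 n) := by
  induction n with
  | zero => exact measurable_fst
  | succ n ih =>
    have h1 : Measurable (fun q : ℝ × (ℕ → ℝ × ℝ) => (q.2 n).1) := by fun_prop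
    have h2 : Measurable (fun q : ℝ × (ℕ → ℝ × ℝ) => min (q.2 n).2 τ) := by fun_prop
    exact ((ih.add h1).sub h2).max measurable_const

lemma sumS_succ (z : ℕ → ℝ × ℝ) (n : ℕ) : sumS z (n + 1) = sumS z n + (z n).1 :=
  Finset.sum_range_succ _ _

lemma sumT_succ (τ : ℝ) (z : ℕ → ℝ × ℝ) (n : ℕ) :
    sumT τ z (n + 1) = sumT τ z n + min (z n).2 τ := Finset.sum_range_succ _ _

lemma sumA_succ (z : ℕ → ℝ × ℝ) (n : ℕ) : sumA z (n + 1) = sumA z n + (z n).2 :=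
  Finset.sum_range_succ _ _

lemma reflT_gcons (τ r : ℝ) (p : ℝ × ℝ) (z : ℕ → ℝ × ℝ) (n : ℕ) :
    reflT τ r (gcons p z) (n + 1) = reflT τ (max (r + p.1 - min p.2 τ) 0) z n := by
  induction n with
  | zero => rfl
  | succ n ih => rw [reflT, ih]; rfl

lemma sumS_gcons (p : ℝ × ℝ) (z : ℕ → ℝ × ℝ) (n : ℕ) :
    sumS (gcons p z) (n + 1) = p.1 + sumS z n := by
  unfold sumS
  rw [Finset.sum_range_succ', add_comm]
  rfl

lemma sumT_gcons (τ : ℝ) (p : ℝ × ℝ) (z : ℕ → ℝ × ℝ) (n : ℕ) :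
    sumT τ (gcons p z) (n + 1) = min p.2 τ + sumT τ z n := by
  unfold sumT
  rw [Finset.sum_range_succ', add_comm]
  rfl

/-- weight of a phase with one blocked server -/
noncomputable def walkA (μ ν : Measure ℝ) [IsProbabilityMeasure μ] [IsProbabilityMeasure ν]
    (B τ θp θm : ℝ) (n : ℕ) (r : ℝ) : ℝ≥0∞ :=
  ∫⁻ z, ({z : ℕ → ℝ × ℝ | ∀ i < n, (z i).1 ≤ B}).indicator
    (fun z => ENNReal.ofReal (Real.exp (θp * reflT τ r z n - θm * sumT τ z n))) z ∂(noise μ ν)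

/-- weight of a phase with two blocked servers -/
noncomputable def walkC (μ ν : Measure ℝ) [IsProbabilityMeasure μ] [IsProbabilityMeasure ν]
    (B τ θp θm : ℝ) (n : ℕ) : ℝ≥0∞ :=
  ∫⁻ z, ({z : ℕ → ℝ × ℝ | ∀ i < n, (z i).1 ≤ B}).indicator
    (fun z => ENNReal.ofReal ((1 + θp * sumS z n) *
      Real.exp (θp * sumS z n - 2 * θm * sumT τ z n))) z ∂(noise μ ν)

/-- good noise: laws of large numbers with small error -/
def Good (E m κ δ : ℝ) : Set (ℕ → ℝ × ℝ) :=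
  {z | ∀ n : ℕ, |sumS z n - E * n| ≤ δ * (n + κ) ∧ |sumA z n - m * n| ≤ δ * (n + κ)}

end Pool.Agent.Lib.MP_04add8_pr
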