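import Mathlib
import Pool.Agent.Lib.MP_04add8_pr.Two.Defs

open MeasureTheory ProbabilityTheory Filter Topology
open scoped ENNReal

set_option linter.unusedSectionVars false

namespace Pool.Agent.Lib.MP_04add8_pr

variable {a : ℝ} {μ ν : Measure ℝ} [IsProbabilityMeasure μ] [IsProbabilityMeasure ν]

/-- **Drift condition**, uniform version. -/
theorem drift_uniform (ha0 : 0 < a) (ha1 : a < 1)
    (hμ : ∀ x, 0 ≤ x → μ (Set.Ioi x) = ENNReal.ofReal (Real.exp (-(x ^ a))))
    (hν : ν (Set.Iio 0) = 0) (hνi : Integrable (fun t : ℝ => t) ν)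
    (hgt : (∫ t, t ∂ν) < ∫ s, s ∂μ)
    {b : ℝ} (hb : 0 < b) (hb1 : b < 1) (hbm : (∫ s, s ∂μ) < (1 + b) * ∫ t, t ∂ν) :
    ∃ R k : ℝ, 0 < R ∧ 0 < k ∧ ∀ lam : ℝ, 1 / 2 ≤ lam → lam < 1 → ∃ L K : ℝ, 0 < L ∧ 0 ≤ K ∧
      ∀ w : ℝ × ℝ, 0 ≤ w.1 → w.1 ≤ w.2 →
        ∫⁻ p, ENNReal.ofReal (Real.exp (lam * cost a b R (kwStep w p.1 p.2))) ∂(μ.prod ν) +
          (if L ≤ w.2 then
            ENNReal.ofReal (k * w.2 ^ (a - 1) * Real.exp (lam * cost a b R w)) else 0) ≤
          ENNReal.ofReal (Real.exp (lam * cost a b R w)) +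
            (if L ≤ w.2 then 0 else ENNReal.ofReal K) := by
  set E1 := ∫ s, s ∂μ with hE1
  set E2 := ∫ s, s ^ 2 ∂μ with hE2
  set m := ∫ t, t ∂ν with hm
  have hE2nn : 0 ≤ E2 := integral_nonneg fun s => by positivity
  -- choose M
  obtain ⟨M, hM1, hM0⟩ : ∃ M : ℝ, E1 < (1 + b) * ∫ t, min t M ∂ν ∧ 0 ≤ M := by
    have h1 : Tendsto (fun n : ℕ => (1 + b) * ∫ t, min t (n : ℝ) ∂ν) atTop
        (𝓝 ((1 + b) * m)) := (tendsto_integral_min hν hνi).const_mul _
    obtain ⟨n, hn⟩ := (h1.eventually (lt_mem_nhds hbm)).exists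
    exact ⟨n, hn, by positivity⟩
  set m' := ∫ t, min t M ∂ν with hm'
  have hm'm : m' ≤ m := by
    apply integral_mono_ae (min_integrable hν hM0) hνi
    filter_upwards with t
    exact min_le_left _ _
  have hEm' : 0 < E1 - m' := by linarith
  set δ := (m' - (E1 - m') / b) / 2 with hδ
  have hδ0 : 0 < δ := by
    rw [hδ]
    have : (E1 - m') / b < m' := by
      rw [div_lt_iff₀ hb]; linarith
    linarith
  -- choose R
  set R := (E2 + M ^ 2 + 1) / (2 * b * δ) with hR
  have hR0 : 0 < R := by positivity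
  have hRδ : (E2 + M ^ 2) / (2 * b * R) ≤ δ := by
    rw [div_le_iff₀ (by positivity), hR]
    have : δ * (2 * b * ((E2 + M ^ 2 + 1) / (2 * b * δ))) = E2 + M ^ 2 + 1 := by
      field_simp
    rw [this]; linarith
  have ha2 : 0 < 1 - a ^ 2 := by nlinarith
  have hb2 : 0 < 1 - b ^ 2 := by nlinarith
  set C₁ := M + 1 + R / (1 - a ^ 2) with hC₁
  have hC₁M : M < C₁ := by
    have : 0 < R / (1 - a ^ 2) := by positivity
    rw [hC₁]; linarith
  have hC₁0 : 0 < C₁ := hM0.trans_lt hC₁M
  have hC₁cond : a ^ 2 * (C₁ ^ 2 + R ^ 2) ≤ C₁ ^ 2 := by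
    have h1 : R ≤ (1 - a ^ 2) * C₁ := by
      rw [hC₁]
      have : (1 - a ^ 2) * (M + 1 + R / (1 - a ^ 2)) = (1 - a ^ 2) * (M + 1) + R := by
        field_simp
      rw [this]
      have : 0 ≤ (1 - a ^ 2) * (M + 1) := by positivity
      linarith
    have h2 : R ^ 2 ≤ ((1 - a ^ 2) * C₁) ^ 2 := by gcongr
    nlinarith [sq_nonneg (a * C₁), sq_nonneg C₁, mul_pos ha2 (by positivity : 0 < C₁ ^ 2)]
  set c₁ := a * (1 + 2 / b) ^ (a - 1) with hc₁
  have hc₁0 : 0 < c₁ := by positivity
  refine ⟨R, 1 / 2 * δ / 2 * c₁, hR0, by positivity, ?_⟩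
  intro lam hl12 hl1
  have hl0 : 0 < lam := by linarith
  have hkk : 1 / 2 * δ / 2 * c₁ ≤ lam * δ / 2 * c₁ := by gcongr
  -- constants
  set c := (1 + lam) / 2 with hcdef
  have hc : lam < c := by rw [hcdef]; linarith
  have hc1 : c < 1 := by rw [hcdef]; linarith
  set C₂ := ∫ s, domG b R M s ^ 2 ∂μ with hC₂
  have hC₂nn : 0 ≤ C₂ := integral_nonneg fun s => by positivity
  obtain ⟨Y₀, hY₀⟩ := (small_eventually (a := a) (b := b) (R := R) (M := M) (C₂ := C₂)
    ha0 hl0 hc hc1 hδ0).exists_forall_of_atTop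
  set Y := max Y₀ 1 with hY
  have hY1 : 1 ≤ Y := le_max_right _ _
  -- choose L
  have hrp : Tendsto (fun x : ℝ => x ^ (a - 1)) atTop (𝓝 0) := by
    have := tendsto_rpow_neg_atTop (y := 1 - a) (by linarith)
    simpa using this
  obtain ⟨L, hL1, hL2, hL3⟩ : ∃ L : ℝ, (max (max (M + 1) R) (M + R / (1 - b ^ 2)) ≤ L) ∧
      a * L ^ (a - 1) * ((C₁ + R) / b) ≤ 1 ∧ a * L ^ (a - 1) ≤ 1 / Y := by
    have h1 : Tendsto (fun x : ℝ => a * x ^ (a - 1) * ((C₁ + R) / b)) atTop (𝓝 0) := by
      simpa using (hrp.const_mul a).mul_const ((C₁ + R) / b)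
    have h2 : Tendsto (fun x : ℝ => a * x ^ (a - 1)) atTop (𝓝 0) := by
      simpa using hrp.const_mul a
    have h3 := h1.eventually (ge_mem_nhds zero_lt_one)
    have h4 := h2.eventually (ge_mem_nhds (show 0 < 1 / Y by positivity))
    obtain ⟨L, hL⟩ := ((eventually_ge_atTop (max (max (M + 1) R) (M + R / (1 - b ^ 2)))).and
      (h3.and h4)).exists
    exact ⟨L, hL.1, hL.2.1, hL.2.2⟩
  have hLM : M < L := by
    have := (le_max_left _ _).trans ((le_max_left _ _).trans hL1)
    linarith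
  have hLR : R ≤ L := (le_max_right _ _).trans ((le_max_left _ _).trans hL1)
  have hLb : M + R / (1 - b ^ 2) ≤ L := (le_max_right _ _).trans hL1
  have hL0 : 0 < L := hM0.trans_lt hLM
  have hLcond' : ∀ x, L ≤ x → b ^ 2 * ((x - M) ^ 2 + R ^ 2) ≤ (x - M) ^ 2 := by
    intro x hx
    have h1 : R ≤ (1 - b ^ 2) * (x - M) := by
      have : R / (1 - b ^ 2) ≤ x - M := by linarith
      rw [div_le_iff₀ hb2] at this
      linarith
    have hxM : 0 < x - M := by linarith
    have h2 : R ^ 2 ≤ ((1 - b ^ 2) * (x - M)) ^ 2 := by gcongr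
    nlinarith [sq_nonneg (b * (x - M)), mul_pos hb2 (by positivity : 0 < (x - M) ^ 2)]
  refine ⟨L, Real.exp (lam * (2 * L ^ a + 1)) * (1 / (1 - lam)), hL0,
    by
      have : 0 < 1 - lam := by linarith
      positivity, ?_⟩
  intro w hw1 hw12
  by_cases hwL : L ≤ w.2
  · rw [if_pos hwL, if_pos hwL, add_zero]
    have hkg : ENNReal.ofReal (1 / 2 * δ / 2 * c₁ * w.2 ^ (a - 1) *
        Real.exp (lam * cost a b R w)) ≤
        ENNReal.ofReal (lam * δ / 2 * c₁ * w.2 ^ (a - 1) * Real.exp (lam * cost a b R w)) := by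
      apply ENNReal.ofReal_le_ofReal
      have hw2' : 0 < w.2 := hL0.trans_le hwL
      gcongr
    refine (add_le_add le_rfl hkg).trans ?_
    obtain ⟨ε, q, hq0, hq1, hε1, hε2, hJ2⟩ := cost_kwStep_le_incr (M := M) ha0 ha1 hb hb1 hR0 hM0
      hC₁M hC₁cond hLM hLR (hLcond' L le_rfl) hL2 hw1 hw12 hwL
    have hw2 : 0 < w.2 := hL0.trans_le hwL
    have hJ1 : ∀ s t : ℝ, 0 ≤ s → 0 ≤ t →
        cost a b R (kwStep w s t) ≤ cost a b R w + s ^ a + 1 := fun s t hs ht =>
      cost_kwStep_le_add ha0 ha1 hb hb1 hR0 hM0 hw1 (by linarith) (hLcond' w.2 hwL) hs ht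
    have hwp : w.2 ^ (a - 1) ≤ L ^ (a - 1) :=
      Real.rpow_le_rpow_of_nonpos hL0 hwL (by linarith)
    have hε0 : 0 < ε := lt_of_lt_of_le (by positivity) hε1
    have hεY : ε ≤ 1 / Y := by
      calc ε ≤ a * w.2 ^ (a - 1) := hε2
        _ ≤ a * L ^ (a - 1) := by gcongr
        _ ≤ 1 / Y := hL3
    have hyY : Y₀ ≤ 1 / ε := by
      have h1 : Y ≤ 1 / ε := by
        rw [le_div_iff₀ hε0]
        rw [le_div_iff₀ (by positivity)] at hεY
        linarith
      exact (le_max_left _ _).trans h1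
    obtain ⟨hs1, hs2, hs3⟩ := hY₀ (1 / ε) hyY
    have e1 : (1 : ℝ) / (1 / ε) = ε := by field_simp
    rw [e1] at hs1 hs2 hs3
    have hs0' : 0 ≤ (1 / ε) ^ (1 / 4 : ℝ) := by positivity
    have hmain := lintegral_step_le (ν := ν) ha0 hμ hν hb hR0 hM0 hl0 hl1 hc hc1 hs0' hε0.le hq0 hq1
      hs1 hJ1 hJ2
    have hint := (integral_incr (ν := ν) ha0 hμ hν hM0 b R q).2
    have hincr : ∫ p : ℝ × ℝ, incr b R M q p.1 p.2 ∂(μ.prod ν) ≤ -δ := by
      rw [hint]
      have h5 : q / b * (E1 - m') ≤ 1 / b * (E1 - m') := by gcongr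
      have h6 : -m' + 1 / b * (E1 - m') = -(2 * δ) := by rw [hδ]; ring
      linarith
    have hbr : 1 + lam * ε * (∫ p : ℝ × ℝ, incr b R M q p.1 p.2 ∂(μ.prod ν)) +
          ε ^ 2 * C₂ +
          Real.exp (1 - (c - lam) * ((1 / ε) ^ (1 / 4 : ℝ)) ^ a) * (1 / (1 - c)) ≤
        1 - lam * ε * δ / 2 := by
      have h7 : lam * ε * (∫ p : ℝ × ℝ, incr b R M q p.1 p.2 ∂(μ.prod ν)) ≤
          lam * ε * (-δ) := by gcongr
      linarith
    have hfin : Real.exp (lam * cost a b R w) *
        (1 + lam * ε * (∫ p : ℝ × ℝ, incr b R M q p.1 p.2 ∂(μ.prod ν)) +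
          ε ^ 2 * C₂ +
          Real.exp (1 - (c - lam) * ((1 / ε) ^ (1 / 4 : ℝ)) ^ a) * (1 / (1 - c))) ≤
        Real.exp (lam * cost a b R w) -
          lam * δ / 2 * c₁ * w.2 ^ (a - 1) * Real.exp (lam * cost a b R w) := by
      calc _ ≤ Real.exp (lam * cost a b R w) * (1 - lam * ε * δ / 2) := by gcongr
        _ ≤ Real.exp (lam * cost a b R w) * (1 - lam * δ / 2 * (c₁ * w.2 ^ (a - 1))) := by
            gcongr
            have : lam * δ / 2 * (c₁ * w.2 ^ (a - 1)) ≤ lam * δ / 2 * ε := by gcongr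
            linarith
        _ = _ := by ring
    have hg0 : 0 ≤ lam * δ / 2 * c₁ * w.2 ^ (a - 1) * Real.exp (lam * cost a b R w) := by
      positivity
    calc _ ≤ ENNReal.ofReal (Real.exp (lam * cost a b R w) -
          lam * δ / 2 * c₁ * w.2 ^ (a - 1) * Real.exp (lam * cost a b R w)) +
          ENNReal.ofReal (lam * δ / 2 * c₁ * w.2 ^ (a - 1) * Real.exp (lam * cost a b R w)) := by
            gcongr
            exact hmain.trans (ENNReal.ofReal_le_ofReal hfin)
      _ ≤ ENNReal.ofReal (Real.exp (lam * cost a b R w)) := by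
            by_cases hneg : 0 ≤ Real.exp (lam * cost a b R w) -
              lam * δ / 2 * c₁ * w.2 ^ (a - 1) * Real.exp (lam * cost a b R w)
            · rw [← ENNReal.ofReal_add hneg hg0]
              apply ENNReal.ofReal_le_ofReal
              linarith
            · exfalso
              -- the expectation is nonnegative, so the bound is nonnegative
              have h8 : Real.exp (lam * cost a b R w) * (1 - lam * ε * δ / 2) < 0 ∨
                  0 ≤ Real.exp (lam * cost a b R w) -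
                lam * δ / 2 * c₁ * w.2 ^ (a - 1) * Real.exp (lam * cost a b R w) := by
                by_cases h9 : 0 ≤ 1 - lam * ε * δ / 2
                · right
                  have : Real.exp (lam * cost a b R w) * (1 - lam * ε * δ / 2) ≤
                    Real.exp (lam * cost a b R w) * (1 - lam * δ / 2 * (c₁ * w.2 ^ (a - 1))) := by
                    gcongr
                    have : lam * δ / 2 * (c₁ * w.2 ^ (a - 1)) ≤ lam * δ / 2 * ε := by gcongr
                    linarith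
                  have h10 : 0 ≤ Real.exp (lam * cost a b R w) * (1 - lam * ε * δ / 2) := by
                    positivity
                  linarith
                · left
                  push Not at h9
                  exact mul_neg_of_pos_of_neg (Real.exp_pos _) h9
              rcases h8 with h8 | h8
              · have h9 : 1 - lam * ε * δ / 2 < 0 := by
                  by_contra hcon
                  push Not at hcon
                  have : 0 ≤ Real.exp (lam * cost a b R w) * (1 - lam * ε * δ / 2) := by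
                    positivity
                  linarith
                have h10 : 0 < Real.exp (1 - (c - lam) * ((1 / ε) ^ (1 / 4 : ℝ)) ^ a) *
                    (1 / (1 - c)) := by
                  have : 0 < 1 - c := by linarith
                  positivity
                -- the pointwise bound is positive in expectation
                have h11 := hmain.trans (ENNReal.ofReal_le_ofReal
                  (mul_le_mul_of_nonneg_left hbr (Real.exp_pos (lam * cost a b R w)).le))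
                rw [ENNReal.ofReal_of_nonpos h8.le] at h11
                have h12 : ∫⁻ p, ENNReal.ofReal (Real.exp (lam * cost a b R (kwStep w p.1 p.2)))
                    ∂(μ.prod ν) ≠ 0 := by
                  have hmeas : Measurable fun p : ℝ × ℝ =>
                      ENNReal.ofReal (Real.exp (lam * cost a b R (kwStep w p.1 p.2))) := by
                    unfold cost bigA kwStep
                    fun_prop
                  rw [Ne, lintegral_eq_zero_iff hmeas]
                  intro hz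
                  have hne : ∀ p : ℝ × ℝ,
                      ENNReal.ofReal (Real.exp (lam * cost a b R (kwStep w p.1 p.2))) ≠ 0 :=
                    fun p => by simp [Real.exp_pos]
                  obtain ⟨p, hp⟩ := hz.exists
                  exact hne p hp
                exact h12 (le_antisymm h11 zero_le)
              · exact hneg h8
  · rw [if_neg hwL, if_neg hwL, add_zero]
    push Not at hwL
    have hspos : ∀ᵐ p ∂(μ.prod ν), 0 ≤ p.1 ∧ 0 ≤ p.2 := by
      have h1 : ∀ᵐ p ∂(μ.prod ν), 0 ≤ p.1 := by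
        have := (Measure.quasiMeasurePreserving_fst (μ := μ) (ν := ν)).ae
          ((weibull_ae_pos ha0 hμ).mono fun s hs => hs.le)
        exact this
      have h2 : ∀ᵐ p ∂(μ.prod ν), 0 ≤ p.2 := by
        have := (Measure.quasiMeasurePreserving_snd (μ := μ) (ν := ν)).ae (ae_nonneg_of_Iio hν)
        exact this
      filter_upwards [h1, h2] with p hp1 hp2 using ⟨hp1, hp2⟩
    have hw2 : 0 ≤ w.2 := hw1.trans hw12
    have h3 : ∫⁻ p, ENNReal.ofReal (Real.exp (lam * cost a b R (kwStep w p.1 p.2))) ∂(μ.prod ν) ≤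
        ∫⁻ p, ENNReal.ofReal (Real.exp (lam * (2 * L ^ a + 1))) *
          ENNReal.ofReal (Real.exp (lam * p.1 ^ a)) ∂(μ.prod ν) := by
      apply lintegral_mono_ae
      filter_upwards [hspos] with p hp
      rw [← ENNReal.ofReal_mul (Real.exp_pos _).le, ← Real.exp_add]
      apply ENNReal.ofReal_le_ofReal
      apply Real.exp_le_exp.mpr
      have h4 := cost_sorted_le_two (a := a) (b := b) (R := R) (max (w.1 + p.1 - p.2) 0)
        (max (w.2 - p.2) 0)
      rw [← kwStep_eq] at h4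
      have h5 : (max (w.1 + p.1 - p.2) 0) ^ a ≤ (w.1 + p.1) ^ a := by
        have : max (w.1 + p.1 - p.2) 0 ≤ w.1 + p.1 := max_le (by linarith) (by linarith)
        gcongr
      have h6 : (max (w.2 - p.2) 0) ^ a ≤ L ^ a := by
        have : max (w.2 - p.2) 0 ≤ L := max_le (by linarith) hL0.le
        gcongr
      have h7 := rpow_add_le_add ha0 ha1 hw1 hp.1
      have h8 : w.1 ^ a ≤ L ^ a := by
        have : w.1 ≤ L := by linarith
        gcongr
      have h9 : cost a b R (kwStep w p.1 p.2) ≤ 2 * L ^ a + 1 + p.1 ^ a := by linarith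
      nlinarith
    refine h3.trans ?_
    rw [lintegral_const_mul _ (by fun_prop)]
    have h10 : ∫⁻ p : ℝ × ℝ, ENNReal.ofReal (Real.exp (lam * p.1 ^ a)) ∂(μ.prod ν) =
        ∫⁻ s, ENNReal.ofReal (Real.exp (lam * s ^ a)) ∂μ := by
      rw [lintegral_prod _ (by fun_prop)]
      simp
    rw [h10]
    have h11 := weibull_lintegral_exp ha0 hμ hl0.le hl1
    calc ENNReal.ofReal (Real.exp (lam * (2 * L ^ a + 1))) *
          ∫⁻ s, ENNReal.ofReal (Real.exp (lam * s ^ a)) ∂μ
        ≤ ENNReal.ofReal (Real.exp (lam * (2 * L ^ a + 1))) * ENNReal.ofReal (1 / (1 - lam)) := by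
          gcongr
      _ = ENNReal.ofReal (Real.exp (lam * (2 * L ^ a + 1)) * (1 / (1 - lam))) := by
          rw [ENNReal.ofReal_mul (Real.exp_pos _).le]
      _ ≤ _ := le_add_self


/-- existence of the parameter `b` -/
lemma exists_b {E m : ℝ} (hm : 0 < m) (hgt : m < E) (hlt : E < 2 * m) :
    ∃ b : ℝ, 0 < b ∧ b < 1 ∧ E < (1 + b) * m := by
  obtain ⟨b, hb1, hb2⟩ := exists_between (show (E - m) / m < 1 by rw [div_lt_one hm]; linarith)
  refine ⟨b, lt_trans (div_pos (by linarith) hm) hb1, hb2, ?_⟩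
  rw [div_lt_iff₀ hm] at hb1
  linarith

lemma snd_rpow_le_cost (ha0 : 0 < a) {b R : ℝ} (hb : 0 < b) {w : ℝ × ℝ} (h0 : 0 ≤ w.1)
    (h1 : w.1 ≤ w.2) : w.2 ^ a ≤ cost a b R w := by
  have hA2 : w.2 ≤ bigA b R w := by
    unfold bigA
    have : 0 ≤ √(w.1 ^ 2 + R ^ 2) / b := by positivity
    linarith
  have hw2 : 0 ≤ w.2 := h0.trans h1
  unfold cost
  apply le_min
  · gcongr
  · have : 0 ≤ w.1 ^ a := by positivity
    linarith

theorem tail_snd (ha0 : 0 < a) (ha1 : a < 1)
    (hμ : ∀ x, 0 ≤ x → μ (Set.Ioi x) = ENNReal.ofReal (Real.exp (-(x ^ a))))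
    (hν : ν (Set.Iio 0) = 0) (hνi : Integrable (fun t : ℝ => t) ν)
    (hm : 0 < ∫ t, t ∂ν)
    (hgt : (∫ t, t ∂ν) < ∫ s, s ∂μ) (hlt : (∫ s, s ∂μ) < 2 * ∫ t, t ∂ν)
    {lam : ℝ} (hl0 : 0 < lam) (hl1 : lam < 1) :
    ∃ C1 y0 : ℝ, 0 ≤ C1 ∧ 0 < y0 ∧ ∀ π : Measure (ℝ × ℝ), IsStationaryKW μ ν π →
        ∀ y, y0 ≤ y → π {w | y < w.2} ≤ ENNReal.ofReal (C1 * Real.exp (-(lam * y ^ a))) := by
  obtain ⟨b, hb0, hb1, hbm⟩ := exists_b hm hgt hlt
  set lam' := (1 + lam) / 2 with hlam
  have hl0' : 0 < lam' := by rw [hlam]; linarith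
  have hl1' : lam' < 1 := by rw [hlam]; linarith
  set δ := lam' - lam with hδ
  have hδ0 : 0 < δ := by rw [hδ, hlam]; linarith
  obtain ⟨R, L, k, K, hR, hL, hk, hK, hdrift⟩ :=
    drift_exists ha0 ha1 hμ hν hνi hgt hb0 hb1 hbm hl0' hl1'
  set p := (1 - a) / a with hp
  have hp0 : 0 < p := by
    have : 0 < 1 - a := by linarith
    positivity
  set c' := ((p / δ) ^ p)⁻¹ with hc'
  have hc'0 : 0 < c' := by positivity
  have hpoly : ∀ y : ℝ, 0 < y → c' ≤ y ^ (a - 1) * Real.exp (δ * y ^ a) := by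
    intro y hy
    have h1 := rpow_le_exp (p := p) (c := δ) (u := y ^ a) hp0 hδ0 (by positivity)
    have h2 : (y ^ a) ^ p = y ^ (1 - a) := by
      rw [← Real.rpow_mul hy.le]; congr 1; rw [hp]; field_simp
    rw [h2] at h1
    have h3 : y ^ (a - 1) = (y ^ (1 - a))⁻¹ := by
      rw [← Real.rpow_neg hy.le]; congr 1; ring
    have h4 : 0 < y ^ (1 - a) := by positivity
    have h5 : 0 < (p / δ) ^ p := by positivity
    rw [h3, hc', inv_mul_eq_div, le_div_iff₀ h4, inv_mul_eq_div, div_le_iff₀ h5]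
    linarith
  refine ⟨K / (k * c'), L, by positivity, hL, ?_⟩
  intro π hπ y hy
  have hprob : IsProbabilityMeasure π := hπ.1
  have hy0 : 0 < y := hL.trans_le hy
  set H : ℝ × ℝ → ℝ≥0∞ := fun w => ENNReal.ofReal (Real.exp (lam' * cost a b R w)) with hH
  set g : ℝ × ℝ → ℝ≥0∞ := fun w => if L ≤ w.2 then
    ENNReal.ofReal (k * w.2 ^ (a - 1) * Real.exp (lam' * cost a b R w)) else 0 with hg
  have hcm := measurable_cost a b R
  have hHm : Measurable H := by
    rw [hH]; fun_prop
  have hgm : Measurable g := by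
    rw [hg]
    apply Measurable.ite (measurableSet_le measurable_const measurable_snd)
    · fun_prop
    · exact measurable_const
  have hmain := hπ.lyapunov hHm hgm (fun w => ENNReal.ofReal_ne_top) (ENNReal.ofReal K)
    (fun w h1 h2 => hdrift w h1 h2)
  set v := k * c' * Real.exp (lam * y ^ a) with hv
  have hv0 : 0 < v := by positivity
  have hgv : ∀ᵐ w ∂π, w ∈ {w : ℝ × ℝ | y < w.2} → ENNReal.ofReal v ≤ g w := by
    filter_upwards [hπ.ae_ordered] with w hw hwy
    have hwy' : y < w.2 := hwy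
    have hw2 : 0 < w.2 := hy0.trans hwy'
    rw [hg]
    simp only
    rw [if_pos (hy.trans hwy'.le)]
    apply ENNReal.ofReal_le_ofReal
    rw [hv]
    have hcost2 := snd_rpow_le_cost (R := R) ha0 hb0 hw.1 hw.2
    have h6 : lam * y ^ a + δ * w.2 ^ a ≤ lam' * cost a b R w := by
      have e : lam' = lam + δ := by rw [hδ]; ring
      rw [e, add_mul]
      have h7 : y ^ a ≤ cost a b R w := by
        refine le_trans ?_ hcost2
        gcongr
      have : lam * y ^ a ≤ lam * cost a b R w := by gcongr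
      have : δ * w.2 ^ a ≤ δ * cost a b R w := by gcongr
      linarith
    have h7 := hpoly w.2 hw2
    calc k * c' * Real.exp (lam * y ^ a)
        ≤ k * (w.2 ^ (a - 1) * Real.exp (δ * w.2 ^ a)) * Real.exp (lam * y ^ a) := by
          gcongr
      _ = k * w.2 ^ (a - 1) * Real.exp (lam * y ^ a + δ * w.2 ^ a) := by
          rw [Real.exp_add]; ring
      _ ≤ _ := by gcongr
  have h8 : ENNReal.ofReal v * π {w : ℝ × ℝ | y < w.2} ≤ ENNReal.ofReal K := by
    calc ENNReal.ofReal v * π {w : ℝ × ℝ | y < w.2}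
        = ∫⁻ w in {w : ℝ × ℝ | y < w.2}, ENNReal.ofReal v ∂π := by
          rw [setLIntegral_const]
      _ ≤ ∫⁻ w in {w : ℝ × ℝ | y < w.2}, g w ∂π := by
          apply setLIntegral_mono_ae hgm.aemeasurable
          filter_upwards [hgv] with w hw hwS
          exact hw hwS
      _ ≤ ∫⁻ w, g w ∂π := setLIntegral_le_lintegral _ _
      _ ≤ ENNReal.ofReal K := hmain
  have h9 : π {w : ℝ × ℝ | y < w.2} ≤ ENNReal.ofReal K / ENNReal.ofReal v := by
    rw [ENNReal.le_div_iff_mul_le (Or.inl (by simpa using hv0)) (Or.inl ENNReal.ofReal_ne_top),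
      mul_comm]
    exact h8
  refine h9.trans (le_of_eq ?_)
  rw [← ENNReal.ofReal_div_of_pos hv0]
  congr 1
  rw [hv, Real.exp_neg]
  have := Real.exp_pos (lam * y ^ a)
  field_simp

theorem exp_moment_snd (ha0 : 0 < a) (ha1 : a < 1)
    (hμ : ∀ x, 0 ≤ x → μ (Set.Ioi x) = ENNReal.ofReal (Real.exp (-(x ^ a))))
    (hν : ν (Set.Iio 0) = 0) (hνi : Integrable (fun t : ℝ => t) ν)
    (hm : 0 < ∫ t, t ∂ν)
    (hgt : (∫ t, t ∂ν) < ∫ s, s ∂μ) (hlt : (∫ s, s ∂μ) < 2 * ∫ t, t ∂ν) :
    ∃ C2 : ℝ, 0 ≤ C2 ∧ ∀ π : Measure (ℝ × ℝ), IsStationaryKW μ ν π →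
        ∫⁻ w, ENNReal.ofReal (w.2 * Real.exp (w.2 ^ a / 2)) ∂π ≤ ENNReal.ofReal C2 := by
  obtain ⟨b, hb0, hb1, hbm⟩ := exists_b hm hgt hlt
  obtain ⟨R, L, k, K, hR, hL, hk, hK, hdrift⟩ :=
    drift_exists ha0 ha1 hμ hν hνi hgt hb0 hb1 hbm (lam := 3 / 4) (by norm_num) (by norm_num)
  set p := (2 - a) / a with hp
  have hp0 : 0 < p := by
    have : 0 < 2 - a := by linarith
    positivity
  set c' := (p / (1 / 4)) ^ p with hc'
  have hc'0 : 0 < c' := by positivity
  have hpoly : ∀ y : ℝ, 0 < y → y * Real.exp (y ^ a / 2) ≤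
      c' * (y ^ (a - 1) * Real.exp (3 / 4 * y ^ a)) := by
    intro y hy
    have h1 := rpow_le_exp (p := p) (c := 1 / 4) (u := y ^ a) hp0 (by norm_num) (by positivity)
    have h2 : (y ^ a) ^ p = y ^ (2 - a) := by
      rw [← Real.rpow_mul hy.le]; congr 1; rw [hp]; field_simp
    rw [h2] at h1
    have h3 : y = y ^ (2 - a) * y ^ (a - 1) := by
      rw [← Real.rpow_add hy]
      have : 2 - a + (a - 1) = 1 := by ring
      rw [this, Real.rpow_one]
    have h4 : Real.exp (3 / 4 * y ^ a) = Real.exp (1 / 4 * y ^ a) * Real.exp (y ^ a / 2) := by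
      rw [← Real.exp_add]; congr 1; ring
    calc y * Real.exp (y ^ a / 2) = y ^ (2 - a) * y ^ (a - 1) * Real.exp (y ^ a / 2) := by
          rw [← h3]
      _ ≤ (c' * Real.exp (1 / 4 * y ^ a)) * y ^ (a - 1) * Real.exp (y ^ a / 2) := by gcongr
      _ = _ := by rw [h4]; ring
  refine ⟨c' / k * K + L * Real.exp (L ^ a / 2), by positivity, ?_⟩
  intro π hπ
  have hprob : IsProbabilityMeasure π := hπ.1
  set H : ℝ × ℝ → ℝ≥0∞ := fun w => ENNReal.ofReal (Real.exp (3 / 4 * cost a b R w)) with hH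
  set g : ℝ × ℝ → ℝ≥0∞ := fun w => if L ≤ w.2 then
    ENNReal.ofReal (k * w.2 ^ (a - 1) * Real.exp (3 / 4 * cost a b R w)) else 0 with hg
  have hcm := measurable_cost a b R
  have hHm : Measurable H := by
    rw [hH]; fun_prop
  have hgm : Measurable g := by
    rw [hg]
    apply Measurable.ite (measurableSet_le measurable_const measurable_snd)
    · fun_prop
    · exact measurable_const
  have hmain := hπ.lyapunov hHm hgm (fun w => ENNReal.ofReal_ne_top) (ENNReal.ofReal K)
    (fun w h1 h2 => hdrift w h1 h2)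
  calc ∫⁻ w, ENNReal.ofReal (w.2 * Real.exp (w.2 ^ a / 2)) ∂π
      ≤ ∫⁻ w, (ENNReal.ofReal (c' / k) * g w + ENNReal.ofReal (L * Real.exp (L ^ a / 2))) ∂π := by
        apply lintegral_mono_ae
        filter_upwards [hπ.ae_ordered] with w hw
        by_cases h : L ≤ w.2
        · refine le_trans ?_ le_self_add
          have hw2 : 0 < w.2 := hL.trans_le h
          have e : g w = ENNReal.ofReal (k * w.2 ^ (a - 1) * Real.exp (3 / 4 * cost a b R w)) := by
            rw [hg]
            simp only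
            rw [if_pos h]
          rw [e, ← ENNReal.ofReal_mul (by positivity)]
          apply ENNReal.ofReal_le_ofReal
          refine (hpoly w.2 hw2).trans ?_
          have hcost2 := snd_rpow_le_cost (R := R) ha0 hb0 hw.1 hw.2
          calc c' * (w.2 ^ (a - 1) * Real.exp (3 / 4 * w.2 ^ a))
              ≤ c' * (w.2 ^ (a - 1) * Real.exp (3 / 4 * cost a b R w)) := by gcongr
            _ = _ := by field_simp
        · refine le_trans ?_ le_add_self
          push Not at h
          have hw2 : 0 ≤ w.2 := hw.1.trans hw.2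
          apply ENNReal.ofReal_le_ofReal
          gcongr
    _ = ENNReal.ofReal (c' / k) * ∫⁻ w, g w ∂π + ENNReal.ofReal (L * Real.exp (L ^ a / 2)) := by
        rw [lintegral_add_right _ measurable_const, lintegral_const_mul _ hgm]
        simp
    _ ≤ ENNReal.ofReal (c' / k) * ENNReal.ofReal K +
          ENNReal.ofReal (L * Real.exp (L ^ a / 2)) := by gcongr
    _ = _ := by
        rw [← ENNReal.ofReal_mul (by positivity), ← ENNReal.ofReal_add (by positivity)
          (by positivity)]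

end Pool.Agent.Lib.MP_04add8_pr
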