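import Mathlib
import Pool.Agent.Lib.MP_04add8_pr.Two.DriftU

open MeasureTheory ProbabilityTheory Filter Topology
open scoped ENNReal

set_option linter.unusedSectionVars false

namespace Pool.Agent.Lib.MP_04add8_pr

variable {a : ℝ} {μ ν : Measure ℝ} [IsProbabilityMeasure μ] [IsProbabilityMeasure ν]

/-- the parameter `b` in the regime of two big jobs -/
lemma exists_b_two (ha0 : 0 < a) {E m : ℝ} (hm : 0 < m) (hgt : m < E) (hlt : E < 2 * m)
    (h2 : 2 < (E / (E - m)) ^ a) :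
    ∃ b : ℝ, 0 < b ∧ b < 1 ∧ E < (1 + b) * m ∧ 2 < (1 + 1 / b) ^ a := by
  set r := (E - m) / m with hr
  have hd : 0 < E - m := by linarith
  have hE0 : 0 < E := hm.trans hgt
  have hr0 : 0 < r := by positivity
  have hr1 : r < 1 := by rw [hr, div_lt_one hm]; linarith
  have hr2 : 1 + 1 / r = E / (E - m) := by
    rw [hr]; field_simp; ring
  have hcont : ContinuousAt (fun b : ℝ => (1 + 1 / b) ^ a) r := by
    apply ContinuousAt.rpow_const
    · fun_prop (disch := exact hr0.ne')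
    · right; exact ha0.le
  have hev : ∀ᶠ b in 𝓝[>] r, 2 < (1 + 1 / b) ^ a := by
    apply Filter.Eventually.filter_mono nhdsWithin_le_nhds
    apply hcont.eventually
    apply lt_mem_nhds
    change 2 < (1 + 1 / r) ^ a
    rw [hr2]
    exact h2
  have hev2 : ∀ᶠ b in 𝓝[>] r, b < 1 := by
    apply Filter.Eventually.filter_mono nhdsWithin_le_nhds
    exact gt_mem_nhds hr1
  obtain ⟨b, hbθ, hb1, hbr⟩ := (hev.and (hev2.and self_mem_nhdsWithin)).exists
  have hbr' : r < b := hbr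
  refine ⟨b, hr0.trans hbr', hb1, ?_, hbθ⟩
  have : E - m < b * m := by
    rwa [hr, div_lt_iff₀ hm] at hbr'
  linarith

lemma two_rpow_le_cost (ha0 : 0 < a) {b R x : ℝ} (hb : 0 < b) (hb2 : 2 < (1 + 1 / b) ^ a)
    (hx : 0 < x) {w : ℝ × ℝ} (h1 : w.1 ≤ w.2) (hxw : x < w.1) : 2 * x ^ a ≤ cost a b R w := by
  have hA : x + x / b ≤ bigA b R w := by
    unfold bigA
    have h3 : w.1 ≤ √(w.1 ^ 2 + R ^ 2) := by
      apply Real.le_sqrt_of_sq_le; nlinarith [sq_nonneg R]
    have h4 : x / b ≤ √(w.1 ^ 2 + R ^ 2) / b := by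
      gcongr
      linarith
    linarith
  unfold cost
  apply le_min
  · calc 2 * x ^ a ≤ (1 + 1 / b) ^ a * x ^ a := by gcongr
      _ = (x + x / b) ^ a := by
          rw [← Real.mul_rpow (by positivity) hx.le]; congr 1; ring
      _ ≤ bigA b R w ^ a := by gcongr
  · have h3 : x ^ a ≤ w.1 ^ a := by gcongr
    have h4 : x ^ a ≤ w.2 ^ a := by
      have : x ≤ w.2 := by linarith
      gcongr
    linarith

/-- the walk stays in the strip -/
def strip (u v : ℝ) (n : ℕ) (w : ℝ × ℝ) : Set (ℕ → ℝ × ℝ) :=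
  {z | ∀ k < n, u < (pIter w z k).2 ∧ (pIter w z k).2 ≤ v}

lemma measurable_pIter_right (w : ℝ × ℝ) (n : ℕ) :
    Measurable (fun z : ℕ → ℝ × ℝ => pIter w z n) :=
  (measurable_pIter n).comp (measurable_const.prodMk measurable_id)

lemma measurableSet_strip (u v : ℝ) (n : ℕ) (w : ℝ × ℝ) : MeasurableSet (strip u v n w) := by
  have : strip u v n w = ⋂ k ∈ Finset.range n,
      {z : ℕ → ℝ × ℝ | u < (pIter w z k).2 ∧ (pIter w z k).2 ≤ v} := by
    ext z; simp [strip]
  rw [this]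
  refine Finset.measurableSet_biInter _ (fun k _ => ?_)
  have hm := (measurable_pIter_right w k).snd
  exact (measurableSet_lt measurable_const hm).inter (measurableSet_le hm measurable_const)

lemma gcons_mem_strip (u v : ℝ) (n : ℕ) (w p : ℝ × ℝ) (z : ℕ → ℝ × ℝ) :
    gcons p z ∈ strip u v (n + 1) w ↔
      (u < w.2 ∧ w.2 ≤ v) ∧ z ∈ strip u v n (kwStep w p.1 p.2) := by
  constructor
  · intro h
    refine ⟨h 0 (Nat.succ_pos _), ?_⟩
    intro k hk
    have := h (k + 1) (Nat.succ_lt_succ hk)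
    rwa [pIter_gcons] at this
  · rintro ⟨h0, h⟩ k hk
    cases k with
    | zero => exact h0
    | succ k =>
      rw [pIter_gcons]
      exact h k (Nat.lt_of_succ_lt_succ hk)

/-- geometric decay along the strip -/
lemma strip_decay {H : ℝ × ℝ → ℝ≥0∞} (hH : Measurable H) {u v q : ℝ}
    (hd : ∀ w : ℝ × ℝ, 0 ≤ w.1 → w.1 ≤ w.2 → u < w.2 → w.2 ≤ v →
      ∫⁻ p, H (kwStep w p.1 p.2) ∂(μ.prod ν) ≤ ENNReal.ofReal (1 - q) * H w) (n : ℕ) :
    ∀ w : ℝ × ℝ, 0 ≤ w.1 → w.1 ≤ w.2 →
      ∫⁻ z, (strip u v n w).indicator (fun z => H (pIter w z n)) z ∂(noise μ ν) ≤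
        ENNReal.ofReal (1 - q) ^ n * H w := by
  induction n with
  | zero =>
    intro w _ _
    have : IsProbabilityMeasure (noise μ ν) := inferInstance
    have e : ∀ z : ℕ → ℝ × ℝ, (strip u v 0 w).indicator (fun z => H (pIter w z 0)) z ≤ H w := by
      intro z
      refine (Set.indicator_le_self _ _ z).trans ?_
      exact le_rfl
    refine (lintegral_mono e).trans ?_
    simp
  | succ n ih =>
    intro w h0 h1
    have hmeas : Measurable (fun z : ℕ → ℝ × ℝ =>
        (strip u v (n + 1) w).indicator (fun z => H (pIter w z (n + 1))) z) :=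
      (hH.comp (measurable_pIter_right w (n + 1))).indicator (measurableSet_strip u v (n + 1) w)
    rw [lintegral_noise_cons hmeas]
    by_cases hw : u < w.2 ∧ w.2 ≤ v
    · have e : ∀ p : ℝ × ℝ, ∫⁻ z, (strip u v (n + 1) w).indicator
          (fun z => H (pIter w z (n + 1))) (gcons p z) ∂(noise μ ν) ≤
          ENNReal.ofReal (1 - q) ^ n * H (kwStep w p.1 p.2) := by
        intro p
        refine le_trans (le_of_eq ?_) (ih (kwStep w p.1 p.2) (kwStep_fst_nonneg _ _ _)
          (kwStep_fst_le_snd _ _ _))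
        refine lintegral_congr (fun z => ?_)
        by_cases hz : z ∈ strip u v n (kwStep w p.1 p.2)
        · rw [Set.indicator_of_mem ((gcons_mem_strip u v n w p z).2 ⟨hw, hz⟩),
            Set.indicator_of_mem hz, pIter_gcons]
        · rw [Set.indicator_of_notMem (fun h => hz ((gcons_mem_strip u v n w p z).1 h).2),
            Set.indicator_of_notMem hz]
      refine (lintegral_mono e).trans ?_
      have hc : ENNReal.ofReal (1 - q) ^ n ≠ ∞ := ENNReal.pow_ne_top ENNReal.ofReal_ne_top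
      rw [lintegral_const_mul' _ _ hc, pow_succ, mul_assoc]
      exact mul_le_mul_right (hd w h0 h1 hw.1 hw.2) _
    · have e : ∀ p : ℝ × ℝ, ∫⁻ z, (strip u v (n + 1) w).indicator
          (fun z => H (pIter w z (n + 1))) (gcons p z) ∂(noise μ ν) = 0 := by
        intro p
        rw [← lintegral_zero (μ := noise μ ν)]
        refine lintegral_congr (fun z => ?_)
        rw [Set.indicator_of_notMem (fun h => hw ((gcons_mem_strip u v n w p z).1 h).1)]
      simp only [e, lintegral_zero]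
      exact zero_le

theorem excursion (ha0 : 0 < a) (ha1 : a < 1)
    (hμ : ∀ x, 0 ≤ x → μ (Set.Ioi x) = ENNReal.ofReal (Real.exp (-(x ^ a))))
    (hν : ν (Set.Iio 0) = 0) (hνi : Integrable (fun t : ℝ => t) ν)
    (hm : 0 < ∫ t, t ∂ν)
    (hgt : (∫ t, t ∂ν) < ∫ s, s ∂μ) (hlt : (∫ s, s ∂μ) < 2 * ∫ t, t ∂ν)
    (h2 : 2 < ((∫ s, s ∂μ) / ((∫ s, s ∂μ) - ∫ t, t ∂ν)) ^ a) {C : ℝ} (hC : 0 < C) :
    ∃ k' : ℝ, 0 < k' ∧ ∀ lam : ℝ, 1 / 2 ≤ lam → lam < 1 → ∀ ε : ℝ, 0 < ε →
      ∃ C1 x0 : ℝ, 0 ≤ C1 ∧ 0 < x0 ∧ ∀ π : Measure (ℝ × ℝ), IsStationaryKW μ ν π →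
        ∀ x, x0 ≤ x → ∀ N : ℕ,
          (π.prod (noise μ ν)) {q | (∀ k ≤ N, ε * x < (pIter q.1 q.2 k).2 ∧
            (pIter q.1 q.2 k).2 ≤ C * x) ∧ x < (pIter q.1 q.2 N).1} ≤
          ENNReal.ofReal (C1 * x ^ (1 - a) *
            Real.exp (-(2 * lam * x ^ a + k' * x ^ (a - 1) * N))) := by
  obtain ⟨b, hb0, hb1, hbm, hb2⟩ := exists_b_two ha0 hm hgt hlt h2
  obtain ⟨R, k, hR, hk, hdr⟩ := drift_uniform ha0 ha1 hμ hν hνi hgt hb0 hb1 hbm
  refine ⟨k * C ^ (a - 1), by positivity, ?_⟩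
  intro lam hl2 hl1 ε hε
  have hl0 : 0 < lam := by linarith
  obtain ⟨L, K, hL, hK, hd⟩ := hdr lam hl2 hl1
  -- choice of x0
  obtain ⟨x1, hx1, hx1'⟩ : ∃ x1 : ℝ, 0 < x1 ∧ ∀ x, x1 ≤ x → k * (C * x) ^ (a - 1) ≤ 1 := by
    have hrp : Tendsto (fun x : ℝ => k * (C * x) ^ (a - 1)) atTop (𝓝 0) := by
      have h1 := tendsto_rpow_neg_atTop (y := 1 - a) (by linarith)
      have h3 : Tendsto (fun x : ℝ => C * x) atTop atTop := tendsto_id.const_mul_atTop hC
      have h4 := (h1.comp h3).const_mul k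
      simpa using h4
    obtain ⟨x1, h⟩ := eventually_atTop.mp (hrp.eventually (ge_mem_nhds zero_lt_one))
    exact ⟨max x1 1, by positivity, fun x hx => h x ((le_max_left _ _).trans hx)⟩
  refine ⟨C ^ (1 - a) * K / k, max x1 (L / ε), by positivity, lt_max_of_lt_left hx1, ?_⟩
  intro π hπ x hx N
  have hprob : IsProbabilityMeasure π := hπ.1
  have hx0 : 0 < x := lt_of_lt_of_le (lt_max_of_lt_left hx1) hx
  have hxL : L ≤ ε * x := by
    have : L / ε ≤ x := (le_max_right _ _).trans hx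
    rw [div_le_iff₀ hε] at this
    linarith
  have hq1 := hx1' x ((le_max_left _ _).trans hx)
  set q := k * (C * x) ^ (a - 1) with hq
  have hq0 : 0 < q := by positivity
  set H : ℝ × ℝ → ℝ≥0∞ := fun w => ENNReal.ofReal (Real.exp (lam * cost a b R w)) with hH
  set g : ℝ × ℝ → ℝ≥0∞ := fun w => if L ≤ w.2 then
    ENNReal.ofReal (k * w.2 ^ (a - 1) * Real.exp (lam * cost a b R w)) else 0 with hg
  have hcm := measurable_cost a b R
  have hHm : Measurable H := by
    rw [hH]; fun_prop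
  have hgm : Measurable g := by
    rw [hg]
    apply Measurable.ite (measurableSet_le measurable_const measurable_snd)
    · fun_prop
    · exact measurable_const
  have hmain : ∫⁻ w, g w ∂π ≤ ENNReal.ofReal K := by
    refine hπ.lyapunov hHm hgm (fun w => ENNReal.ofReal_ne_top) (ENNReal.ofReal K) ?_
    intro w h0 h1
    refine (hd w h0 h1).trans ?_
    gcongr
    split_ifs
    · exact zero_le
    · exact le_rfl
  -- one step
  have hstep : ∀ w : ℝ × ℝ, 0 ≤ w.1 → w.1 ≤ w.2 → ε * x < w.2 → w.2 ≤ C * x →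
      ∫⁻ p, H (kwStep w p.1 p.2) ∂(μ.prod ν) ≤ ENNReal.ofReal (1 - q) * H w := by
    intro w h0 h1 h3 h4
    have hLw : L ≤ w.2 := by linarith
    have h5 := hd w h0 h1
    rw [if_pos hLw, if_pos hLw, add_zero] at h5
    have hw2 : 0 < w.2 := hL.trans_le hLw
    have hqw : q ≤ k * w.2 ^ (a - 1) := by
      rw [hq]
      have : (C * x) ^ (a - 1) ≤ w.2 ^ (a - 1) :=
        Real.rpow_le_rpow_of_nonpos hw2 h4 (by linarith)
      gcongr
    have h6 : ENNReal.ofReal (q * Real.exp (lam * cost a b R w)) ≤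
        ENNReal.ofReal (k * w.2 ^ (a - 1) * Real.exp (lam * cost a b R w)) := by
      apply ENNReal.ofReal_le_ofReal
      gcongr
    have h7 : ∫⁻ p, H (kwStep w p.1 p.2) ∂(μ.prod ν) +
        ENNReal.ofReal (q * Real.exp (lam * cost a b R w)) ≤
        ENNReal.ofReal ((1 - q) * Real.exp (lam * cost a b R w)) +
          ENNReal.ofReal (q * Real.exp (lam * cost a b R w)) := by
      rw [← ENNReal.ofReal_add (by have := Real.exp_pos (lam * cost a b R w); nlinarith)
        (by positivity)]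
      have e : (1 - q) * Real.exp (lam * cost a b R w) + q * Real.exp (lam * cost a b R w) =
        Real.exp (lam * cost a b R w) := by ring
      rw [e]
      exact (add_le_add le_rfl h6).trans h5
    have h8 := (ENNReal.add_le_add_iff_right ENNReal.ofReal_ne_top).1 h7
    refine h8.trans (le_of_eq ?_)
    rw [hH, ← ENNReal.ofReal_mul (by linarith)]
  have hdecay := strip_decay (μ := μ) (ν := ν) hHm hstep N
  -- the event
  have hev : MeasurableSet {q : (ℝ × ℝ) × (ℕ → ℝ × ℝ) | (∀ k ≤ N, ε * x < (pIter q.1 q.2 k).2 ∧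
            (pIter q.1 q.2 k).2 ≤ C * x) ∧ x < (pIter q.1 q.2 N).1} := by
    have e : {q : (ℝ × ℝ) × (ℕ → ℝ × ℝ) | (∀ k ≤ N, ε * x < (pIter q.1 q.2 k).2 ∧
            (pIter q.1 q.2 k).2 ≤ C * x) ∧ x < (pIter q.1 q.2 N).1} =
        (⋂ k ∈ Finset.range (N + 1), {q : (ℝ × ℝ) × (ℕ → ℝ × ℝ) | ε * x < (pIter q.1 q.2 k).2 ∧
            (pIter q.1 q.2 k).2 ≤ C * x}) ∩ {q | x < (pIter q.1 q.2 N).1} := by
      ext q
      simp
    rw [e]
    refine MeasurableSet.inter (Finset.measurableSet_biInter _ (fun k _ => ?_)) ?_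
    · have hm2 := (measurable_pIter k).snd
      exact (measurableSet_lt measurable_const hm2).inter (measurableSet_le hm2 measurable_const)
    · exact measurableSet_lt measurable_const (measurable_pIter N).fst
  rw [Measure.prod_apply hev]
  set v := Real.exp (2 * lam * x ^ a) with hv
  have hv0 : 0 < v := Real.exp_pos _
  set S : Set (ℝ × ℝ) := {w | ε * x < w.2 ∧ w.2 ≤ C * x} with hS
  have hSm : MeasurableSet S :=
    (measurableSet_lt measurable_const measurable_snd).inter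
      (measurableSet_le measurable_snd measurable_const)
  have hpoint : ∀ᵐ w ∂π, (noise μ ν) (Prod.mk w ⁻¹' {q : (ℝ × ℝ) × (ℕ → ℝ × ℝ) |
      (∀ k ≤ N, ε * x < (pIter q.1 q.2 k).2 ∧
            (pIter q.1 q.2 k).2 ≤ C * x) ∧ x < (pIter q.1 q.2 N).1}) ≤
      ENNReal.ofReal (v⁻¹ * (1 - q) ^ N * ((C * x) ^ (1 - a) / k)) * g w := by
    filter_upwards [hπ.ae_ordered] with w hw
    by_cases hwS : w ∈ S
    · have hLw : L ≤ w.2 := by linarith [hwS.1]
      have hw2 : 0 < w.2 := hL.trans_le hLw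
      have h3 : ENNReal.ofReal v * (noise μ ν) (Prod.mk w ⁻¹' {q : (ℝ × ℝ) × (ℕ → ℝ × ℝ) |
          (∀ k ≤ N, ε * x < (pIter q.1 q.2 k).2 ∧
            (pIter q.1 q.2 k).2 ≤ C * x) ∧ x < (pIter q.1 q.2 N).1}) ≤
          ENNReal.ofReal (1 - q) ^ N * H w := by
        refine le_trans ?_ (hdecay w hw.1 hw.2)
        rw [← setLIntegral_const, ← lintegral_indicator (measurable_prodMk_left hev)]
        refine lintegral_mono (fun z => ?_)
        by_cases hz : z ∈ Prod.mk w ⁻¹' {q : (ℝ × ℝ) × (ℕ → ℝ × ℝ) |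
          (∀ k ≤ N, ε * x < (pIter q.1 q.2 k).2 ∧
            (pIter q.1 q.2 k).2 ≤ C * x) ∧ x < (pIter q.1 q.2 N).1}
        · have hz' : (∀ k ≤ N, ε * x < (pIter w z k).2 ∧
            (pIter w z k).2 ≤ C * x) ∧ x < (pIter w z N).1 := hz
          have hzs : z ∈ strip (ε * x) (C * x) N w := fun k hk => hz'.1 k hk.le
          rw [Set.indicator_of_mem hz, Set.indicator_of_mem hzs, hH]
          apply ENNReal.ofReal_le_ofReal
          rw [hv]
          apply Real.exp_le_exp.mpr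
          have h9 := two_rpow_le_cost (R := R) ha0 hb0 hb2 hx0
            (pIter_ordered hw.1 hw.2 z N).2 hz'.2
          calc 2 * lam * x ^ a = lam * (2 * x ^ a) := by ring
            _ ≤ lam * cost a b R (pIter w z N) := by gcongr
        · rw [Set.indicator_of_notMem hz]
          exact zero_le
      have e : g w = ENNReal.ofReal (k * w.2 ^ (a - 1) * Real.exp (lam * cost a b R w)) := by
        rw [hg]
        simp only
        rw [if_pos hLw]
      have h4 : H w ≤ ENNReal.ofReal ((C * x) ^ (1 - a) / k) * g w := by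
        rw [e, hH, ← ENNReal.ofReal_mul (by positivity)]
        apply ENNReal.ofReal_le_ofReal
        have h5 : 1 ≤ (C * x) ^ (1 - a) * w.2 ^ (a - 1) := by
          have h6 : w.2 ^ (1 - a) ≤ (C * x) ^ (1 - a) := by
            have := hwS.2
            gcongr
          have h7 : w.2 ^ (1 - a) * w.2 ^ (a - 1) = 1 := by
            rw [← Real.rpow_add hw2]
            have : 1 - a + (a - 1) = 0 := by ring
            rw [this, Real.rpow_zero]
          calc 1 = w.2 ^ (1 - a) * w.2 ^ (a - 1) := h7.symm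
            _ ≤ _ := by gcongr
        calc Real.exp (lam * cost a b R w) = 1 * Real.exp (lam * cost a b R w) := by ring
          _ ≤ ((C * x) ^ (1 - a) * w.2 ^ (a - 1)) * Real.exp (lam * cost a b R w) := by gcongr
          _ = _ := by field_simp
      have h10 : (noise μ ν) (Prod.mk w ⁻¹' {q : (ℝ × ℝ) × (ℕ → ℝ × ℝ) |
          (∀ k ≤ N, ε * x < (pIter q.1 q.2 k).2 ∧
            (pIter q.1 q.2 k).2 ≤ C * x) ∧ x < (pIter q.1 q.2 N).1}) =
          ENNReal.ofReal v⁻¹ * (ENNReal.ofReal v * (noise μ ν) (Prod.mk w ⁻¹'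
            {q : (ℝ × ℝ) × (ℕ → ℝ × ℝ) | (∀ k ≤ N, ε * x < (pIter q.1 q.2 k).2 ∧
            (pIter q.1 q.2 k).2 ≤ C * x) ∧ x < (pIter q.1 q.2 N).1})) := by
        rw [← mul_assoc, ← ENNReal.ofReal_mul (by positivity), inv_mul_cancel₀ hv0.ne',
          ENNReal.ofReal_one, one_mul]
      rw [h10]
      calc _ ≤ ENNReal.ofReal v⁻¹ * (ENNReal.ofReal (1 - q) ^ N *
            (ENNReal.ofReal ((C * x) ^ (1 - a) / k) * g w)) :=
            mul_le_mul_right (h3.trans (mul_le_mul_right h4 _)) _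
        _ = _ := by
            have hq' : 0 ≤ 1 - q := by linarith
            rw [← ENNReal.ofReal_pow hq', ← mul_assoc, ← mul_assoc,
              ← ENNReal.ofReal_mul (by positivity), ← ENNReal.ofReal_mul (by positivity)]
    · have h3 : Prod.mk w ⁻¹' {q : (ℝ × ℝ) × (ℕ → ℝ × ℝ) |
          (∀ k ≤ N, ε * x < (pIter q.1 q.2 k).2 ∧
            (pIter q.1 q.2 k).2 ≤ C * x) ∧ x < (pIter q.1 q.2 N).1} = ∅ := by
        ext z
        simp only [Set.mem_preimage, Set.mem_ofPred_eq, Set.mem_empty_iff_false, iff_false]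
        intro hz
        exact hwS (hz.1 0 (Nat.zero_le _))
      rw [h3, measure_empty]
      exact zero_le
  refine (lintegral_mono_ae hpoint).trans ?_
  rw [lintegral_const_mul _ hgm]
  refine (mul_le_mul_right hmain _).trans ?_
  have hq' : 0 ≤ 1 - q := by linarith
  rw [← ENNReal.ofReal_mul (by positivity)]
  apply ENNReal.ofReal_le_ofReal
  have h11 : (1 - q) ^ N ≤ Real.exp (-(k * C ^ (a - 1) * x ^ (a - 1) * N)) := by
    have h12 : 1 - q ≤ Real.exp (-q) := by
      have := Real.add_one_le_exp (-q)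
      linarith
    calc (1 - q) ^ N ≤ (Real.exp (-q)) ^ N := by gcongr
      _ = Real.exp (-(k * C ^ (a - 1) * x ^ (a - 1) * N)) := by
          rw [← Real.exp_nat_mul]
          congr 1
          rw [hq, Real.mul_rpow hC.le hx0.le]
          ring
  have h13 : v⁻¹ = Real.exp (-(2 * lam * x ^ a)) := by rw [hv, Real.exp_neg]
  have h14 : (C * x) ^ (1 - a) = C ^ (1 - a) * x ^ (1 - a) := Real.mul_rpow hC.le hx0.le
  calc v⁻¹ * (1 - q) ^ N * ((C * x) ^ (1 - a) / k) * K
      ≤ v⁻¹ * Real.exp (-(k * C ^ (a - 1) * x ^ (a - 1) * N)) * ((C * x) ^ (1 - a) / k) * K := by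
        gcongr
    _ = _ := by
        rw [h13, h14, neg_add, Real.exp_add]
        ring

end Pool.Agent.Lib.MP_04add8_pr
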