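import Mathlib
import Pool.Agent.Lib.MP_04add8_pr.Two.Defs

open MeasureTheory ProbabilityTheory Filter Topology
open scoped ENNReal

set_option linter.unusedSectionVars false

namespace Pool.Agent.Lib.MP_04add8_pr

namespace Det1

/-- the larger workload grows at most by the service time -/
lemma snd_le_add {w : ℝ × ℝ} {s t : ℝ} (h0 : 0 ≤ w.1) (h1 : w.1 ≤ w.2) (hs : 0 ≤ s)
    (ht : 0 ≤ t) : (kwStep w s t).2 ≤ w.2 + s := by
  unfold kwStep
  simp only
  refine max_le (max_le ?_ ?_) (max_le ?_ ?_) <;> linarith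

/-- the smaller workload grows at most by the service time -/
lemma fst_le_add {w : ℝ × ℝ} {s t : ℝ} (h0 : 0 ≤ w.1) (hs : 0 ≤ s)
    (ht : 0 ≤ t) : (kwStep w s t).1 ≤ w.1 + s := by
  unfold kwStep
  simp only
  refine (min_le_left _ _).trans (max_le ?_ ?_) <;> linarith

lemma fst_le_snd {w : ℝ × ℝ} {s t : ℝ} (h2 : 0 ≤ w.2) (ht : 0 ≤ t) :
    (kwStep w s t).1 ≤ w.2 := by
  unfold kwStep
  simp only
  refine (min_le_right _ _).trans (max_le ?_ ?_) <;> linarith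

lemma pIter_snd_le {w : ℝ × ℝ} (h0 : 0 ≤ w.1) (h1 : w.1 ≤ w.2) {z : ℕ → ℝ × ℝ}
    (hz : ∀ k, 0 ≤ (z k).1 ∧ 0 ≤ (z k).2) {k n : ℕ} (hkn : k ≤ n) :
    (pIter w z n).2 ≤ (pIter w z k).2 + (sumS z n - sumS z k) := by
  induction n, hkn using Nat.le_induction with
  | base => linarith
  | succ n hn ih =>
    have ho := pIter_ordered h0 h1 z n
    have h := snd_le_add ho.1 ho.2 (hz n).1 (hz n).2
    rw [pIter_succ, sumS_succ]
    linarith

lemma pIter_fst_le {w : ℝ × ℝ} (h0 : 0 ≤ w.1) (h1 : w.1 ≤ w.2) {z : ℕ → ℝ × ℝ}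
    (hz : ∀ k, 0 ≤ (z k).1 ∧ 0 ≤ (z k).2) {k n : ℕ} (hkn : k ≤ n) :
    (pIter w z n).1 ≤ (pIter w z k).1 + (sumS z n - sumS z k) := by
  induction n, hkn using Nat.le_induction with
  | base => linarith
  | succ n hn ih =>
    have ho := pIter_ordered h0 h1 z n
    have h := fst_le_add ho.1 (hz n).1 (hz n).2
    rw [pIter_succ, sumS_succ]
    linarith

lemma sumS_nonneg {z : ℕ → ℝ × ℝ} (hz : ∀ k, 0 ≤ (z k).1 ∧ 0 ≤ (z k).2) (n : ℕ) :
    0 ≤ sumS z n := Finset.sum_nonneg fun i _ => (hz i).1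

lemma sumS_mono {z : ℕ → ℝ × ℝ} (hz : ∀ k, 0 ≤ (z k).1 ∧ 0 ≤ (z k).2) {k n : ℕ} (h : k ≤ n) :
    sumS z k ≤ sumS z n := by
  unfold sumS
  exact Finset.sum_le_sum_of_subset_of_nonneg (Finset.range_mono h) fun i _ _ => (hz i).1

lemma reflT_nonneg {τ r : ℝ} (hr : 0 ≤ r) (z : ℕ → ℝ × ℝ) (n : ℕ) : 0 ≤ reflT τ r z n := by
  cases n with
  | zero => exact hr
  | succ n => exact le_max_right _ _

lemma reflT_le {τ r : ℝ} (hτ : 0 ≤ τ) (hr : 0 ≤ r) {z : ℕ → ℝ × ℝ}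
    (hz : ∀ k, 0 ≤ (z k).1 ∧ 0 ≤ (z k).2) (n : ℕ) : reflT τ r z n ≤ r + sumS z n := by
  induction n with
  | zero => simp [reflT, sumS]
  | succ n ih =>
    rw [sumS_succ, reflT]
    have h1 := reflT_nonneg (τ := τ) hr z n
    have h2 := (hz n).1
    have h3 : 0 ≤ min (z n).2 τ := le_min (hz n).2 hτ
    have h4 := sumS_nonneg hz n
    refine max_le ?_ ?_ <;> linarith

/-- missing work below level `y` -/
noncomputable def D (w : ℝ × ℝ) (y : ℝ) : ℝ := max (y - w.1) 0 + max (y - w.2) 0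

lemma D_kwStep {w : ℝ × ℝ} {s t : ℝ} (h : 0 < (kwStep w s t).1) (y : ℝ) :
    D (kwStep w s t) y = max (y - (w.1 + s - t)) 0 + max (y - (w.2 - t)) 0 := by
  unfold kwStep at h
  simp only at h
  rw [lt_min_iff] at h
  obtain ⟨ha, hb⟩ := h
  have ha' : 0 < w.1 + s - t := by
    rcases lt_max_iff.1 ha with h | h
    · exact h
    · exact absurd h (lt_irrefl _)
  have hb' : 0 < w.2 - t := by
    rcases lt_max_iff.1 hb with h | h
    · exact h
    · exact absurd h (lt_irrefl _)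
  unfold D kwStep
  simp only
  rw [max_eq_left ha'.le, max_eq_left hb'.le]
  rcases le_total (w.1 + s - t) (w.2 - t) with h | h
  · rw [min_eq_left h, max_eq_right h]
  · rw [min_eq_right h, max_eq_left h, add_comm]

lemma D_step {w : ℝ × ℝ} {s t t' : ℝ} (h : 0 < (kwStep w s t).1) (hs : 0 ≤ s) (ht' : t' ≤ t)
    (y : ℝ) : D w (y + t') ≤ D (kwStep w s t) y + s := by
  rw [D_kwStep h]
  unfold D
  have h1 : max (y + t' - w.1) 0 ≤ max (y - (w.1 + s - t)) 0 + s := by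
    refine max_le ?_ ?_
    · have := le_max_left (y - (w.1 + s - t)) 0
      linarith
    · have := le_max_right (y - (w.1 + s - t)) 0
      linarith
  have h2 : max (y + t' - w.2) 0 ≤ max (y - (w.2 - t)) 0 := by
    refine max_le_max ?_ le_rfl
    linarith
  linarith

lemma D_step' {w : ℝ × ℝ} {s t : ℝ} (h : 0 < (kwStep w s t).1) (ht : 0 ≤ t)
    (y : ℝ) : max (y - w.1 - s) 0 + max (y - w.2) 0 ≤ D (kwStep w s t) y := by
  rw [D_kwStep h]
  refine add_le_add (max_le_max ?_ le_rfl) (max_le_max ?_ le_rfl) <;> linarith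

lemma D_iter {w : ℝ × ℝ} {τ : ℝ} {z : ℕ → ℝ × ℝ} (hz : ∀ k, 0 ≤ (z k).1 ∧ 0 ≤ (z k).2)
    (m : ℕ) (hpos : ∀ k ≤ m, 0 < (pIter w z k).1) (y : ℝ) :
    D w (y + sumT τ z m) ≤ D (pIter w z m) y + sumS z m := by
  induction m generalizing y with
  | zero => simp [sumT, sumS, pIter_zero]
  | succ m ih =>
    have h1 := ih (fun k hk => hpos k (by omega)) (y + min (z m).2 τ)
    have h2 : D (pIter w z m) (y + min (z m).2 τ) ≤ D (pIter w z (m + 1)) y + (z m).1 := by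
      have hp := hpos (m + 1) le_rfl
      rw [pIter_succ] at hp ⊢
      exact D_step hp (hz m).1 (min_le_left _ _) y
    rw [sumT_succ, sumS_succ]
    have e : y + (sumT τ z m + min (z m).2 τ) = y + min (z m).2 τ + sumT τ z m := by ring
    rw [e]
    linarith

end Det1

open Det1

/-- D1 -/
theorem det_main {x ε τ : ℝ} (hx : 0 < x) (hε0 : 0 < ε) (hε : ε ≤ 1 / 8) {w : ℝ × ℝ}
    (h0 : 0 ≤ w.1) (h1 : w.1 ≤ w.2) (h2 : w.2 ≤ 2 * ε * x) {p1 p2 : ℝ × ℝ}
    (hp1 : 0 ≤ p1.1 ∧ 0 ≤ p1.2) (hp2 : 0 ≤ p2.1 ∧ 0 ≤ p2.2) {z1 z2 : ℕ → ℝ × ℝ}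
    (hz1 : ∀ k, 0 ≤ (z1 k).1 ∧ 0 ≤ (z1 k).2) (hz2 : ∀ k, 0 ≤ (z2 k).1 ∧ 0 ≤ (z2 k).2)
    (n1 n2 : ℕ) (hU1 : sumS z1 n1 ≤ ε * x) (hU2 : sumS z2 n2 ≤ ε * x)
    (hτ : 0 ≤ τ)
    (hW : x < (pIter (kwStep (pIter (kwStep w p1.1 p1.2) z1 n1) p2.1 p2.2) z2 n2).1) :
    max (x + sumT τ z2 n2 + sumT τ z1 n1 - w.1 - p1.1) 0 +
      max (x + sumT τ z2 n2 - reflT τ w.2 z1 n1 - p2.1) 0 ≤ sumS z2 n2 := by
  have hw2 : 0 ≤ w.2 := h0.trans h1
  have hεx : 0 < ε * x := mul_pos hε0 hx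
  have hεx8 : ε * x ≤ x / 8 := by nlinarith
  set W0 := kwStep w p1.1 p1.2 with hW0
  have hW00 : 0 ≤ W0.1 := kwStep_fst_nonneg _ _ _
  have hW01 : W0.1 ≤ W0.2 := kwStep_fst_le_snd _ _ _
  set W2 := pIter W0 z1 n1 with hW2
  have hW2o := pIter_ordered hW00 hW01 z1 n1
  set W3 := kwStep W2 p2.1 p2.2 with hW3
  have hW30 : 0 ≤ W3.1 := kwStep_fst_nonneg _ _ _
  have hW31 : W3.1 ≤ W3.2 := kwStep_fst_le_snd _ _ _
  -- first coordinates of the last phase are positive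
  have hB : ∀ k ≤ n2, x - ε * x < (pIter W3 z2 k).1 := by
    intro k hk
    have e1 := pIter_fst_le hW30 hW31 hz2 hk
    have e2 := sumS_nonneg hz2 k
    linarith
  have hBpos : ∀ k ≤ n2, 0 < (pIter W3 z2 k).1 := by
    intro k hk
    have := hB k hk
    linarith
  have hW3pos : 0 < W3.1 := hBpos 0 (Nat.zero_le _)
  have hW3big : x - ε * x < W3.1 := hB 0 (Nat.zero_le _)
  -- the missing work
  have hD1 := D_iter (τ := τ) hz2 n2 hBpos x
  have hend : D (pIter W3 z2 n2) x = 0 := by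
    have ho := pIter_ordered hW30 hW31 z2 n2
    unfold D
    rw [max_eq_right (by linarith), max_eq_right (by linarith)]
    ring
  rw [hend, zero_add] at hD1
  have hD2 := D_step' (w := W2) (s := p2.1) (t := p2.2) hW3pos hp2.2 (x + sumT τ z2 n2)
  -- second coordinates of the first phase
  have hW22 : x - ε * x < W2.2 := by
    have e1 : W3.1 ≤ W2.2 := fst_le_snd (hW2o.1.trans hW2o.2) hp2.2
    linarith
  have hA2 : ∀ k ≤ n1, x - 2 * (ε * x) < (pIter W0 z1 k).2 := by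
    intro k hk
    have e1 := pIter_snd_le hW00 hW01 hz1 hk
    have e2 := sumS_nonneg hz1 k
    rw [← hW2] at e1
    linarith
  have hr : ∀ k ≤ n1, reflT τ w.2 z1 k ≤ 3 * (ε * x) := by
    intro k hk
    have e1 := reflT_le (τ := τ) hτ hw2 hz1 k
    have e2 := sumS_mono hz1 hk
    linarith
  have hgt : ∀ k ≤ n1, reflT τ w.2 z1 k < (pIter W0 z1 k).2 := by
    intro k hk
    have e1 := hA2 k hk
    have e2 := hr k hk
    linarith
  have hle1 : ∀ k, (pIter W0 z1 k).1 ≤ reflT τ w.2 z1 k := by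
    intro k
    induction k with
    | zero => exact fst_le_snd hw2 hp1.2
    | succ k ih =>
      rw [pIter_succ, reflT]
      unfold kwStep
      simp only
      refine (min_le_left _ _).trans (max_le_max ?_ le_rfl)
      have := min_le_left (z1 k).2 τ
      linarith
  have hle2 : ∀ k ≤ n1, (pIter W0 z1 k).2 ≤ w.1 + p1.1 - sumT τ z1 k := by
    intro k
    induction k with
    | zero =>
      intro hk
      have e1 := hgt 0 hk
      change w.2 < W0.2 at e1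
      change W0.2 ≤ w.1 + p1.1 - sumT τ z1 0
      rw [hW0] at e1 ⊢
      unfold kwStep at e1 ⊢
      simp only at e1 ⊢
      have e2 : sumT τ z1 0 = 0 := by simp [sumT]
      rw [e2, sub_zero]
      have e3 : max (w.2 - p1.2) 0 ≤ w.2 := max_le (by linarith [hp1.2]) hw2
      rcases lt_max_iff.1 e1 with h | h
      · rw [max_eq_left (e3.trans h.le)]
        refine max_le ?_ ?_
        · linarith [hp1.2]
        · linarith [hp1.1]
      · exact absurd h (not_lt.2 e3)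
    | succ k ih =>
      intro hk
      have e1 := hgt (k + 1) hk
      have e2 := ih (by omega)
      have e3 := hle1 k
      rw [pIter_succ, reflT] at e1
      rw [pIter_succ, sumT_succ]
      unfold kwStep at e1 ⊢
      simp only at e1 ⊢
      have e4 := min_le_left (z1 k).2 τ
      have e5 : max ((pIter W0 z1 k).1 + (z1 k).1 - (z1 k).2) 0 ≤
          max (reflT τ w.2 z1 k + (z1 k).1 - min (z1 k).2 τ) 0 :=
        max_le_max (by linarith) le_rfl
      rcases lt_max_iff.1 e1 with h | h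
      · exact absurd h (not_lt.2 e5)
      · rw [max_eq_right (e5.trans h.le)]
        have e6 : 0 ≤ max (reflT τ w.2 z1 k + (z1 k).1 - min (z1 k).2 τ) 0 := le_max_right _ _
        rcases lt_max_iff.1 h with h' | h'
        · rw [max_eq_left (e6.trans h'.le)]
          linarith
        · exact absurd h' (not_lt.2 e6)
  have f1 := hle1 n1
  have f2 := hle2 n1 le_rfl
  rw [← hW2] at f1 f2
  have g1 : max (x + sumT τ z2 n2 - reflT τ w.2 z1 n1 - p2.1) 0 ≤
      max (x + sumT τ z2 n2 - W2.1 - p2.1) 0 := max_le_max (by linarith) le_rfl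
  have g2 : max (x + sumT τ z2 n2 + sumT τ z1 n1 - w.1 - p1.1) 0 ≤
      max (x + sumT τ z2 n2 - W2.2) 0 := max_le_max (by linarith) le_rfl
  linarith

end Pool.Agent.Lib.MP_04add8_pr
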