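import Mathlib
import Pool.Agent.Lib.MP_04add8_pr.Weibull
import Pool.Agent.Lib.MP_04add8_pr.Two.Defs

/-!
Module TwoTail: two big jobs: upper and lower bounds for the probability that the total
shortfall of two independent Weibull jobs below two large levels is at most `u`.
-/

open MeasureTheory ProbabilityTheory Filter Topology
open scoped ENNReal

set_option linter.unusedSectionVars false

namespace Pool.Agent.Lib.MP_04add8_pr

lemma tt_integral {θ t : ℝ} (ht : 0 ≤ t) (hθ : 0 ≤ θ) :
    ∫⁻ r in Set.Ioc 0 t, ENNReal.ofReal (θ * Real.exp (θ * r)) =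
      ENNReal.ofReal (Real.exp (θ * t) - 1) := by
  have hd : ∀ r ∈ Set.uIcc 0 t, HasDerivAt (fun r : ℝ => Real.exp (θ * r))
      (θ * Real.exp (θ * r)) r := by
    intro r _
    have h1 : HasDerivAt (fun r : ℝ => θ * r) θ r := by
      simpa using (hasDerivAt_id r).const_mul θ
    have h2 := h1.exp
    rwa [mul_comm] at h2
  have hc : Continuous (fun r : ℝ => θ * Real.exp (θ * r)) := by fun_prop
  have hint := intervalIntegral.integral_eq_sub_of_hasDerivAt hd (hc.intervalIntegrable 0 t)
  rw [intervalIntegral.integral_of_le ht] at hint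
  rw [← ofReal_integral_eq_lintegral_ofReal, hint]
  · simp
  · exact (hc.integrableOn_Icc (a := 0) (b := t)).mono_set Set.Ioc_subset_Icc_self
  · exact Filter.Eventually.of_forall fun r => mul_nonneg hθ (Real.exp_pos _).le

section tt

variable {a : ℝ} {μ : Measure ℝ} [IsProbabilityMeasure μ]

lemma tt_core_upper {V : ℝ → ℝ} (hV : Measurable V) (hV0 : ∀ y, 0 ≤ V y) {F θ u : ℝ}
    (hF : 0 ≤ F) (hθ : 0 ≤ θ) (hu : 0 ≤ u)
    (h : ∀ v, 0 ≤ v → v ≤ u → μ {y | V y ≤ v} ≤ ENNReal.ofReal (F * Real.exp (θ * v))) :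
    ∫⁻ y, ({y | V y ≤ u} : Set ℝ).indicator
      (fun y => ENNReal.ofReal (Real.exp (θ * (u - V y)))) y ∂μ ≤
      ENNReal.ofReal (F * ((1 + θ * u) * Real.exp (θ * u))) := by
  have hms : MeasurableSet {y | V y ≤ u} := measurableSet_le hV measurable_const
  have hpt : ∀ y, ({y | V y ≤ u} : Set ℝ).indicator
      (fun y => ENNReal.ofReal (Real.exp (θ * (u - V y)))) y =
      ({y | V y ≤ u} : Set ℝ).indicator 1 y +
        ∫⁻ r in Set.Ioc 0 u, ENNReal.ofReal (θ * Real.exp (θ * r)) *
          ({p : ℝ × ℝ | V p.1 ≤ u - p.2} : Set (ℝ × ℝ)).indicator 1 (y, r) := by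
    intro y
    by_cases hy : V y ≤ u
    · rw [Set.indicator_of_mem (by exact hy), Set.indicator_of_mem (by exact hy)]
      have e1 : ∀ r : ℝ, ENNReal.ofReal (θ * Real.exp (θ * r)) *
          ({p : ℝ × ℝ | V p.1 ≤ u - p.2} : Set (ℝ × ℝ)).indicator 1 (y, r) =
          (Set.Iic (u - V y)).indicator (fun r => ENNReal.ofReal (θ * Real.exp (θ * r))) r := by
        intro r
        by_cases hr : r ≤ u - V y
        · rw [Set.indicator_of_mem (by exact (by linarith : V y ≤ u - r)),
            Set.indicator_of_mem (by exact hr)]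
          simp
        · rw [Set.indicator_of_notMem (by exact fun h' : V y ≤ u - r => hr (by linarith)),
            Set.indicator_of_notMem (by exact hr), mul_zero]
      have e2 : Set.Iic (u - V y) ∩ Set.Ioc 0 u = Set.Ioc 0 (u - V y) := by
        ext r
        simp only [Set.mem_inter_iff, Set.mem_Iic, Set.mem_Ioc]
        have := hV0 y
        constructor
        · rintro ⟨b1, b2, b3⟩; exact ⟨b2, b1⟩
        · rintro ⟨b1, b2⟩; exact ⟨b2, b1, by linarith⟩
      simp_rw [e1]
      rw [lintegral_indicator measurableSet_Iic, Measure.restrict_restrict measurableSet_Iic, e2,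
        tt_integral (by linarith) hθ]
      have h1 : (0 : ℝ) ≤ Real.exp (θ * (u - V y)) - 1 := by
        have := Real.add_one_le_exp (θ * (u - V y))
        have : 0 ≤ θ * (u - V y) := mul_nonneg hθ (by linarith)
        linarith
      rw [Pi.one_apply, ← ENNReal.ofReal_one, ← ENNReal.ofReal_add zero_le_one h1]
      congr 1
      ring
    · rw [Set.indicator_of_notMem (by exact hy), Set.indicator_of_notMem (by exact hy)]
      symm
      rw [zero_add, ← lintegral_zero (μ := volume.restrict (Set.Ioc 0 u))]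
      apply setLIntegral_congr_fun measurableSet_Ioc
      intro r hr
      simp only
      rw [Set.indicator_of_notMem (by exact fun h' : V y ≤ u - r => hy (by linarith [hr.1])),
        mul_zero]
  simp_rw [hpt]
  have hm2 : Measurable (fun p : ℝ × ℝ => ENNReal.ofReal (θ * Real.exp (θ * p.2)) *
      ({p : ℝ × ℝ | V p.1 ≤ u - p.2} : Set (ℝ × ℝ)).indicator (1 : ℝ × ℝ → ℝ≥0∞) p) := by
    apply Measurable.mul
    · fun_prop
    · apply measurable_one.indicator
      exact measurableSet_le (hV.comp measurable_fst) (measurable_const.sub measurable_snd)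
  rw [lintegral_add_left (measurable_one.indicator hms), lintegral_indicator_one hms,
    lintegral_lintegral_swap (f := fun y r => ENNReal.ofReal (θ * Real.exp (θ * r)) *
      ({p : ℝ × ℝ | V p.1 ≤ u - p.2} : Set (ℝ × ℝ)).indicator 1 (y, r)) hm2.aemeasurable]
  have h3 : ∫⁻ r in Set.Ioc 0 u, ∫⁻ y, ENNReal.ofReal (θ * Real.exp (θ * r)) *
      ({p : ℝ × ℝ | V p.1 ≤ u - p.2} : Set (ℝ × ℝ)).indicator 1 (y, r) ∂μ ≤
      ∫⁻ r in Set.Ioc 0 u, ENNReal.ofReal (θ * F * Real.exp (θ * u)) := by
    apply setLIntegral_mono' measurableSet_Ioc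
    intro r hr
    have hm3 : MeasurableSet {y | V y ≤ u - r} := measurableSet_le hV measurable_const
    have e3 : ∀ y, ENNReal.ofReal (θ * Real.exp (θ * r)) *
        ({p : ℝ × ℝ | V p.1 ≤ u - p.2} : Set (ℝ × ℝ)).indicator 1 (y, r) =
        ENNReal.ofReal (θ * Real.exp (θ * r)) *
          ({y | V y ≤ u - r} : Set ℝ).indicator 1 y := fun y => rfl
    simp_rw [e3]
    rw [lintegral_const_mul _ (measurable_one.indicator hm3), lintegral_indicator_one hm3]
    calc ENNReal.ofReal (θ * Real.exp (θ * r)) * μ {y | V y ≤ u - r}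
        ≤ ENNReal.ofReal (θ * Real.exp (θ * r)) *
          ENNReal.ofReal (F * Real.exp (θ * (u - r))) := by
          gcongr
          exact h _ (by linarith [hr.2]) (by linarith [hr.1])
      _ = ENNReal.ofReal (θ * F * Real.exp (θ * u)) := by
          rw [← ENNReal.ofReal_mul (mul_nonneg hθ (Real.exp_pos _).le)]
          congr 1
          have : θ * u = θ * r + θ * (u - r) := by ring
          rw [this, Real.exp_add]
          ring
  calc μ {y | V y ≤ u} + ∫⁻ r in Set.Ioc 0 u, ∫⁻ y, ENNReal.ofReal (θ * Real.exp (θ * r)) *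
      ({p : ℝ × ℝ | V p.1 ≤ u - p.2} : Set (ℝ × ℝ)).indicator 1 (y, r) ∂μ
      ≤ ENNReal.ofReal (F * Real.exp (θ * u)) +
        ∫⁻ r in Set.Ioc 0 u, ENNReal.ofReal (θ * F * Real.exp (θ * u)) :=
        add_le_add (h u hu le_rfl) h3
    _ = ENNReal.ofReal (F * ((1 + θ * u) * Real.exp (θ * u))) := by
        have hE := (Real.exp_pos (θ * u)).le
        rw [setLIntegral_const, Real.volume_Ioc, sub_zero,
          ← ENNReal.ofReal_mul (by positivity), ← ENNReal.ofReal_add (by positivity)
            (by positivity)]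
        congr 1
        ring

lemma tt_core_lower {V : ℝ → ℝ} (hV : Measurable V) (hV0 : ∀ y, 0 ≤ V y) {F θ u : ℝ}
    (hF : 0 ≤ F) (hθ : 0 ≤ θ) (hu : 0 < u)
    (h : ∀ v, 0 < v → v ≤ u → ENNReal.ofReal (F * Real.exp (θ * v)) ≤ μ {y | V y < v}) :
    ENNReal.ofReal (F * ((1 + θ * u) * Real.exp (θ * u))) ≤
      ∫⁻ y, ({y | V y < u} : Set ℝ).indicator
        (fun y => ENNReal.ofReal (Real.exp (θ * (u - V y)))) y ∂μ := by
  have hms : MeasurableSet {y | V y < u} := measurableSet_lt hV measurable_const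
  have hpt : ∀ y, ({y | V y < u} : Set ℝ).indicator
      (fun y => ENNReal.ofReal (Real.exp (θ * (u - V y)))) y =
      ({y | V y < u} : Set ℝ).indicator 1 y +
        ∫⁻ r in Set.Ioo 0 u, ENNReal.ofReal (θ * Real.exp (θ * r)) *
          ({p : ℝ × ℝ | V p.1 < u - p.2} : Set (ℝ × ℝ)).indicator 1 (y, r) := by
    intro y
    by_cases hy : V y < u
    · rw [Set.indicator_of_mem (by exact hy), Set.indicator_of_mem (by exact hy)]
      have e1 : ∀ r : ℝ, ENNReal.ofReal (θ * Real.exp (θ * r)) *
          ({p : ℝ × ℝ | V p.1 < u - p.2} : Set (ℝ × ℝ)).indicator 1 (y, r) =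
          (Set.Iio (u - V y)).indicator (fun r => ENNReal.ofReal (θ * Real.exp (θ * r))) r := by
        intro r
        by_cases hr : r < u - V y
        · rw [Set.indicator_of_mem (by exact (by linarith : V y < u - r)),
            Set.indicator_of_mem (by exact hr)]
          simp
        · rw [Set.indicator_of_notMem (by exact fun h' : V y < u - r => hr (by linarith)),
            Set.indicator_of_notMem (by exact hr), mul_zero]
      have e2 : Set.Iio (u - V y) ∩ Set.Ioo 0 u = Set.Ioo 0 (u - V y) := by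
        ext r
        simp only [Set.mem_inter_iff, Set.mem_Iio, Set.mem_Ioo]
        have := hV0 y
        constructor
        · rintro ⟨b1, b2, b3⟩; exact ⟨b2, b1⟩
        · rintro ⟨b1, b2⟩; exact ⟨b2, b1, by linarith⟩
      simp_rw [e1]
      rw [lintegral_indicator measurableSet_Iio, Measure.restrict_restrict measurableSet_Iio, e2,
        setLIntegral_congr Ioo_ae_eq_Ioc, tt_integral (by linarith) hθ]
      have h1 : (0 : ℝ) ≤ Real.exp (θ * (u - V y)) - 1 := by
        have := Real.add_one_le_exp (θ * (u - V y))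
        have : 0 ≤ θ * (u - V y) := mul_nonneg hθ (by linarith)
        linarith
      rw [Pi.one_apply, ← ENNReal.ofReal_one, ← ENNReal.ofReal_add zero_le_one h1]
      congr 1
      ring
    · rw [Set.indicator_of_notMem (by exact hy), Set.indicator_of_notMem (by exact hy)]
      symm
      rw [zero_add, ← lintegral_zero (μ := volume.restrict (Set.Ioo 0 u))]
      apply setLIntegral_congr_fun measurableSet_Ioo
      intro r hr
      simp only
      rw [Set.indicator_of_notMem (by exact fun h' : V y < u - r => hy (by linarith [hr.1])),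
        mul_zero]
  simp_rw [hpt]
  have hm2 : Measurable (fun p : ℝ × ℝ => ENNReal.ofReal (θ * Real.exp (θ * p.2)) *
      ({p : ℝ × ℝ | V p.1 < u - p.2} : Set (ℝ × ℝ)).indicator (1 : ℝ × ℝ → ℝ≥0∞) p) := by
    apply Measurable.mul
    · fun_prop
    · apply measurable_one.indicator
      exact measurableSet_lt (hV.comp measurable_fst) (measurable_const.sub measurable_snd)
  rw [lintegral_add_left (measurable_one.indicator hms), lintegral_indicator_one hms,
    lintegral_lintegral_swap (f := fun y r => ENNReal.ofReal (θ * Real.exp (θ * r)) *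
      ({p : ℝ × ℝ | V p.1 < u - p.2} : Set (ℝ × ℝ)).indicator 1 (y, r)) hm2.aemeasurable]
  have h3 : ∫⁻ r in Set.Ioo 0 u, ENNReal.ofReal (θ * F * Real.exp (θ * u)) ≤
      ∫⁻ r in Set.Ioo 0 u, ∫⁻ y, ENNReal.ofReal (θ * Real.exp (θ * r)) *
      ({p : ℝ × ℝ | V p.1 < u - p.2} : Set (ℝ × ℝ)).indicator 1 (y, r) ∂μ := by
    apply setLIntegral_mono' measurableSet_Ioo
    intro r hr
    have hm3 : MeasurableSet {y | V y < u - r} := measurableSet_lt hV measurable_const
    have e3 : ∀ y, ENNReal.ofReal (θ * Real.exp (θ * r)) *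
        ({p : ℝ × ℝ | V p.1 < u - p.2} : Set (ℝ × ℝ)).indicator 1 (y, r) =
        ENNReal.ofReal (θ * Real.exp (θ * r)) *
          ({y | V y < u - r} : Set ℝ).indicator 1 y := fun y => rfl
    simp_rw [e3]
    rw [lintegral_const_mul _ (measurable_one.indicator hm3), lintegral_indicator_one hm3]
    calc ENNReal.ofReal (θ * F * Real.exp (θ * u))
        = ENNReal.ofReal (θ * Real.exp (θ * r)) *
          ENNReal.ofReal (F * Real.exp (θ * (u - r))) := by
          rw [← ENNReal.ofReal_mul (mul_nonneg hθ (Real.exp_pos _).le)]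
          congr 1
          have : θ * u = θ * r + θ * (u - r) := by ring
          rw [this, Real.exp_add]
          ring
      _ ≤ ENNReal.ofReal (θ * Real.exp (θ * r)) * μ {y | V y < u - r} := by
          gcongr
          exact h _ (by linarith [hr.2]) (by linarith [hr.1])
  calc ENNReal.ofReal (F * ((1 + θ * u) * Real.exp (θ * u)))
      = ENNReal.ofReal (F * Real.exp (θ * u)) +
        ∫⁻ r in Set.Ioo 0 u, ENNReal.ofReal (θ * F * Real.exp (θ * u)) := by
        have hE := (Real.exp_pos (θ * u)).le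
        rw [setLIntegral_const, Real.volume_Ioo, sub_zero,
          ← ENNReal.ofReal_mul (by positivity), ← ENNReal.ofReal_add (by positivity)
            (by positivity)]
        congr 1
        ring
    _ ≤ _ := add_le_add (h u hu le_rfl) h3

lemma tt_Ici (ha0 : 0 < a)
    (hμ : ∀ x, 0 ≤ x → μ (Set.Ioi x) = ENNReal.ofReal (Real.exp (-(x ^ a)))) {c : ℝ}
    (hc : 0 < c) : μ (Set.Ici c) ≤ ENNReal.ofReal (Real.exp (-(c ^ a))) := by
  have hcont : ContinuousAt (fun c' : ℝ => ENNReal.ofReal (Real.exp (-(c' ^ a)))) c := by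
    apply ENNReal.continuous_ofReal.continuousAt.comp
    apply Real.continuous_exp.continuousAt.comp
    exact (Real.continuousAt_rpow_const c a (Or.inr ha0.le)).neg
  have ht : Tendsto (fun c' : ℝ => ENNReal.ofReal (Real.exp (-(c' ^ a)))) (𝓝[<] c)
      (𝓝 (ENNReal.ofReal (Real.exp (-(c ^ a))))) := hcont.tendsto.mono_left nhdsWithin_le_nhds
  apply ge_of_tendsto ht
  filter_upwards [Ioo_mem_nhdsLT hc] with c' hc'
  rw [← hμ c' hc'.1.le]
  exact measure_mono (Set.Ici_subset_Ioi.2 hc'.2)

lemma tt_one_upper (ha0 : 0 < a) (ha1 : a < 1)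
    (hμ : ∀ x, 0 ≤ x → μ (Set.Ioi x) = ENNReal.ofReal (Real.exp (-(x ^ a))))
    {X u Y : ℝ} (hY : 0 < Y) (h1 : Y + u ≤ X) (v : ℝ) (hv : 0 ≤ v) (hvu : v ≤ u) :
    μ {y | max (X - y) 0 ≤ v} ≤
      ENNReal.ofReal (Real.exp (-(X ^ a)) * Real.exp (a * Y ^ (a - 1) * v)) := by
  have hs : {y : ℝ | max (X - y) 0 ≤ v} = Set.Ici (X - v) := by
    ext y
    simp only [Set.mem_ofPred_eq, Set.mem_Ici, max_le_iff]
    constructor
    · rintro ⟨b1, _⟩; linarith
    · intro b; exact ⟨by linarith, hv⟩
  have hYX : Y ≤ X - v := by linarith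
  have hXv : 0 < X - v := by linarith
  rw [hs]
  refine (tt_Ici ha0 hμ hXv).trans (ENNReal.ofReal_le_ofReal ?_)
  rw [← Real.exp_add]
  apply Real.exp_le_exp.2
  have h2 := rpow_add_le_tangent (y := v) ha0 ha1 hXv (by linarith)
  have h3 : (X - v) ^ (a - 1) ≤ Y ^ (a - 1) :=
    Real.rpow_le_rpow_of_nonpos hY hYX (by linarith)
  have h4 : a * (X - v) ^ (a - 1) * v ≤ a * Y ^ (a - 1) * v := by gcongr
  rw [sub_add_cancel] at h2
  linarith

lemma tt_one_lower (ha0 : 0 < a) (ha1 : a < 1)
    (hμ : ∀ x, 0 ≤ x → μ (Set.Ioi x) = ENNReal.ofReal (Real.exp (-(x ^ a))))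
    {X u Z : ℝ} (h1 : u < X) (hZ : X ≤ Z) (v : ℝ) (hv : 0 < v) (hvu : v ≤ u) :
    ENNReal.ofReal (Real.exp (-(X ^ a)) * Real.exp (a * Z ^ (a - 1) * v)) ≤
      μ {y | max (X - y) 0 < v} := by
  have hs : {y : ℝ | max (X - y) 0 < v} = Set.Ioi (X - v) := by
    ext y
    simp only [Set.mem_ofPred_eq, Set.mem_Ioi, max_lt_iff]
    constructor
    · rintro ⟨b1, _⟩; linarith
    · intro b; exact ⟨by linarith, hv⟩
  have hX : 0 < X := by linarith
  rw [hs, hμ _ (by linarith)]
  apply ENNReal.ofReal_le_ofReal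
  rw [← Real.exp_add]
  apply Real.exp_le_exp.2
  have h2 := rpow_add_le_tangent (y := -v) ha0 ha1 hX (by linarith)
  have h3 : Z ^ (a - 1) ≤ X ^ (a - 1) := Real.rpow_le_rpow_of_nonpos hX hZ (by linarith)
  have h4 : a * Z ^ (a - 1) * v ≤ a * X ^ (a - 1) * v := by gcongr
  rw [← sub_eq_add_neg] at h2
  linarith

theorem twoTail_upper (ha0 : 0 < a) (ha1 : a < 1)
    (hμ : ∀ x, 0 ≤ x → μ (Set.Ioi x) = ENNReal.ofReal (Real.exp (-(x ^ a))))
    {X1 X2 u Y : ℝ} (hY : 0 < Y) (h1 : Y + u ≤ X1) (h2 : Y + u ≤ X2) (hu : 0 ≤ u) :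
    (μ.prod μ) {p : ℝ × ℝ | max (X1 - p.1) 0 + max (X2 - p.2) 0 ≤ u} ≤
      ENNReal.ofReal (Real.exp (-(X1 ^ a)) * Real.exp (-(X2 ^ a)) *
        ((1 + a * Y ^ (a - 1) * u) * Real.exp (a * Y ^ (a - 1) * u))) := by
  have hθ : 0 ≤ a * Y ^ (a - 1) := mul_nonneg ha0.le (Real.rpow_nonneg hY.le _)
  have hmS : MeasurableSet {p : ℝ × ℝ | max (X1 - p.1) 0 + max (X2 - p.2) 0 ≤ u} := by
    apply measurableSet_le _ measurable_const
    fun_prop
  rw [Measure.prod_apply hmS]
  have hV : Measurable (fun y : ℝ => max (X1 - y) 0) := by fun_prop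
  have hc := tt_core_upper (μ := μ) hV (fun y => le_max_right _ _) (Real.exp_pos _).le hθ hu
    (tt_one_upper ha0 ha1 hμ hY h1)
  calc ∫⁻ y, μ (Prod.mk y ⁻¹' {p : ℝ × ℝ | max (X1 - p.1) 0 + max (X2 - p.2) 0 ≤ u}) ∂μ
      ≤ ∫⁻ y, ENNReal.ofReal (Real.exp (-(X2 ^ a))) *
        ({y | max (X1 - y) 0 ≤ u} : Set ℝ).indicator
        (fun y => ENNReal.ofReal (Real.exp (a * Y ^ (a - 1) * (u - max (X1 - y) 0)))) y ∂μ := by
        apply lintegral_mono
        intro y
        by_cases hy : max (X1 - y) 0 ≤ u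
        · simp only
          rw [Set.indicator_of_mem (by exact hy)]
          have e : Prod.mk y ⁻¹' {p : ℝ × ℝ | max (X1 - p.1) 0 + max (X2 - p.2) 0 ≤ u} =
              {y' | max (X2 - y') 0 ≤ u - max (X1 - y) 0} := by
            ext y'
            simp only [Set.mem_preimage, Set.mem_ofPred_eq]
            constructor
            · intro b; linarith
            · intro b; linarith
          rw [e, ← ENNReal.ofReal_mul (Real.exp_pos _).le]
          exact tt_one_upper ha0 ha1 hμ hY h2 _ (by linarith)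
            (by linarith [le_max_right (X1 - y) 0])
        · have e : Prod.mk y ⁻¹' {p : ℝ × ℝ | max (X1 - p.1) 0 + max (X2 - p.2) 0 ≤ u} = ∅ := by
            ext y'
            simp only [Set.mem_preimage, Set.mem_ofPred_eq, Set.mem_empty_iff_false, iff_false]
            intro b
            exact hy (by linarith [le_max_right (X2 - y') 0])
          simp only
          rw [e, measure_empty]
          exact zero_le
    _ = ENNReal.ofReal (Real.exp (-(X2 ^ a))) * ∫⁻ y,
        ({y | max (X1 - y) 0 ≤ u} : Set ℝ).indicator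
        (fun y => ENNReal.ofReal (Real.exp (a * Y ^ (a - 1) * (u - max (X1 - y) 0)))) y ∂μ := by
        apply lintegral_const_mul
        apply Measurable.indicator _ (measurableSet_le hV measurable_const)
        fun_prop
    _ ≤ ENNReal.ofReal (Real.exp (-(X2 ^ a))) *
        ENNReal.ofReal (Real.exp (-(X1 ^ a)) *
          ((1 + a * Y ^ (a - 1) * u) * Real.exp (a * Y ^ (a - 1) * u))) := by gcongr
    _ = _ := by
        rw [← ENNReal.ofReal_mul (Real.exp_pos _).le]
        congr 1
        ring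

theorem twoTail_lower (ha0 : 0 < a) (ha1 : a < 1)
    (hμ : ∀ x, 0 ≤ x → μ (Set.Ioi x) = ENNReal.ofReal (Real.exp (-(x ^ a))))
    {X1 X2 u Z : ℝ} (hu : 0 < u) (h1 : u < X1) (h2 : u < X2) (h1' : X1 ≤ Z) (h2' : X2 ≤ Z) :
    ENNReal.ofReal (Real.exp (-(X1 ^ a)) * Real.exp (-(X2 ^ a)) *
        ((1 + a * Z ^ (a - 1) * u) * Real.exp (a * Z ^ (a - 1) * u))) ≤
      (μ.prod μ) {p : ℝ × ℝ | max (X1 - p.1) 0 + max (X2 - p.2) 0 < u} := by
  have hZ : 0 < Z := by linarith
  have hθ : 0 ≤ a * Z ^ (a - 1) := mul_nonneg ha0.le (Real.rpow_nonneg hZ.le _)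
  have hmS : MeasurableSet {p : ℝ × ℝ | max (X1 - p.1) 0 + max (X2 - p.2) 0 < u} := by
    apply measurableSet_lt _ measurable_const
    fun_prop
  rw [Measure.prod_apply hmS]
  have hV : Measurable (fun y : ℝ => max (X1 - y) 0) := by fun_prop
  have hc := tt_core_lower (μ := μ) hV (fun y => le_max_right _ _) (Real.exp_pos _).le hθ hu
    (tt_one_lower ha0 ha1 hμ h1 h1')
  calc _ = ENNReal.ofReal (Real.exp (-(X2 ^ a))) *
        ENNReal.ofReal (Real.exp (-(X1 ^ a)) *
          ((1 + a * Z ^ (a - 1) * u) * Real.exp (a * Z ^ (a - 1) * u))) := by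
        rw [← ENNReal.ofReal_mul (Real.exp_pos _).le]
        congr 1
        ring
    _ ≤ ENNReal.ofReal (Real.exp (-(X2 ^ a))) * ∫⁻ y,
        ({y | max (X1 - y) 0 < u} : Set ℝ).indicator
        (fun y => ENNReal.ofReal (Real.exp (a * Z ^ (a - 1) * (u - max (X1 - y) 0)))) y ∂μ := by
        gcongr
    _ = ∫⁻ y, ENNReal.ofReal (Real.exp (-(X2 ^ a))) *
        ({y | max (X1 - y) 0 < u} : Set ℝ).indicator
        (fun y => ENNReal.ofReal (Real.exp (a * Z ^ (a - 1) * (u - max (X1 - y) 0)))) y ∂μ := by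
        symm
        apply lintegral_const_mul
        apply Measurable.indicator _ (measurableSet_lt hV measurable_const)
        fun_prop
    _ ≤ _ := by
        apply lintegral_mono
        intro y
        by_cases hy : max (X1 - y) 0 < u
        · simp only
          rw [Set.indicator_of_mem (by exact hy)]
          have e : Prod.mk y ⁻¹' {p : ℝ × ℝ | max (X1 - p.1) 0 + max (X2 - p.2) 0 < u} =
              {y' | max (X2 - y') 0 < u - max (X1 - y) 0} := by
            ext y'
            simp only [Set.mem_preimage, Set.mem_ofPred_eq]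
            constructor
            · intro b; linarith
            · intro b; linarith
          rw [e, ← ENNReal.ofReal_mul (Real.exp_pos _).le]
          exact tt_one_lower ha0 ha1 hμ h2 h2' _ (by linarith)
            (by linarith [le_max_right (X1 - y) 0])
        · simp only
          rw [Set.indicator_of_notMem (by exact hy), mul_zero]
          exact zero_le

end tt

end Pool.Agent.Lib.MP_04add8_pr
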