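import Mathlib
import Pool.Agent.Lib.MP_04add8_pr.Two.Defs
import Pool.Agent.Lib.MP_04add8_pr.Two.Det1
import Pool.Agent.Lib.MP_04add8_pr.Two.TwoTail
import Pool.Agent.Lib.MP_04add8_pr.Weibull
import Pool.Agent.Lib.MP_04add8_pr.DriftInt

open MeasureTheory ProbabilityTheory Filter Topology
open scoped ENNReal

set_option linter.unusedSectionVars false

namespace Pool.Agent.Lib.MP_04add8_pr

namespace MainU

/-- lower bound for the cost `(x + T - v) ^ a` -/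
lemma cost_lower {a x ε ε4 T v : ℝ} (ha0 : 0 < a) (ha1 : a < 1) (hx : 0 < x) (hε0 : 0 < ε)
    (hε : ε ≤ 1 / 8) (hε4 : 0 < ε4) (hT0 : 0 ≤ T) (hT : T ≤ ε4 * x) (hv0 : 0 ≤ v)
    (hv : v ≤ 4 * ε * x) :
    x ^ a - (1 - 4 * ε) ^ (a - 1) * (a * x ^ (a - 1)) * v
      + (1 + ε4) ^ (a - 1) * (a * x ^ (a - 1)) * T ≤ (x + T - v) ^ a := by
  have h14 : 0 < 1 - 4 * ε := by linarith
  have hxv : (1 - 4 * ε) * x ≤ x - v := by linarith
  have hpos : 0 < (1 - 4 * ε) * x := mul_pos h14 hx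
  have hxv0 : 0 < x - v := by linarith
  -- first tangent inequality
  have e1 := rpow_add_le_tangent ha0 ha1 hxv0 (y := v) (by linarith)
  have e2 : (x - v) ^ (a - 1) ≤ ((1 - 4 * ε) * x) ^ (a - 1) :=
    Real.rpow_le_rpow_of_nonpos hpos hxv (by linarith)
  rw [Real.mul_rpow h14.le hx.le] at e2
  have e3 : a * (x - v) ^ (a - 1) * v ≤ (1 - 4 * ε) ^ (a - 1) * (a * x ^ (a - 1)) * v := by
    have : a * (x - v) ^ (a - 1) ≤ a * ((1 - 4 * ε) ^ (a - 1) * x ^ (a - 1)) :=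
      mul_le_mul_of_nonneg_left e2 ha0.le
    calc a * (x - v) ^ (a - 1) * v ≤ a * ((1 - 4 * ε) ^ (a - 1) * x ^ (a - 1)) * v :=
          mul_le_mul_of_nonneg_right this hv0
      _ = _ := by ring
  have e4 : x - v + v = x := by ring
  rw [e4] at e1
  -- second tangent inequality
  have hz0 : 0 < x + T - v := by linarith
  have f1 := rpow_add_le_tangent ha0 ha1 hz0 (y := -T) (by linarith)
  have f2 : ((1 + ε4) * x) ^ (a - 1) ≤ (x + T - v) ^ (a - 1) :=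
    Real.rpow_le_rpow_of_nonpos hz0 (by linarith) (by linarith)
  rw [Real.mul_rpow (by linarith) hx.le] at f2
  have f3 : (1 + ε4) ^ (a - 1) * (a * x ^ (a - 1)) * T ≤ a * (x + T - v) ^ (a - 1) * T := by
    have : a * ((1 + ε4) ^ (a - 1) * x ^ (a - 1)) ≤ a * (x + T - v) ^ (a - 1) :=
      mul_le_mul_of_nonneg_left f2 ha0.le
    calc (1 + ε4) ^ (a - 1) * (a * x ^ (a - 1)) * T
        = a * ((1 + ε4) ^ (a - 1) * x ^ (a - 1)) * T := by ring
      _ ≤ _ := mul_le_mul_of_nonneg_right this hT0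
  have f4 : x + T - v + -T = x - v := by ring
  rw [f4] at f1
  linarith

lemma sumT_nonneg {τ : ℝ} (hτ : 0 ≤ τ) {z : ℕ → ℝ × ℝ} (hz : ∀ k, 0 ≤ (z k).1 ∧ 0 ≤ (z k).2)
    (n : ℕ) : 0 ≤ sumT τ z n := Finset.sum_nonneg fun i _ => le_min (hz i).2 hτ

lemma sumT_le {τ : ℝ} (z : ℕ → ℝ × ℝ) (n : ℕ) : sumT τ z n ≤ n * τ := by
  unfold sumT
  calc ∑ i ∈ Finset.range n, min (z i).2 τ ≤ ∑ _i ∈ Finset.range n, τ :=
        Finset.sum_le_sum fun i _ => min_le_right _ _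
    _ = n * τ := by simp

lemma measurableSet_small (B : ℝ) (n : ℕ) :
    MeasurableSet {z : ℕ → ℝ × ℝ | ∀ i < n, (z i).1 ≤ B} := by
  have e : {z : ℕ → ℝ × ℝ | ∀ i < n, (z i).1 ≤ B} =
      ⋂ i : ℕ, ⋂ _ : i < n, {z : ℕ → ℝ × ℝ | (z i).1 ≤ B} := by
    ext z; simp
  rw [e]
  refine MeasurableSet.iInter fun i => MeasurableSet.iInter fun _ => ?_
  exact measurableSet_le (by fun_prop) measurable_const

lemma measurableSet_main (w : ℝ × ℝ) (x B ε : ℝ) (n1 n2 : ℕ) :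
    MeasurableSet {z : ℕ → ℝ × ℝ | (w, z) ∈ mainEvent x B ε n1 n2} := by
  have e : {z : ℕ → ℝ × ℝ | (w, z) ∈ mainEvent x B ε n1 n2} =
      {z : ℕ → ℝ × ℝ | w.2 ≤ 2 * ε * x} ∩ (({z : ℕ → ℝ × ℝ | B < (z 0).1} ∩
        ((⋂ i : ℕ, ⋂ _ : i < n1, {z : ℕ → ℝ × ℝ | (z (i + 1)).1 ≤ B}) ∩
        ({z : ℕ → ℝ × ℝ | B < (z (n1 + 1)).1} ∩
        (⋂ i : ℕ, ⋂ _ : i < n2, {z : ℕ → ℝ × ℝ | (z (n1 + (i + 1) + 1)).1 ≤ B})))) ∩
      ({z : ℕ → ℝ × ℝ | ∑ i ∈ Finset.range n1, (z (i + 1)).1 ≤ ε * x} ∩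
      ({z : ℕ → ℝ × ℝ | ∑ i ∈ Finset.range n2, (z (n1 + (i + 1) + 1)).1 ≤ ε * x} ∩
      {z : ℕ → ℝ × ℝ | x < (pIter w z (n1 + n2 + 2)).1}))) := by
    ext z
    simp only [mainEvent, twoBig, Set.mem_ofPred_eq, Set.mem_inter_iff, Set.mem_iInter]
  rw [e]
  have hp : Measurable (fun z : ℕ → ℝ × ℝ => (pIter w z (n1 + n2 + 2)).1) :=
    ((measurable_pIter (n1 + n2 + 2)).comp (measurable_const.prodMk measurable_id)).fst
  refine (MeasurableSet.const _).inter (((measurableSet_lt measurable_const (by fun_prop)).inter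
    ((MeasurableSet.iInter fun i => MeasurableSet.iInter fun _ =>
      measurableSet_le (by fun_prop) measurable_const).inter
    ((measurableSet_lt measurable_const (by fun_prop)).inter
    (MeasurableSet.iInter fun i => MeasurableSet.iInter fun _ =>
      measurableSet_le (by fun_prop) measurable_const)))).inter
    ((measurableSet_le (by fun_prop) measurable_const).inter
    ((measurableSet_le (by fun_prop) measurable_const).inter
    (measurableSet_lt measurable_const hp))))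

/-- the set used to bound the main event -/
def bad (w : ℝ × ℝ) (x B ε τ : ℝ) (n1 n2 : ℕ) :
    Set (((ℕ → ℝ × ℝ) × (ℕ → ℝ × ℝ)) × ((ℝ × ℝ) × (ℝ × ℝ))) :=
  {q | (∀ i < n1, (q.1.1 i).1 ≤ B) ∧ (∀ i < n2, (q.1.2 i).1 ≤ B) ∧ sumS q.1.1 n1 ≤ ε * x ∧
    sumS q.1.2 n2 ≤ ε * x ∧
    max (x + sumT τ q.1.2 n2 + sumT τ q.1.1 n1 - w.1 - q.2.1.1) 0 +
      max (x + sumT τ q.1.2 n2 - reflT τ w.2 q.1.1 n1 - q.2.2.1) 0 ≤ sumS q.1.2 n2}

lemma measurableSet_bad (w : ℝ × ℝ) (x B ε τ : ℝ) (n1 n2 : ℕ) :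
    MeasurableSet (bad w x B ε τ n1 n2) := by
  unfold bad
  have hS1 : Measurable (fun q : ((ℕ → ℝ × ℝ) × (ℕ → ℝ × ℝ)) × ((ℝ × ℝ) × (ℝ × ℝ)) =>
      sumS q.1.1 n1) := (measurable_sumS n1).comp (by fun_prop)
  have hS2 : Measurable (fun q : ((ℕ → ℝ × ℝ) × (ℕ → ℝ × ℝ)) × ((ℝ × ℝ) × (ℝ × ℝ)) =>
      sumS q.1.2 n2) := (measurable_sumS n2).comp (by fun_prop)
  have hT1 : Measurable (fun q : ((ℕ → ℝ × ℝ) × (ℕ → ℝ × ℝ)) × ((ℝ × ℝ) × (ℝ × ℝ)) =>
      sumT τ q.1.1 n1) := (measurable_sumT τ n1).comp (by fun_prop)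
  have hT2 : Measurable (fun q : ((ℕ → ℝ × ℝ) × (ℕ → ℝ × ℝ)) × ((ℝ × ℝ) × (ℝ × ℝ)) =>
      sumT τ q.1.2 n2) := (measurable_sumT τ n2).comp (by fun_prop)
  have hR : Measurable (fun q : ((ℕ → ℝ × ℝ) × (ℕ → ℝ × ℝ)) × ((ℝ × ℝ) × (ℝ × ℝ)) =>
      reflT τ w.2 q.1.1 n1) :=
    (measurable_reflT τ n1).comp (measurable_const.prodMk (by fun_prop))
  have h1 : MeasurableSet {q : ((ℕ → ℝ × ℝ) × (ℕ → ℝ × ℝ)) × ((ℝ × ℝ) × (ℝ × ℝ)) |
      ∀ i < n1, (q.1.1 i).1 ≤ B} :=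
    (measurableSet_small B n1).preimage (measurable_fst.comp measurable_fst)
  have h2 : MeasurableSet {q : ((ℕ → ℝ × ℝ) × (ℕ → ℝ × ℝ)) × ((ℝ × ℝ) × (ℝ × ℝ)) |
      ∀ i < n2, (q.1.2 i).1 ≤ B} :=
    (measurableSet_small B n2).preimage (measurable_snd.comp measurable_fst)
  refine h1.inter (h2.inter ((measurableSet_le hS1 measurable_const).inter
    ((measurableSet_le hS2 measurable_const).inter (measurableSet_le ?_ hS2))))
  refine Measurable.add (Measurable.max ?_ measurable_const) (Measurable.max ?_ measurable_const)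
  · exact (((measurable_const.add hT2).add hT1).sub measurable_const).sub (by fun_prop)
  · exact ((measurable_const.add hT2).sub hR).sub (by fun_prop)

variable {a : ℝ} {μ ν : Measure ℝ} [IsProbabilityMeasure μ] [IsProbabilityMeasure ν]

lemma ae_pair (ha0 : 0 < a)
    (hμ : ∀ x, 0 ≤ x → μ (Set.Ioi x) = ENNReal.ofReal (Real.exp (-(x ^ a))))
    (hν : ν (Set.Iio 0) = 0) : ∀ᵐ p ∂(μ.prod ν), 0 ≤ p.1 ∧ 0 ≤ p.2 := by
  have h1 : ∀ᵐ p ∂(μ.prod ν), 0 ≤ p.1 := by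
    have := (Measure.quasiMeasurePreserving_fst (μ := μ) (ν := ν)).ae
      ((weibull_ae_pos ha0 hμ).mono fun s hs => hs.le)
    exact this
  have h2 : ∀ᵐ p ∂(μ.prod ν), 0 ≤ p.2 := by
    have := (Measure.quasiMeasurePreserving_snd (μ := μ) (ν := ν)).ae (ae_nonneg_of_Iio hν)
    exact this
  filter_upwards [h1, h2] with p hp1 hp2 using ⟨hp1, hp2⟩

/-- the order of integration is changed -/
lemma swap4 {g : ((ℕ → ℝ × ℝ) × (ℕ → ℝ × ℝ)) × ((ℝ × ℝ) × (ℝ × ℝ)) → ℝ≥0∞}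
    (hg : Measurable g) :
    ∫⁻ p1, ∫⁻ z1, ∫⁻ p2, ∫⁻ z2, g ((z1, z2), (p1, p2))
        ∂(noise μ ν) ∂(μ.prod ν) ∂(noise μ ν) ∂(μ.prod ν) =
      ∫⁻ z1, ∫⁻ z2, ∫⁻ p1, ∫⁻ p2, g ((z1, z2), (p1, p2))
        ∂(μ.prod ν) ∂(μ.prod ν) ∂(noise μ ν) ∂(noise μ ν) := by
  have s1 : ∀ p1 z1, ∫⁻ p2, ∫⁻ z2, g ((z1, z2), (p1, p2)) ∂(noise μ ν) ∂(μ.prod ν) =
      ∫⁻ z2, ∫⁻ p2, g ((z1, z2), (p1, p2)) ∂(μ.prod ν) ∂(noise μ ν) := by
    intro p1 z1
    refine lintegral_lintegral_swap (Measurable.aemeasurable ?_)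
    exact hg.comp ((measurable_const.prodMk measurable_snd).prodMk
      (measurable_const.prodMk measurable_fst))
  simp only [s1]
  have m2 : Measurable (fun q : ((ℕ → ℝ × ℝ) × (ℕ → ℝ × ℝ)) × (ℝ × ℝ) =>
      ∫⁻ p2, g (q.1, (q.2, p2)) ∂(μ.prod ν)) := by
    refine Measurable.lintegral_prod_right' (f := fun r : (((ℕ → ℝ × ℝ) × (ℕ → ℝ × ℝ)) × (ℝ × ℝ)) ×
      (ℝ × ℝ) => g (r.1.1, (r.1.2, r.2))) ?_
    exact hg.comp (by fun_prop)
  have s2 : ∫⁻ p1, ∫⁻ z1, ∫⁻ z2, ∫⁻ p2, g ((z1, z2), (p1, p2))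
        ∂(μ.prod ν) ∂(noise μ ν) ∂(noise μ ν) ∂(μ.prod ν) =
      ∫⁻ z1, ∫⁻ p1, ∫⁻ z2, ∫⁻ p2, g ((z1, z2), (p1, p2))
        ∂(μ.prod ν) ∂(noise μ ν) ∂(μ.prod ν) ∂(noise μ ν) := by
    refine lintegral_lintegral_swap (Measurable.aemeasurable ?_)
    refine Measurable.lintegral_prod_right' (f := fun r : ((ℝ × ℝ) × (ℕ → ℝ × ℝ)) × (ℕ → ℝ × ℝ) =>
      ∫⁻ p2, g ((r.1.2, r.2), (r.1.1, p2)) ∂(μ.prod ν)) ?_
    exact m2.comp (f := fun r : ((ℝ × ℝ) × (ℕ → ℝ × ℝ)) × (ℕ → ℝ × ℝ) =>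
      ((r.1.2, r.2), r.1.1)) (by fun_prop)
  rw [s2]
  refine lintegral_congr fun z1 => ?_
  refine lintegral_lintegral_swap (Measurable.aemeasurable ?_)
  exact m2.comp (f := fun r : (ℝ × ℝ) × (ℕ → ℝ × ℝ) => ((z1, r.2), r.1)) (by fun_prop)

/-- integrals over pairs of functions of the service times only -/
lemma lintegral_fst_fst {f : ℝ × ℝ → ℝ≥0∞} (hf : Measurable f) :
    ∫⁻ p1, ∫⁻ p2, f (p1.1, p2.1) ∂(μ.prod ν) ∂(μ.prod ν) = ∫⁻ q, f q ∂(μ.prod μ) := by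
  have h1 : ∀ s : ℝ, ∫⁻ p2, f (s, p2.1) ∂(μ.prod ν) = ∫⁻ s', f (s, s') ∂μ := by
    intro s
    have hm : Measurable (fun p : ℝ × ℝ => f (s, p.1)) :=
      hf.comp (measurable_const.prodMk measurable_fst)
    rw [lintegral_prod _ hm.aemeasurable]
    simp
  simp only [h1]
  have hm : Measurable (fun s : ℝ => ∫⁻ s', f (s, s') ∂μ) := hf.lintegral_prod_right'
  have hm' : Measurable (fun p : ℝ × ℝ => ∫⁻ s', f (p.1, s') ∂μ) := hm.comp measurable_fst
  rw [lintegral_prod _ hm'.aemeasurable, lintegral_prod _ hf.aemeasurable]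
  simp

end MainU

open MainU

variable {a : ℝ} {μ ν : Measure ℝ} [IsProbabilityMeasure μ] [IsProbabilityMeasure ν]

theorem mainEvent_bound (ha0 : 0 < a) (ha1 : a < 1)
    (hμ : ∀ x, 0 ≤ x → μ (Set.Ioi x) = ENNReal.ofReal (Real.exp (-(x ^ a))))
    (hν : ν (Set.Iio 0) = 0) {x B ε ε4 τ : ℝ} (hx : 0 < x) (hε0 : 0 < ε) (hε : ε ≤ 1 / 8)
    (hε4 : 0 < ε4) (hτ : 0 ≤ τ) {n1 n2 : ℕ} (hN : (n1 + n2 + 2 : ℝ) * τ ≤ ε4 * x)
    {w : ℝ × ℝ} (h0 : 0 ≤ w.1) (h1 : w.1 ≤ w.2) (h2 : w.2 ≤ 2 * ε * x) :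
    (noise μ ν) {z | (w, z) ∈ mainEvent x B ε n1 n2} ≤
      ENNReal.ofReal (Real.exp (-(x ^ a)) ^ 2 *
        Real.exp ((1 - 4 * ε) ^ (a - 1) * (a * x ^ (a - 1)) * w.1)) *
      walkA μ ν B τ ((1 - 4 * ε) ^ (a - 1) * (a * x ^ (a - 1)))
        ((1 + ε4) ^ (a - 1) * (a * x ^ (a - 1))) n1 w.2 *
      walkC μ ν B τ ((1 - 4 * ε) ^ (a - 1) * (a * x ^ (a - 1)))
        ((1 + ε4) ^ (a - 1) * (a * x ^ (a - 1))) n2 := by
  have hw2 : 0 ≤ w.2 := h0.trans h1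
  have hεx : 0 < ε * x := mul_pos hε0 hx
  have hεx8 : ε * x ≤ x / 8 := by nlinarith
  set θp := (1 - 4 * ε) ^ (a - 1) * (a * x ^ (a - 1)) with hθp
  set θm := (1 + ε4) ^ (a - 1) * (a * x ^ (a - 1)) with hθm
  have h14 : 0 < 1 - 4 * ε := by linarith
  have hθp0 : 0 ≤ θp := by
    rw [hθp]
    exact mul_nonneg (Real.rpow_nonneg h14.le _) (mul_nonneg ha0.le (Real.rpow_nonneg hx.le _))
  have hae := ae_pair (μ := μ) (ν := ν) ha0 hμ hν
  have haez := ae_noise hae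
  set S := bad w x B ε τ n1 n2 with hS
  have hSm : MeasurableSet S := measurableSet_bad w x B ε τ n1 n2
  have hM := measurableSet_main w x B ε n1 n2
  set g : ((ℕ → ℝ × ℝ) × (ℕ → ℝ × ℝ)) × ((ℝ × ℝ) × (ℝ × ℝ)) → ℝ≥0∞ :=
    S.indicator (fun _ => 1) with hgdef
  have hg : Measurable g := measurable_const.indicator hSm
  -- step 1
  have step1 : (noise μ ν) {z | (w, z) ∈ mainEvent x B ε n1 n2} ≤
      ∫⁻ p1, ∫⁻ z1, ∫⁻ p2, ∫⁻ z2, g ((z1, z2), (p1, p2))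
        ∂(noise μ ν) ∂(μ.prod ν) ∂(noise μ ν) ∂(μ.prod ν) := by
    rw [← lintegral_indicator_one hM]
    rw [lintegral_noise_four n1 (measurable_one.indicator hM)]
    refine lintegral_mono_ae ?_
    filter_upwards [hae] with p1 hp1
    refine lintegral_mono_ae ?_
    filter_upwards [haez] with z1 hz1
    refine lintegral_mono_ae ?_
    filter_upwards [hae] with p2 hp2
    refine lintegral_mono_ae ?_
    filter_upwards [haez] with z2 hz2
    by_cases hmem : four n1 p1 z1 p2 z2 ∈ {z | (w, z) ∈ mainEvent x B ε n1 n2}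
    · rw [Set.indicator_of_mem hmem]
      have hmem' : ((z1, z2), (p1, p2)) ∈ S := by
        obtain ⟨-, ⟨-, hb1, -, hb2⟩, hs1, hs2, hlast⟩ := hmem
        simp only at hb1 hb2 hs1 hs2 hlast
        have hs1' : sumS z1 n1 ≤ ε * x := by
          unfold sumS
          refine le_trans (le_of_eq ?_) hs1
          refine Finset.sum_congr rfl fun i hi => ?_
          rw [four_one n1 p1 z1 p2 z2 (Finset.mem_range.1 hi)]
        have hs2' : sumS z2 n2 ≤ ε * x := by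
          unfold sumS
          refine le_trans (le_of_eq ?_) hs2
          refine Finset.sum_congr rfl fun i _ => ?_
          rw [four_three n1 p1 z1 p2 z2 i]
        rw [pIter_four] at hlast
        refine ⟨fun i hi => ?_, fun i hi => ?_, hs1', hs2', ?_⟩
        · have := hb1 i hi
          rw [four_one n1 p1 z1 p2 z2 hi] at this
          exact this
        · have := hb2 i hi
          rw [four_three n1 p1 z1 p2 z2 i] at this
          exact this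
        · exact det_main hx hε0 hε h0 h1 h2 hp1 hp2 hz1 hz2 n1 n2 hs1' hs2' hτ hlast
      rw [hgdef, Set.indicator_of_mem hmem']
      exact le_refl _
    · rw [Set.indicator_of_notMem hmem]
      exact bot_le
  -- step 3
  have step3 : ∀ᵐ z1 ∂(noise μ ν), ∀ᵐ z2 ∂(noise μ ν),
      ∫⁻ p1, ∫⁻ p2, g ((z1, z2), (p1, p2)) ∂(μ.prod ν) ∂(μ.prod ν) ≤
        ENNReal.ofReal (Real.exp (-(x ^ a)) ^ 2 * Real.exp (θp * w.1)) *
        (({z : ℕ → ℝ × ℝ | ∀ i < n1, (z i).1 ≤ B}).indicator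
          (fun z => ENNReal.ofReal (Real.exp (θp * reflT τ w.2 z n1 - θm * sumT τ z n1))) z1) *
        (({z : ℕ → ℝ × ℝ | ∀ i < n2, (z i).1 ≤ B}).indicator
          (fun z => ENNReal.ofReal ((1 + θp * sumS z n2) *
            Real.exp (θp * sumS z n2 - 2 * θm * sumT τ z n2))) z2) := by
    filter_upwards [haez] with z1 hz1
    filter_upwards [haez] with z2 hz2
    by_cases hc : (∀ i < n1, (z1 i).1 ≤ B) ∧ (∀ i < n2, (z2 i).1 ≤ B) ∧ sumS z1 n1 ≤ ε * x ∧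
        sumS z2 n2 ≤ ε * x
    · obtain ⟨c1, c2, c3, c4⟩ := hc
      rw [Set.indicator_of_mem (show z1 ∈ {z : ℕ → ℝ × ℝ | ∀ i < n1, (z i).1 ≤ B} from c1),
        Set.indicator_of_mem (show z2 ∈ {z : ℕ → ℝ × ℝ | ∀ i < n2, (z i).1 ≤ B} from c2)]
      set T1 := sumT τ z1 n1 with hT1
      set T2 := sumT τ z2 n2 with hT2
      set R := reflT τ w.2 z1 n1 with hR
      set U := sumS z2 n2 with hU
      set X1 := x + T2 + T1 - w.1 with hX1
      set X2 := x + T2 - R with hX2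
      have hT10 : 0 ≤ T1 := sumT_nonneg hτ hz1 n1
      have hT20 : 0 ≤ T2 := sumT_nonneg hτ hz2 n2
      have hT1n : T1 ≤ n1 * τ := sumT_le z1 n1
      have hT2n : T2 ≤ n2 * τ := sumT_le z2 n2
      have hR0 : 0 ≤ R := Det1.reflT_nonneg hw2 z1 n1
      have hR1 : R ≤ w.2 + sumS z1 n1 := Det1.reflT_le hτ hw2 hz1 n1
      have hU0 : 0 ≤ U := Det1.sumS_nonneg hz2 n2
      have hTT : T2 + T1 ≤ ε4 * x := by nlinarith
      have hT2' : T2 ≤ ε4 * x := by linarith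
      have hset : MeasurableSet {p : ℝ × ℝ | max (X1 - p.1) 0 + max (X2 - p.2) 0 ≤ U} := by
        refine measurableSet_le ?_ measurable_const
        fun_prop
      have e1 : ∫⁻ p1, ∫⁻ p2, g ((z1, z2), (p1, p2)) ∂(μ.prod ν) ∂(μ.prod ν) =
          (μ.prod μ) {p : ℝ × ℝ | max (X1 - p.1) 0 + max (X2 - p.2) 0 ≤ U} := by
        rw [← lintegral_indicator_one hset,
          ← lintegral_fst_fst (μ := μ) (ν := ν) (measurable_one.indicator hset)]
        refine lintegral_congr fun p1 => lintegral_congr fun p2 => ?_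
        by_cases hq : max (X1 - p1.1) 0 + max (X2 - p2.1) 0 ≤ U
        · rw [hgdef, Set.indicator_of_mem (show ((z1, z2), (p1, p2)) ∈ S from
            ⟨c1, c2, c3, c4, hq⟩),
            Set.indicator_of_mem (show (p1.1, p2.1) ∈ {p : ℝ × ℝ | max (X1 - p.1) 0 +
              max (X2 - p.2) 0 ≤ U} from hq)]
          rfl
        · rw [hgdef, Set.indicator_of_notMem (fun h => hq h.2.2.2.2),
            Set.indicator_of_notMem (show (p1.1, p2.1) ∉ {p : ℝ × ℝ | max (X1 - p.1) 0 +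
              max (X2 - p.2) 0 ≤ U} from hq)]
      rw [e1]
      have hY : 0 < (1 - 4 * ε) * x := mul_pos h14 hx
      have e2 := twoTail_upper (μ := μ) ha0 ha1 hμ (X1 := X1) (X2 := X2) (u := U) hY
        (by rw [hX1]; linarith) (by rw [hX2]; linarith) hU0
      refine e2.trans ?_
      have e3 : a * ((1 - 4 * ε) * x) ^ (a - 1) = θp := by
        rw [hθp, Real.mul_rpow h14.le hx.le]; ring
      rw [e3]
      have k1 : x ^ a - θp * w.1 + θm * (T2 + T1) ≤ X1 ^ a := by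
        have := cost_lower ha0 ha1 hx hε0 hε hε4 (add_nonneg hT20 hT10) hTT h0
          (by linarith : w.1 ≤ 4 * ε * x)
        have e : x + (T2 + T1) - w.1 = X1 := by rw [hX1]; ring
        rw [e] at this
        exact this
      have k2 : x ^ a - θp * R + θm * T2 ≤ X2 ^ a :=
        cost_lower ha0 ha1 hx hε0 hε hε4 hT20 hT2' hR0 (by linarith : R ≤ 4 * ε * x)
      rw [← ENNReal.ofReal_mul (by positivity), ← ENNReal.ofReal_mul (by positivity)]
      refine ENNReal.ofReal_le_ofReal ?_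
      have hU1 : 0 ≤ 1 + θp * U := by positivity
      have k3 : Real.exp (-(X1 ^ a)) * Real.exp (-(X2 ^ a)) * Real.exp (θp * U) ≤
          Real.exp (-(x ^ a)) ^ 2 * Real.exp (θp * w.1) * Real.exp (θp * R - θm * T1) *
            Real.exp (θp * U - 2 * θm * T2) := by
        rw [sq, ← Real.exp_add, ← Real.exp_add, ← Real.exp_add, ← Real.exp_add, ← Real.exp_add,
          ← Real.exp_add]
        refine Real.exp_le_exp.2 ?_
        linarith
      calc Real.exp (-(X1 ^ a)) * Real.exp (-(X2 ^ a)) * ((1 + θp * U) * Real.exp (θp * U))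
          = (1 + θp * U) * (Real.exp (-(X1 ^ a)) * Real.exp (-(X2 ^ a)) * Real.exp (θp * U)) := by
            ring
        _ ≤ (1 + θp * U) * (Real.exp (-(x ^ a)) ^ 2 * Real.exp (θp * w.1) *
            Real.exp (θp * R - θm * T1) * Real.exp (θp * U - 2 * θm * T2)) :=
            mul_le_mul_of_nonneg_left k3 hU1
        _ = _ := by ring
    · have e1 : ∀ p1 p2, g ((z1, z2), (p1, p2)) = 0 := by
        intro p1 p2
        rw [hgdef, Set.indicator_of_notMem]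
        intro h
        exact hc ⟨h.1, h.2.1, h.2.2.1, h.2.2.2.1⟩
      simp only [e1, lintegral_zero]
      exact bot_le
  -- conclusion
  refine step1.trans ?_
  rw [swap4 hg]
  unfold walkA walkC
  set fA : (ℕ → ℝ × ℝ) → ℝ≥0∞ := ({z : ℕ → ℝ × ℝ | ∀ i < n1, (z i).1 ≤ B}).indicator
    (fun z => ENNReal.ofReal (Real.exp (θp * reflT τ w.2 z n1 - θm * sumT τ z n1))) with hfA
  set fC : (ℕ → ℝ × ℝ) → ℝ≥0∞ := ({z : ℕ → ℝ × ℝ | ∀ i < n2, (z i).1 ≤ B}).indicator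
    (fun z => ENNReal.ofReal ((1 + θp * sumS z n2) *
      Real.exp (θp * sumS z n2 - 2 * θm * sumT τ z n2))) with hfC
  have mA : Measurable fA := by
    refine Measurable.indicator ?_ (measurableSet_small B n1)
    have hR : Measurable (fun z : ℕ → ℝ × ℝ => reflT τ w.2 z n1) :=
      (measurable_reflT τ n1).comp (measurable_const.prodMk measurable_id)
    have hT := measurable_sumT τ n1
    exact (((hR.const_mul θp).sub (hT.const_mul θm)).exp).ennreal_ofReal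
  have mC : Measurable fC := by
    refine Measurable.indicator ?_ (measurableSet_small B n2)
    have hS := measurable_sumS n2
    have hT := measurable_sumT τ n2
    exact ((measurable_const.add (hS.const_mul θp)).mul
      (((hS.const_mul θp).sub (hT.const_mul (2 * θm))).exp)).ennreal_ofReal
  calc ∫⁻ z1, ∫⁻ z2, ∫⁻ p1, ∫⁻ p2, g ((z1, z2), (p1, p2))
        ∂(μ.prod ν) ∂(μ.prod ν) ∂(noise μ ν) ∂(noise μ ν)
      ≤ ∫⁻ z1, ∫⁻ z2, ENNReal.ofReal (Real.exp (-(x ^ a)) ^ 2 * Real.exp (θp * w.1)) * fA z1 *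
          fC z2 ∂(noise μ ν) ∂(noise μ ν) := by
        refine lintegral_mono_ae ?_
        filter_upwards [step3] with z1 h1
        exact lintegral_mono_ae h1
    _ = ∫⁻ z1, ENNReal.ofReal (Real.exp (-(x ^ a)) ^ 2 * Real.exp (θp * w.1)) * fA z1 *
          (∫⁻ z2, fC z2 ∂(noise μ ν)) ∂(noise μ ν) := by
        refine lintegral_congr fun z1 => ?_
        rw [lintegral_const_mul _ mC]
    _ = _ := by
        rw [lintegral_mul_const _ (mA.const_mul _), lintegral_const_mul _ mA]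

end Pool.Agent.Lib.MP_04add8_pr
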