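import Mathlib
import Pool.Agent.Lib.MP_04add8_pr.Two.Defs
import Pool.Agent.Lib.MP_04add8_pr.Weibull
import Pool.Agent.Lib.MP_04add8_pr.DriftInt

open MeasureTheory ProbabilityTheory Filter Topology
open scoped ENNReal

set_option linter.unusedSectionVars false

namespace Pool.Agent.Lib.MP_04add8_pr

lemma wk_small {a x b rp s : ℝ} (ha0 : 0 < a) (ha1 : a < 1) (hx : 0 < x) (hb : 0 < b)
    (hb4 : 4 * b ^ (1 - a) ≤ 1 / 2) (hrp : 0 < rp) (hrp2 : rp ≤ 2) (hs : 0 < s) (hsx : s ≤ b * x) :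
    rp * (a * x ^ (a - 1)) * s ≤ s ^ a / 4 := by
  have h1 : x ^ (a - 1) * s = s ^ a * (s / x) ^ (1 - a) := by
    rw [Real.div_rpow hs.le hx.le]
    have e1 : s = s ^ a * s ^ (1 - a) := by
      rw [← Real.rpow_add hs]; simp
    have e2 : x ^ (a - 1) = (x ^ (1 - a))⁻¹ := by
      rw [← Real.rpow_neg hx.le]; congr 1; ring
    rw [e2, div_eq_mul_inv]
    conv_lhs => rw [e1]
    ring
  have h2 : (s / x) ^ (1 - a) ≤ b ^ (1 - a) := by
    apply Real.rpow_le_rpow (by positivity) _ (by linarith)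
    rw [div_le_iff₀ hx]; exact hsx
  have h3 : 0 < s ^ a := Real.rpow_pos_of_pos hs _
  have h4 : rp * a ≤ 2 := by nlinarith
  have h5 : 0 < rp * a := by positivity
  have h6 : s ^ a * (s / x) ^ (1 - a) ≤ s ^ a * b ^ (1 - a) := by gcongr
  have h7 : 0 < s ^ a * b ^ (1 - a) := by positivity
  calc rp * (a * x ^ (a - 1)) * s = (rp * a) * (s ^ a * (s / x) ^ (1 - a)) := by rw [← h1]; ring
    _ ≤ (rp * a) * (s ^ a * b ^ (1 - a)) := by gcongr
    _ ≤ 2 * (s ^ a * b ^ (1 - a)) := by gcongr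
    _ = s ^ a * (4 * b ^ (1 - a)) / 2 := by ring
    _ ≤ s ^ a * (1 / 2) / 2 := by gcongr
    _ = s ^ a / 4 := by ring

lemma exp_le_one_add_mul_exp (y : ℝ) : Real.exp y ≤ 1 + y * Real.exp y := by
  have h1 := Real.add_one_le_exp (-y)
  have h2 : Real.exp y * Real.exp (-y) = 1 := by rw [← Real.exp_add]; simp
  nlinarith [Real.exp_pos y]

lemma exp_le_one_add_add_sq_mul_exp {y : ℝ} (hy : 0 ≤ y) :
    Real.exp y ≤ 1 + y + y ^ 2 * Real.exp y := by
  have h1 := exp_le_one_add_mul_exp y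
  nlinarith [mul_le_mul_of_nonneg_left h1 hy]

section base

variable {a : ℝ} {μ ν : Measure ℝ} [IsProbabilityMeasure μ] [IsProbabilityMeasure ν]

/-- the constant of the second order term -/
noncomputable def wkC (μ : Measure ℝ) (a : ℝ) : ℝ := ∫ s, s ^ 2 * Real.exp (s ^ a / 4) ∂μ

lemma wk_integrable (ha0 : 0 < a)
    (hμ : ∀ x, 0 ≤ x → μ (Set.Ioi x) = ENNReal.ofReal (Real.exp (-(x ^ a)))) :
    Integrable (fun s : ℝ => s ^ 2 * Real.exp (s ^ a / 4)) μ := by
  have hpa : 0 < (2 : ℝ) / a := by positivity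
  apply Integrable.mono' (g := fun s => ((2 / a) / (1 / 4)) ^ ((2 : ℝ) / a) *
    Real.exp ((1 / 2) * s ^ a))
  · apply Integrable.const_mul
    exact weibull_integrable_exp ha0 hμ (by norm_num) (by norm_num)
  · fun_prop
  · filter_upwards [weibull_ae_pos ha0 hμ] with s hs
    rw [Real.norm_of_nonneg (by positivity)]
    have h1 := rpow_le_exp (p := (2 : ℝ) / a) (c := 1 / 4) (u := s ^ a) hpa (by norm_num)
      (by positivity)
    have h2 : (s ^ a) ^ ((2 : ℝ) / a) = s ^ 2 := by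
      rw [← Real.rpow_mul hs.le, mul_div_cancel₀ _ ha0.ne', Real.rpow_two]
    rw [h2] at h1
    calc s ^ 2 * Real.exp (s ^ a / 4)
        ≤ (((2 : ℝ) / a / (1 / 4)) ^ ((2 : ℝ) / a) * Real.exp (1 / 4 * s ^ a)) *
          Real.exp (s ^ a / 4) := by gcongr
      _ = ((2 / a) / (1 / 4)) ^ ((2 : ℝ) / a) * Real.exp ((1 / 2) * s ^ a) := by
          rw [mul_assoc, ← Real.exp_add]
          congr 2
          ring

lemma wkC_nonneg (μ : Measure ℝ) (a : ℝ) : 0 ≤ wkC μ a :=
  integral_nonneg fun s => by positivity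

/-- first moment of the exponential tilt -/
lemma wk_exp1 (ha0 : 0 < a) (ha1 : a < 1)
    (hμ : ∀ x, 0 ≤ x → μ (Set.Ioi x) = ENNReal.ofReal (Real.exp (-(x ^ a))))
    {x b rp : ℝ} (hx : 0 < x) (hb : 0 < b) (hb4 : 4 * b ^ (1 - a) ≤ 1 / 2)
    (hrp : 0 < rp) (hrp2 : rp ≤ 2) :
    Integrable ((Set.Iic (b * x)).indicator fun s => Real.exp (rp * (a * x ^ (a - 1)) * s)) μ ∧
    ∫ s, (Set.Iic (b * x)).indicator (fun s => Real.exp (rp * (a * x ^ (a - 1)) * s)) s ∂μ ≤
      1 + rp * (a * x ^ (a - 1)) * (∫ s, s ∂μ) + (rp * (a * x ^ (a - 1))) ^ 2 * wkC μ a := by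
  set θ := rp * (a * x ^ (a - 1)) with hθ
  have hθ0 : 0 < θ := by positivity
  have h1 : Integrable (fun s : ℝ => s) μ := by
    simpa using weibull_integrable_pow ha0 hμ 1 (by norm_num)
  have h2 := wk_integrable ha0 hμ
  have hg : Integrable (fun s : ℝ => 1 + θ * s + θ ^ 2 * (s ^ 2 * Real.exp (s ^ a / 4))) μ :=
    ((integrable_const _).add (h1.const_mul θ)).add (h2.const_mul _)
  have hle : ∀ᵐ s ∂μ, (Set.Iic (b * x)).indicator (fun s => Real.exp (θ * s)) s ≤
      1 + θ * s + θ ^ 2 * (s ^ 2 * Real.exp (s ^ a / 4)) := by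
    filter_upwards [weibull_ae_pos ha0 hμ] with s hs
    by_cases hsx : s ∈ Set.Iic (b * x)
    · rw [Set.indicator_of_mem hsx]
      have h3 : θ * s ≤ s ^ a / 4 := wk_small ha0 ha1 hx hb hb4 hrp hrp2 hs hsx
      have h4 := exp_le_one_add_add_sq_mul_exp (y := θ * s) (by positivity)
      calc Real.exp (θ * s) ≤ 1 + θ * s + (θ * s) ^ 2 * Real.exp (θ * s) := h4
        _ ≤ 1 + θ * s + (θ * s) ^ 2 * Real.exp (s ^ a / 4) := by gcongr
        _ = _ := by ring
    · rw [Set.indicator_of_notMem hsx]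
      positivity
  have hint : Integrable ((Set.Iic (b * x)).indicator fun s => Real.exp (θ * s)) μ := by
    apply Integrable.mono' hg
    · exact (by fun_prop : Measurable fun s : ℝ => Real.exp (θ * s)).aestronglyMeasurable.indicator
        measurableSet_Iic
    · filter_upwards [hle] with s hs
      rw [Real.norm_of_nonneg (Set.indicator_nonneg (fun _ _ => (Real.exp_pos _).le) _)]
      exact hs
  refine ⟨hint, ?_⟩
  refine (integral_mono_ae hint hg hle).trans (le_of_eq ?_)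
  rw [integral_add, integral_add, integral_const_mul, integral_const_mul]
  · simp [wkC]
  · exact integrable_const _
  · exact h1.const_mul θ
  · exact (integrable_const _).add (h1.const_mul θ)
  · exact h2.const_mul _

lemma wk_exp2 (ha0 : 0 < a) (ha1 : a < 1)
    (hμ : ∀ x, 0 ≤ x → μ (Set.Ioi x) = ENNReal.ofReal (Real.exp (-(x ^ a))))
    {x b rp : ℝ} (hx : 0 < x) (hb : 0 < b) (hb4 : 4 * b ^ (1 - a) ≤ 1 / 2)
    (hrp : 0 < rp) (hrp2 : rp ≤ 2) :
    Integrable ((Set.Iic (b * x)).indicator fun s => rp * (a * x ^ (a - 1)) * s *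
      Real.exp (rp * (a * x ^ (a - 1)) * s)) μ ∧
    ∫ s, (Set.Iic (b * x)).indicator (fun s => rp * (a * x ^ (a - 1)) * s *
      Real.exp (rp * (a * x ^ (a - 1)) * s)) s ∂μ ≤
      rp * (a * x ^ (a - 1)) * (∫ s, s ∂μ) + (rp * (a * x ^ (a - 1))) ^ 2 * wkC μ a := by
  set θ := rp * (a * x ^ (a - 1)) with hθ
  have hθ0 : 0 < θ := by positivity
  have h1 : Integrable (fun s : ℝ => s) μ := by
    simpa using weibull_integrable_pow ha0 hμ 1 (by norm_num)
  have h2 := wk_integrable ha0 hμ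
  have hg : Integrable (fun s : ℝ => θ * s + θ ^ 2 * (s ^ 2 * Real.exp (s ^ a / 4))) μ :=
    (h1.const_mul θ).add (h2.const_mul _)
  have hle : ∀ᵐ s ∂μ, (Set.Iic (b * x)).indicator (fun s => θ * s * Real.exp (θ * s)) s ≤
      θ * s + θ ^ 2 * (s ^ 2 * Real.exp (s ^ a / 4)) := by
    filter_upwards [weibull_ae_pos ha0 hμ] with s hs
    by_cases hsx : s ∈ Set.Iic (b * x)
    · rw [Set.indicator_of_mem hsx]
      have h3 : θ * s ≤ s ^ a / 4 := wk_small ha0 ha1 hx hb hb4 hrp hrp2 hs hsx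
      have h4 := exp_le_one_add_mul_exp (θ * s)
      calc θ * s * Real.exp (θ * s) ≤ θ * s * (1 + (θ * s) * Real.exp (θ * s)) := by gcongr
        _ ≤ θ * s * (1 + (θ * s) * Real.exp (s ^ a / 4)) := by gcongr
        _ = _ := by ring
    · rw [Set.indicator_of_notMem hsx]
      positivity
  have hnn : ∀ᵐ s ∂μ, 0 ≤ (Set.Iic (b * x)).indicator (fun s => θ * s * Real.exp (θ * s)) s := by
    filter_upwards [weibull_ae_pos ha0 hμ] with s hs
    exact Set.indicator_apply_nonneg (fun _ => by positivity)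
  have hint : Integrable ((Set.Iic (b * x)).indicator fun s => θ * s * Real.exp (θ * s)) μ := by
    apply Integrable.mono' hg
    · exact (by fun_prop : Measurable fun s : ℝ =>
        θ * s * Real.exp (θ * s)).aestronglyMeasurable.indicator measurableSet_Iic
    · filter_upwards [hle, hnn] with s hs hs0
      rw [Real.norm_of_nonneg hs0]
      exact hs
  refine ⟨hint, ?_⟩
  refine (integral_mono_ae hint hg hle).trans (le_of_eq ?_)
  rw [integral_add, integral_const_mul, integral_const_mul]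
  · simp [wkC]
  · exact h1.const_mul θ
  · exact h2.const_mul _

/-- Laplace transform of a truncated interarrival time -/
lemma wk_nu (hν : ν (Set.Iio 0) = 0) {τ κ : ℝ} (hτ : 0 < τ) (hκ : 0 ≤ κ) :
    Integrable (fun t => Real.exp (-(κ * min t τ))) ν ∧
    ∫ t, Real.exp (-(κ * min t τ)) ∂ν ≤ 1 - κ * (∫ t, min t τ ∂ν) + κ ^ 2 * τ ^ 2 := by
  have h0 := ae_nonneg_of_Iio hν
  have hm := min_integrable (M := τ) hν hτ.le
  have hint : Integrable (fun t => Real.exp (-(κ * min t τ))) ν := by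
    apply Integrable.mono' (g := fun _ => (1 : ℝ)) (integrable_const _) (by fun_prop)
    filter_upwards [h0] with t ht
    rw [Real.norm_of_nonneg (Real.exp_pos _).le, Real.exp_le_one_iff]
    have : 0 ≤ min t τ := le_min ht hτ.le
    have := mul_nonneg hκ this
    linarith
  refine ⟨hint, ?_⟩
  have hg : Integrable (fun t => 1 - κ * min t τ + κ ^ 2 * τ ^ 2) ν :=
    ((integrable_const _).sub (hm.const_mul κ)).add (integrable_const _)
  have hle : ∀ᵐ t ∂ν, Real.exp (-(κ * min t τ)) ≤ 1 - κ * min t τ + κ ^ 2 * τ ^ 2 := by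
    filter_upwards [h0] with t ht
    have h1 : 0 ≤ min t τ := le_min ht hτ.le
    have h2 : min t τ ≤ τ := min_le_right _ _
    have h3 := mul_nonneg hκ h1
    have h4 := exp_le_quadratic (z := -(κ * min t τ)) (by linarith)
    have h5 : (min t τ) ^ 2 ≤ τ ^ 2 := by gcongr
    have h6 : κ ^ 2 * (min t τ) ^ 2 ≤ κ ^ 2 * τ ^ 2 := by gcongr
    have h7 : (-(κ * min t τ)) ^ 2 = κ ^ 2 * (min t τ) ^ 2 := by ring
    rw [h7] at h4
    linarith
  refine (integral_mono_ae hint hg hle).trans (le_of_eq ?_)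
  rw [integral_add, integral_sub, integral_const_mul]
  · simp
  · exact integrable_const _
  · exact hm.const_mul κ
  · exact (integrable_const _).sub (hm.const_mul κ)
  · exact integrable_const _

lemma wk_hazard (ha0 : 0 < a) (ha1 : a < 1) {P : ℝ → Prop} (h : ∀ᶠ y in 𝓝[>] (0 : ℝ), P y) :
    ∀ᶠ x : ℝ in atTop, P (a * x ^ (a - 1)) := by
  have h1 : Tendsto (fun x : ℝ => a * x ^ (a - 1)) atTop (𝓝[>] 0) := by
    apply tendsto_nhdsWithin_of_tendsto_nhds_of_eventually_within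
    · have h2 := (tendsto_rpow_neg_atTop (y := 1 - a) (by linarith)).const_mul a
      rw [mul_zero] at h2
      refine h2.congr fun x => ?_
      congr 2
      ring
    · filter_upwards [eventually_gt_atTop 0] with x hx
      exact Set.mem_Ioi.mpr (by positivity)
  exact h1.eventually h

/-- geometric sums -/
lemma wk_geom {φ : ℝ} (h0 : 0 ≤ φ) (h1 : φ < 1) (N : ℕ) :
    ∑ n ∈ Finset.range N, φ ^ n ≤ 1 / (1 - φ) := by
  have h2 : HasSum (fun n : ℕ => φ ^ n) (1 - φ)⁻¹ := hasSum_geometric_of_lt_one h0 h1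
  have h3 := h2.summable.sum_le_tsum (Finset.range N) (fun n _ => by positivity)
  rw [h2.tsum_eq] at h3
  rw [one_div]; exact h3

lemma wk_geom2 {φ : ℝ} (h0 : 0 ≤ φ) (h1 : φ < 1) (N : ℕ) :
    ∑ n ∈ Finset.range N, (n : ℝ) * φ ^ (n - 1) ≤ 1 / (1 - φ) ^ 2 := by
  have key : ∀ N : ℕ, ∑ n ∈ Finset.range N, (n : ℝ) * φ ^ (n - 1) * (1 - φ) ≤
      ∑ n ∈ Finset.range N, φ ^ n := by
    intro N
    have e : ∀ N : ℕ, ∑ n ∈ Finset.range (N + 1), (n : ℝ) * φ ^ (n - 1) * (1 - φ) =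
        ∑ n ∈ Finset.range N, φ ^ n - N * φ ^ N := by
      intro N
      induction N with
      | zero => simp
      | succ N ih =>
        rw [Finset.sum_range_succ, ih, Finset.sum_range_succ]
        push_cast
        ring
    cases N with
    | zero => simp
    | succ N =>
      rw [e N, Finset.sum_range_succ]
      have : 0 ≤ (N : ℝ) * φ ^ N := by positivity
      have : 0 ≤ φ ^ N := by positivity
      linarith
  have h4 : 0 < 1 - φ := by linarith
  have h5 := (key N).trans (wk_geom h0 h1 N)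
  rw [← Finset.sum_mul] at h5
  rw [le_div_iff₀ (by positivity)]
  rw [le_div_iff₀ h4] at h5
  calc (∑ n ∈ Finset.range N, (n : ℝ) * φ ^ (n - 1)) * (1 - φ) ^ 2
      = (∑ n ∈ Finset.range N, (n : ℝ) * φ ^ (n - 1)) * (1 - φ) * (1 - φ) := by ring
    _ ≤ 1 := h5

end base

end Pool.Agent.Lib.MP_04add8_pr
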