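import Mathlib
import Pool.Agent.Lib.MP_04add8_pr.Two.Defs

open MeasureTheory ProbabilityTheory Filter Topology
open scoped ENNReal

set_option linter.unusedSectionVars false

namespace Pool.Agent.Lib.MP_04add8_pr

lemma cm_exp_le {y : ℝ} (hy : 0 ≤ y) : Real.exp y ≤ 1 + y + y ^ 2 * Real.exp y := by
  have h1 : 1 - y ≤ Real.exp (-y) := by
    have := Real.add_one_le_exp (-y)
    linarith
  have h2 : (1 + y) * (1 - y) ≤ (1 + y) * Real.exp (-y) :=
    mul_le_mul_of_nonneg_left h1 (by linarith)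
  have h3 : 1 ≤ (1 + y) * Real.exp (-y) + y ^ 2 := by nlinarith
  have h4 := mul_le_mul_of_nonneg_right h3 (Real.exp_pos y).le
  have h5 : ((1 + y) * Real.exp (-y) + y ^ 2) * Real.exp y = (1 + y) + y ^ 2 * Real.exp y := by
    have : Real.exp (-y) * Real.exp y = 1 := by rw [← Real.exp_add]; simp
    calc ((1 + y) * Real.exp (-y) + y ^ 2) * Real.exp y
        = (1 + y) * (Real.exp (-y) * Real.exp y) + y ^ 2 * Real.exp y := by ring
      _ = _ := by rw [this]; ring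
  rw [h5] at h4
  linarith

/-- pointwise bound for the exponential of the cost of one job -/
lemma cm_pointwise {a : ℝ} (ha0 : 0 < a) (ha1 : a < 1)
    {b : ℝ} (hb : 0 < b) (hb4 : 4 * b ^ (1 - a) ≤ 1 / 2) {lam : ℝ} (hl0 : 0 < lam)
    (hl1 : lam < 1) :
    ∃ C2 : ℝ, 0 ≤ C2 ∧ ∀ x : ℝ, 1 ≤ x → ∀ s : ℝ, 0 < s →
      Real.exp (lam * jcost a (b * x) x s) ≤ 1 + 4 * x ^ (a - 1) * s +
        (x ^ (a - 1)) ^ 2 * (16 * (s ^ 2 * Real.exp (1 / 2 * s ^ a)) +
          C2 * Real.exp ((1 + lam) / 2 * s ^ a)) := by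
  set p : ℝ := 2 * (1 - a) / a with hp
  set c : ℝ := (1 - lam) / 2 with hc
  have hp0 : 0 < p := by
    have : 0 < 1 - a := by linarith
    positivity
  have hc0 : 0 < c := by rw [hc]; linarith
  refine ⟨b ^ (-(2 * (1 - a))) * (p / c) ^ p, by positivity, ?_⟩
  intro x hx s hs
  have hx0 : 0 < x := by linarith
  have hxa : 0 < x ^ (a - 1) := Real.rpow_pos_of_pos hx0 _
  have hsa : 0 < s ^ a := Real.rpow_pos_of_pos hs _
  have hE1 : 0 < Real.exp (1 / 2 * s ^ a) := Real.exp_pos _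
  have hE2 : 0 < Real.exp ((1 + lam) / 2 * s ^ a) := Real.exp_pos _
  set C2 : ℝ := b ^ (-(2 * (1 - a))) * (p / c) ^ p with hC2
  have hC20 : 0 ≤ C2 := by positivity
  unfold jcost
  split_ifs with h
  · -- small job
    set y : ℝ := 4 * x ^ (a - 1) * s with hy
    have hy0 : 0 ≤ y := by positivity
    have hy1 : y ≤ 1 / 2 * s ^ a := by
      have e1 : s = s ^ (1 - a) * s ^ a := by
        rw [← Real.rpow_add hs]; simp
      have e2 : s ^ (1 - a) ≤ (b * x) ^ (1 - a) :=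
        Real.rpow_le_rpow hs.le h (by linarith)
      have e3 : (b * x) ^ (1 - a) = b ^ (1 - a) * x ^ (1 - a) := Real.mul_rpow hb.le hx0.le
      have e4 : x ^ (a - 1) * x ^ (1 - a) = 1 := by
        rw [← Real.rpow_add hx0]; simp
      calc y = 4 * x ^ (a - 1) * (s ^ (1 - a) * s ^ a) := by rw [hy, ← e1]
        _ ≤ 4 * x ^ (a - 1) * ((b ^ (1 - a) * x ^ (1 - a)) * s ^ a) := by
          rw [← e3]
          gcongr
        _ = (4 * b ^ (1 - a)) * (x ^ (a - 1) * x ^ (1 - a)) * s ^ a := by ring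
        _ ≤ 1 / 2 * s ^ a := by
          rw [e4, mul_one]
          exact mul_le_mul_of_nonneg_right hb4 hsa.le
    have h1 : Real.exp (lam * y) ≤ Real.exp y := by
      apply Real.exp_le_exp.mpr
      nlinarith
    have h2 := cm_exp_le hy0
    have h3 : y ^ 2 * Real.exp y ≤ y ^ 2 * Real.exp (1 / 2 * s ^ a) := by
      apply mul_le_mul_of_nonneg_left _ (sq_nonneg y)
      exact Real.exp_le_exp.mpr hy1
    have h4 : y ^ 2 * Real.exp (1 / 2 * s ^ a) =
        (x ^ (a - 1)) ^ 2 * (16 * (s ^ 2 * Real.exp (1 / 2 * s ^ a))) := by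
      rw [hy]; ring
    have h5 : 0 ≤ (x ^ (a - 1)) ^ 2 * (C2 * Real.exp ((1 + lam) / 2 * s ^ a)) := by positivity
    have h6 : (x ^ (a - 1)) ^ 2 * (16 * (s ^ 2 * Real.exp (1 / 2 * s ^ a)) +
          C2 * Real.exp ((1 + lam) / 2 * s ^ a)) =
        (x ^ (a - 1)) ^ 2 * (16 * (s ^ 2 * Real.exp (1 / 2 * s ^ a))) +
        (x ^ (a - 1)) ^ 2 * (C2 * Real.exp ((1 + lam) / 2 * s ^ a)) := by ring
    rw [h6]
    linarith
  · -- big job
    push Not at h
    have hbx : 0 < b * x := by positivity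
    have h1 : (b * x) ^ a ≤ s ^ a := Real.rpow_le_rpow hbx.le h.le ha0.le
    have h2 : Real.exp (lam * s ^ a) ≤
        Real.exp (-(c * (b * x) ^ a)) * Real.exp ((1 + lam) / 2 * s ^ a) := by
      rw [← Real.exp_add]
      apply Real.exp_le_exp.mpr
      have : c * (b * x) ^ a ≤ c * s ^ a := mul_le_mul_of_nonneg_left h1 hc0.le
      have e : lam * s ^ a = -(c * s ^ a) + (1 + lam) / 2 * s ^ a := by rw [hc]; ring
      rw [e]; linarith
    have h3 : Real.exp (-(c * (b * x) ^ a)) ≤ C2 * (x ^ (a - 1)) ^ 2 := by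
      have e1 := rpow_le_exp (p := p) (c := c) (u := (b * x) ^ a) hp0 hc0 (by positivity)
      have e2 : ((b * x) ^ a) ^ p = b ^ (2 * (1 - a)) * x ^ (2 * (1 - a)) := by
        rw [← Real.rpow_mul hbx.le]
        have : a * p = 2 * (1 - a) := by rw [hp]; field_simp
        rw [this, Real.mul_rpow hb.le hx0.le]
      rw [e2] at e1
      have e3 : (x ^ (a - 1)) ^ 2 * x ^ (2 * (1 - a)) = 1 := by
        rw [← Real.rpow_natCast, ← Real.rpow_mul hx0.le, ← Real.rpow_add hx0]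
        have : (a - 1) * ((2 : ℕ) : ℝ) + 2 * (1 - a) = 0 := by push_cast; ring
        rw [this, Real.rpow_zero]
      have e4 : b ^ (-(2 * (1 - a))) * b ^ (2 * (1 - a)) = 1 := by
        rw [← Real.rpow_add hb]; simp
      have e5 : 0 ≤ b ^ (-(2 * (1 - a))) * (x ^ (a - 1)) ^ 2 := by positivity
      have e6 := mul_le_mul_of_nonneg_left e1 e5
      have e7 : b ^ (-(2 * (1 - a))) * (x ^ (a - 1)) ^ 2 * (b ^ (2 * (1 - a)) * x ^ (2 * (1 - a)))
          = 1 := by
        calc _ = (b ^ (-(2 * (1 - a))) * b ^ (2 * (1 - a))) *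
              ((x ^ (a - 1)) ^ 2 * x ^ (2 * (1 - a))) := by ring
          _ = 1 := by rw [e3, e4]; ring
      rw [e7] at e6
      have e8 : b ^ (-(2 * (1 - a))) * (x ^ (a - 1)) ^ 2 * ((p / c) ^ p *
          Real.exp (c * (b * x) ^ a)) = C2 * (x ^ (a - 1)) ^ 2 * Real.exp (c * (b * x) ^ a) := by
        rw [hC2]; ring
      rw [e8] at e6
      have e9 := mul_le_mul_of_nonneg_right e6 (Real.exp_pos (-(c * (b * x) ^ a))).le
      have e10 : C2 * (x ^ (a - 1)) ^ 2 * Real.exp (c * (b * x) ^ a) *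
          Real.exp (-(c * (b * x) ^ a)) = C2 * (x ^ (a - 1)) ^ 2 := by
        rw [mul_assoc, ← Real.exp_add]; simp
      rw [e10, one_mul] at e9
      exact e9
    have h4 : Real.exp (-(c * (b * x) ^ a)) * Real.exp ((1 + lam) / 2 * s ^ a) ≤
        C2 * (x ^ (a - 1)) ^ 2 * Real.exp ((1 + lam) / 2 * s ^ a) :=
      mul_le_mul_of_nonneg_right h3 hE2.le
    have h5 : 0 ≤ (x ^ (a - 1)) ^ 2 * (16 * (s ^ 2 * Real.exp (1 / 2 * s ^ a))) := by positivity
    have h6 : 0 ≤ 4 * x ^ (a - 1) * s := by positivity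
    have h7 : (x ^ (a - 1)) ^ 2 * (16 * (s ^ 2 * Real.exp (1 / 2 * s ^ a)) +
          C2 * Real.exp ((1 + lam) / 2 * s ^ a)) =
        (x ^ (a - 1)) ^ 2 * (16 * (s ^ 2 * Real.exp (1 / 2 * s ^ a))) +
        C2 * (x ^ (a - 1)) ^ 2 * Real.exp ((1 + lam) / 2 * s ^ a) := by ring
    rw [h7]
    linarith

section stoch

variable {a : ℝ} {μ ν : Measure ℝ} [IsProbabilityMeasure μ] [IsProbabilityMeasure ν]

lemma cm_measurable_jcost (a B x : ℝ) : Measurable (jcost a B x) := by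
  unfold jcost
  refine Measurable.ite measurableSet_Iic (by fun_prop) (by fun_prop)

lemma cm_integrable_sq (ha0 : 0 < a)
    (hμ : ∀ x, 0 ≤ x → μ (Set.Ioi x) = ENNReal.ofReal (Real.exp (-(x ^ a)))) :
    Integrable (fun s : ℝ => s ^ 2 * Real.exp (1 / 2 * s ^ a)) μ := by
  have hpa : 0 < 2 / a := by positivity
  apply Integrable.mono' (g := fun s => ((2 / a) / (1 / 4)) ^ (2 / a) *
    Real.exp ((3 / 4) * s ^ a))
  · apply Integrable.const_mul
    exact weibull_integrable_exp ha0 hμ (by norm_num) (by norm_num)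
  · fun_prop
  · filter_upwards [weibull_ae_pos ha0 hμ] with s hs
    rw [Real.norm_of_nonneg (by positivity)]
    have h1 := rpow_le_exp (p := 2 / a) (c := 1 / 4) (u := s ^ a) hpa (by norm_num)
      (by positivity)
    have h2 : (s ^ a) ^ (2 / a) = s ^ 2 := by
      rw [← Real.rpow_mul hs.le, mul_div_cancel₀ _ ha0.ne']
      norm_num
    rw [h2] at h1
    calc s ^ 2 * Real.exp (1 / 2 * s ^ a)
        ≤ ((2 / a / (1 / 4)) ^ (2 / a) * Real.exp (1 / 4 * s ^ a)) *
          Real.exp (1 / 2 * s ^ a) :=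
          mul_le_mul_of_nonneg_right h1 (Real.exp_pos _).le
      _ = (2 / a / (1 / 4)) ^ (2 / a) * Real.exp (3 / 4 * s ^ a) := by
          rw [mul_assoc, ← Real.exp_add]
          congr 2
          ring

/-- one-job exponential moment -/
lemma cm_one (ha0 : 0 < a) (ha1 : a < 1)
    (hμ : ∀ x, 0 ≤ x → μ (Set.Ioi x) = ENNReal.ofReal (Real.exp (-(x ^ a))))
    {b : ℝ} (hb : 0 < b) (hb4 : 4 * b ^ (1 - a) ≤ 1 / 2) {lam : ℝ} (hl0 : 0 < lam)
    (hl1 : lam < 1) :
    ∃ C1 : ℝ, 0 ≤ C1 ∧ ∀ x : ℝ, 1 ≤ x →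
      ∫⁻ s, ENNReal.ofReal (Real.exp (lam * jcost a (b * x) x s)) ∂μ ≤
        ENNReal.ofReal (Real.exp (4 * (∫ s, s ∂μ) * x ^ (a - 1) + C1 * (x ^ (a - 1)) ^ 2)) := by
  obtain ⟨C2, hC20, hC2⟩ := cm_pointwise ha0 ha1 hb hb4 hl0 hl1
  have hpos := weibull_ae_pos ha0 hμ
  have hI1 : Integrable (fun s : ℝ => s ^ 2 * Real.exp (1 / 2 * s ^ a)) μ :=
    cm_integrable_sq ha0 hμ
  have hI2 : Integrable (fun s : ℝ => Real.exp ((1 + lam) / 2 * s ^ a)) μ :=
    weibull_integrable_exp ha0 hμ (by linarith) (by linarith)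
  have hI0 : Integrable (fun s : ℝ => s) μ := by
    have := weibull_integrable_pow ha0 hμ 1 one_pos
    simpa using this
  have hIG : Integrable (fun s : ℝ => 16 * (s ^ 2 * Real.exp (1 / 2 * s ^ a)) +
          C2 * Real.exp ((1 + lam) / 2 * s ^ a)) μ := (hI1.const_mul 16).add (hI2.const_mul C2)
  refine ⟨∫ s, (16 * (s ^ 2 * Real.exp (1 / 2 * s ^ a)) +
          C2 * Real.exp ((1 + lam) / 2 * s ^ a)) ∂μ, ?_, ?_⟩
  · apply integral_nonneg_of_ae
    filter_upwards with s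
    have : 0 ≤ s ^ 2 := sq_nonneg s
    have h1 := Real.exp_pos (1 / 2 * s ^ a)
    have h2 := Real.exp_pos ((1 + lam) / 2 * s ^ a)
    simp only [Pi.zero_apply]
    positivity
  · intro x hx
    have hx0 : 0 < x := by linarith
    have hIall : Integrable (fun s : ℝ => 1 + 4 * x ^ (a - 1) * s +
        (x ^ (a - 1)) ^ 2 * (16 * (s ^ 2 * Real.exp (1 / 2 * s ^ a)) +
          C2 * Real.exp ((1 + lam) / 2 * s ^ a))) μ :=
      ((integrable_const 1).add (hI0.const_mul _)).add (hIG.const_mul _)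
    have hle : ∫⁻ s, ENNReal.ofReal (Real.exp (lam * jcost a (b * x) x s)) ∂μ ≤
        ∫⁻ s, ENNReal.ofReal (1 + 4 * x ^ (a - 1) * s +
        (x ^ (a - 1)) ^ 2 * (16 * (s ^ 2 * Real.exp (1 / 2 * s ^ a)) +
          C2 * Real.exp ((1 + lam) / 2 * s ^ a))) ∂μ := by
      apply lintegral_mono_ae
      filter_upwards [hpos] with s hs
      exact ENNReal.ofReal_le_ofReal (hC2 x hx s hs)
    refine hle.trans ?_
    rw [← ofReal_integral_eq_lintegral_ofReal hIall]
    · apply ENNReal.ofReal_le_ofReal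
      have e1 : ∫ s, (1 + 4 * x ^ (a - 1) * s +
        (x ^ (a - 1)) ^ 2 * (16 * (s ^ 2 * Real.exp (1 / 2 * s ^ a)) +
          C2 * Real.exp ((1 + lam) / 2 * s ^ a))) ∂μ =
          1 + 4 * x ^ (a - 1) * (∫ s, s ∂μ) + (x ^ (a - 1)) ^ 2 *
            ∫ s, (16 * (s ^ 2 * Real.exp (1 / 2 * s ^ a)) +
          C2 * Real.exp ((1 + lam) / 2 * s ^ a)) ∂μ := by
        have i1 := integral_add (μ := μ) (f := fun s : ℝ => 1 + 4 * x ^ (a - 1) * s)
          (g := fun s : ℝ => (x ^ (a - 1)) ^ 2 * (16 * (s ^ 2 * Real.exp (1 / 2 * s ^ a)) +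
          C2 * Real.exp ((1 + lam) / 2 * s ^ a)))
          ((integrable_const 1).add (hI0.const_mul _)) (hIG.const_mul _)
        have i2 := integral_add (μ := μ) (f := fun _ : ℝ => (1 : ℝ))
          (g := fun s : ℝ => 4 * x ^ (a - 1) * s) (integrable_const 1) (hI0.const_mul _)
        rw [i1, i2, integral_const_mul, integral_const_mul]
        simp
      rw [e1]
      have e2 := Real.add_one_le_exp (4 * (∫ s, s ∂μ) * x ^ (a - 1) +
        (∫ s, (16 * (s ^ 2 * Real.exp (1 / 2 * s ^ a)) +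
          C2 * Real.exp ((1 + lam) / 2 * s ^ a)) ∂μ) * (x ^ (a - 1)) ^ 2)
      linarith
    · filter_upwards [hpos] with s hs
      simp only [Pi.zero_apply]
      exact (Real.exp_pos _).le.trans (hC2 x hx s hs)

/-- product formula, as an inequality -/
lemma cm_prod {g : ℝ → ℝ≥0∞} (hg : Measurable g) (N : ℕ) :
    ∫⁻ z, ∏ k ∈ Finset.range N, g (z k).1 ∂(noise μ ν) = (∫⁻ s, g s ∂μ) ^ N := by
  induction N with
  | zero => simp
  | succ N ih =>
    have hm : Measurable (fun z : ℕ → ℝ × ℝ => ∏ k ∈ Finset.range (N + 1), g (z k).1) := by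
      apply Finset.measurable_prod
      intro k _
      exact hg.comp (measurable_fst.comp (measurable_pi_apply k))
    rw [lintegral_noise_cons hm]
    have hm' : Measurable (fun z : ℕ → ℝ × ℝ => ∏ k ∈ Finset.range N, g (z k).1) := by
      apply Finset.measurable_prod
      intro k _
      exact hg.comp (measurable_fst.comp (measurable_pi_apply k))
    have h1 : ∀ p : ℝ × ℝ, ∫⁻ z, ∏ k ∈ Finset.range (N + 1), g (gcons p z k).1 ∂(noise μ ν) =
        g p.1 * (∫⁻ s, g s ∂μ) ^ N := by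
      intro p
      have e : ∀ z : ℕ → ℝ × ℝ, ∏ k ∈ Finset.range (N + 1), g (gcons p z k).1 =
          g p.1 * ∏ k ∈ Finset.range N, g (z k).1 := by
        intro z
        rw [Finset.prod_range_succ', mul_comm]
        rfl
      simp only [e]
      rw [lintegral_const_mul _ hm', ih]
    simp only [h1]
    have h2 : Measurable (fun p : ℝ × ℝ => g p.1) := hg.comp measurable_fst
    rw [lintegral_mul_const _ h2, lintegral_prod _ h2.aemeasurable]
    simp only [lintegral_const, measure_univ, mul_one]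
    rw [pow_succ, mul_comm]

theorem cost_markov (ha0 : 0 < a) (ha1 : a < 1)
    (hμ : ∀ x, 0 ≤ x → μ (Set.Ioi x) = ENNReal.ofReal (Real.exp (-(x ^ a))))
    {b : ℝ} (hb : 0 < b) (hb4 : 4 * b ^ (1 - a) ≤ 1 / 2) {lam : ℝ} (hl0 : 0 < lam)
    (hl1 : lam < 1) :
    ∃ C1 : ℝ, 0 ≤ C1 ∧ ∀ x : ℝ, 1 ≤ x → ∀ (N : ℕ) (y : ℝ),
      (noise μ ν) {z | y ≤ ∑ k ∈ Finset.range N, jcost a (b * x) x (z k).1} ≤
        ENNReal.ofReal (Real.exp (-(lam * y) +
          N * (4 * (∫ s, s ∂μ) * x ^ (a - 1) + C1 * (x ^ (a - 1)) ^ 2))) := by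
  obtain ⟨C1, hC10, hC1⟩ := cm_one ha0 ha1 hμ hb hb4 hl0 hl1
  refine ⟨C1, hC10, ?_⟩
  intro x hx N y
  set g : ℝ → ℝ≥0∞ := fun s => ENNReal.ofReal (Real.exp (lam * jcost a (b * x) x s)) with hg
  have hgm : Measurable g := by
    have := cm_measurable_jcost a (b * x) x
    have h2 : Measurable (fun s => Real.exp (lam * jcost a (b * x) x s)) := by fun_prop
    exact h2.ennreal_ofReal
  have hprod : ∀ z : ℕ → ℝ × ℝ, ∏ k ∈ Finset.range N, g (z k).1 =
      ENNReal.ofReal (Real.exp (lam * ∑ k ∈ Finset.range N, jcost a (b * x) x (z k).1)) := by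
    intro z
    rw [hg]
    simp only
    rw [← ENNReal.ofReal_prod_of_nonneg (fun i _ => (Real.exp_pos _).le), ← Real.exp_sum,
      Finset.mul_sum]
  have hmP : Measurable (fun z : ℕ → ℝ × ℝ => ∏ k ∈ Finset.range N, g (z k).1) := by
    apply Finset.measurable_prod
    intro k _
    exact hgm.comp (measurable_fst.comp (measurable_pi_apply k))
  have hsub : {z : ℕ → ℝ × ℝ | y ≤ ∑ k ∈ Finset.range N, jcost a (b * x) x (z k).1} ⊆
      {z | ENNReal.ofReal (Real.exp (lam * y)) ≤ ∏ k ∈ Finset.range N, g (z k).1} := by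
    intro z hz
    simp only [Set.mem_ofPred_eq] at hz ⊢
    rw [hprod z]
    apply ENNReal.ofReal_le_ofReal
    apply Real.exp_le_exp.mpr
    exact mul_le_mul_of_nonneg_left hz hl0.le
  have hmk := mul_meas_ge_le_lintegral (μ := noise μ ν) hmP (ENNReal.ofReal (Real.exp (lam * y)))
  rw [cm_prod hgm N] at hmk
  have hle : (∫⁻ s, g s ∂μ) ^ N ≤ ENNReal.ofReal (Real.exp (N * (4 * (∫ s, s ∂μ) * x ^ (a - 1) +
      C1 * (x ^ (a - 1)) ^ 2))) := by
    calc (∫⁻ s, g s ∂μ) ^ N ≤ (ENNReal.ofReal (Real.exp (4 * (∫ s, s ∂μ) * x ^ (a - 1) +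
          C1 * (x ^ (a - 1)) ^ 2))) ^ N := by
          gcongr
          exact hC1 x hx
      _ = _ := by
          rw [← ENNReal.ofReal_pow (Real.exp_pos _).le, ← Real.exp_nat_mul]
  have hstep : ENNReal.ofReal (Real.exp (-(lam * y))) * (ENNReal.ofReal (Real.exp (lam * y)) *
      (noise μ ν) {z | ENNReal.ofReal (Real.exp (lam * y)) ≤
        ∏ k ∈ Finset.range N, g (z k).1}) ≤
      ENNReal.ofReal (Real.exp (-(lam * y))) * ENNReal.ofReal (Real.exp (N *
        (4 * (∫ s, s ∂μ) * x ^ (a - 1) + C1 * (x ^ (a - 1)) ^ 2))) := by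
    gcongr
    exact hmk.trans hle
  rw [← mul_assoc, ← ENNReal.ofReal_mul (Real.exp_pos _).le, ← Real.exp_add,
    ← ENNReal.ofReal_mul (Real.exp_pos _).le, ← Real.exp_add] at hstep
  simp only [neg_add_cancel, Real.exp_zero, ENNReal.ofReal_one, one_mul] at hstep
  exact (measure_mono hsub).trans hstep

end stoch

end Pool.Agent.Lib.MP_04add8_pr
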