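import Mathlib
import Pool.Agent.Lib.MP_04add8_pr.Weibull
import Pool.Agent.Lib.MP_04add8_pr.Two.Defs

/-!
Module Det2: the covering of the event that both workloads are large by four events
(excursion, huge workload, large total cost of the jobs, two big jobs).
-/

open MeasureTheory ProbabilityTheory Filter Topology
open scoped ENNReal

set_option linter.unusedSectionVars false

namespace Pool.Agent.Lib.MP_04add8_pr

/-! ### powers -/

lemma det2_incr {a m p q : ℝ} (ha0 : 0 < a) (ha1 : a < 1) (hm : 0 ≤ m) (hp : m ≤ p)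
    (hq : 0 ≤ q) : (p + q) ^ a + m ^ a ≤ p ^ a + (m + q) ^ a := by
  have hc : ConcaveOn ℝ (Set.Ici 0) (fun x : ℝ => x ^ a) := Real.concaveOn_rpow ha0.le ha1.le
  rcases (add_nonneg (sub_nonneg.2 hp) hq).eq_or_lt with h0 | h0
  · have h1 : p - m = 0 := by nlinarith [sub_nonneg.2 hp]
    have h2 : q = 0 := by linarith
    have h3 : p = m := by linarith
    subst h3; subst h2; simp
  · set t : ℝ := (p - m) / (p - m + q) with ht
    have ht0 : 0 ≤ t := div_nonneg (sub_nonneg.2 hp) h0.le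
    have ht1 : t ≤ 1 := by
      rw [ht, div_le_one h0]; linarith
    have e1 : (1 - t) * m + t * (p + q) = p := by
      rw [ht]; field_simp; ring
    have e2 : t * m + (1 - t) * (p + q) = m + q := by
      rw [ht]; field_simp; ring
    have hpq : (0 : ℝ) ≤ p + q := by linarith
    have c1 := hc.2 (x := m) (y := p + q) hm hpq (sub_nonneg.2 ht1) ht0 (by ring)
    have c2 := hc.2 (x := m) (y := p + q) hm hpq ht0 (sub_nonneg.2 ht1) (by ring)
    simp only [smul_eq_mul] at c1 c2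
    rw [e1] at c1
    rw [e2] at c2
    linarith

lemma det2_two {a m p q : ℝ} (ha0 : 0 < a) (ha1 : a < 1) (hm : 0 ≤ m) (hp : m ≤ p)
    (hq : m ≤ q) : (p + q) ^ a + (2 - 2 ^ a) * m ^ a ≤ p ^ a + q ^ a := by
  have h1 := det2_incr ha0 ha1 hm hp (hm.trans hq)
  have h2 := det2_incr (p := q) (q := m) ha0 ha1 hm hq hm
  have h3 : (m + m) ^ a = 2 ^ a * m ^ a := by
    rw [← two_mul, Real.mul_rpow (by norm_num) hm]
  rw [h3] at h2
  have h4 : m + q = q + m := add_comm _ _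
  rw [h4] at h1
  linarith

lemma det2_sum_rpow {a : ℝ} (ha0 : 0 < a) (ha1 : a < 1) {s : ℕ → ℝ} (hs : ∀ k, 0 ≤ s k)
    (A : Finset ℕ) : (∑ i ∈ A, s i) ^ a ≤ ∑ i ∈ A, s i ^ a := by
  classical
  induction A using Finset.induction_on with
  | empty => simp [Real.zero_rpow ha0.ne']
  | insert i A hi ih =>
    rw [Finset.sum_insert hi, Finset.sum_insert hi]
    exact (rpow_add_le_add ha0 ha1 (hs i) (Finset.sum_nonneg fun k _ => hs k)).trans
      (by linarith)

lemma det2_chord {a X S u : ℝ} (ha0 : 0 < a) (ha1 : a < 1) (hX : 0 < X) (hS : 0 ≤ S)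
    (hu : 0 ≤ u) (h : X ≤ S + u) : X ^ a - X ^ (a - 1) * u ≤ S ^ a := by
  have e1 : X ^ (a - 1) * X = X ^ a := by
    rw [Real.rpow_sub_one hX.ne']; field_simp
  rcases le_total X u with h1 | h1
  · have h2 : X ^ a ≤ X ^ (a - 1) * u := by
      rw [← e1]
      exact mul_le_mul_of_nonneg_left h1 (Real.rpow_nonneg hX.le _)
    have h3 : 0 ≤ S ^ a := Real.rpow_nonneg hS _
    linarith
  · have h2 : (X - u) ^ a ≤ S ^ a := Real.rpow_le_rpow (by linarith) (by linarith) ha0.le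
    have hc : ConcaveOn ℝ (Set.Ici 0) (fun x : ℝ => x ^ a) :=
      Real.concaveOn_rpow ha0.le ha1.le
    have hr0 : 0 ≤ u / X := div_nonneg hu hX.le
    have hr1 : u / X ≤ 1 := by rw [div_le_one hX]; exact h1
    have c1 := hc.2 (x := 0) (y := X) (le_refl (0 : ℝ)) hX.le hr0 (sub_nonneg.2 hr1) (by ring)
    simp only [smul_eq_mul, mul_zero, zero_add, Real.zero_rpow ha0.ne'] at c1
    have e2 : (1 - u / X) * X = X - u := by field_simp
    have e3 : (1 - u / X) * X ^ a = X ^ a - X ^ (a - 1) * u := by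
      rw [← e1]; field_simp
    rw [e2, e3] at c1
    linarith

/-! ### cost of a set of jobs -/

/-- small jobs of a set -/
noncomputable def det2_small (B : ℝ) (s : ℕ → ℝ) (A : Finset ℕ) : Finset ℕ := A.filter (s · ≤ B)

/-- big jobs of a set -/
noncomputable def det2_big (B : ℝ) (s : ℕ → ℝ) (A : Finset ℕ) : Finset ℕ := A.filter (¬ s · ≤ B)

lemma det2_split (B : ℝ) (s f : ℕ → ℝ) (A : Finset ℕ) :
    ∑ i ∈ A, f i = ∑ i ∈ det2_small B s A, f i + ∑ i ∈ det2_big B s A, f i :=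
  (Finset.sum_filter_add_sum_filter_not A (s · ≤ B) f).symm

lemma det2_cost (a B x : ℝ) (s : ℕ → ℝ) (A : Finset ℕ) :
    ∑ i ∈ A, jcost a B x (s i) =
      4 * x ^ (a - 1) * ∑ i ∈ det2_small B s A, s i + ∑ i ∈ det2_big B s A, s i ^ a := by
  rw [det2_split B s, Finset.mul_sum]
  congr 1
  · apply Finset.sum_congr rfl
    intro i hi
    have := (Finset.mem_filter.1 hi).2
    rw [jcost, if_pos this]
  · apply Finset.sum_congr rfl
    intro i hi
    have := (Finset.mem_filter.1 hi).2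
    rw [jcost, if_neg this]

lemma det2_one {a B x X E : ℝ} (ha0 : 0 < a) (ha1 : a < 1) (hx : 0 < x) (hX : x / 2 ≤ X)
    {s : ℕ → ℝ} (hs : ∀ k, 0 ≤ s k) {A : Finset ℕ} (hA : X ≤ ∑ i ∈ A, s i)
    (hE : (∑ i ∈ det2_big B s A, s i) ^ a + E ≤ ∑ i ∈ det2_big B s A, s i ^ a) :
    X ^ a + 2 * x ^ (a - 1) * ∑ i ∈ det2_small B s A, s i + E ≤
      ∑ i ∈ A, jcost a B x (s i) := by
  have hX0 : 0 < X := by linarith
  rw [det2_cost]
  set u := ∑ i ∈ det2_small B s A, s i with hu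
  set S := ∑ i ∈ det2_big B s A, s i with hS
  have hu0 : 0 ≤ u := Finset.sum_nonneg fun k _ => hs k
  have hS0 : 0 ≤ S := Finset.sum_nonneg fun k _ => hs k
  rw [det2_split B s] at hA
  have h1 := det2_chord ha0 ha1 hX0 hS0 hu0 (by linarith)
  have h2 : X ^ (a - 1) ≤ 2 * x ^ (a - 1) := by
    have h3 : X ^ (a - 1) ≤ (x / 2) ^ (a - 1) :=
      Real.rpow_le_rpow_of_nonpos (by linarith) hX (by linarith)
    have h4 : (x / 2) ^ (a - 1) = 2 ^ (1 - a) * x ^ (a - 1) := by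
      rw [div_eq_mul_inv, mul_comm, Real.mul_rpow (by norm_num) hx.le]
      congr 1
      rw [Real.inv_rpow (by norm_num), ← Real.rpow_neg (by norm_num)]
      congr 1
      ring
    have h5 : (2 : ℝ) ^ (1 - a) ≤ 2 := by
      calc (2 : ℝ) ^ (1 - a) ≤ 2 ^ (1 : ℝ) :=
            Real.rpow_le_rpow_of_exponent_le (by norm_num) (by linarith)
        _ = 2 := Real.rpow_one 2
    rw [h4] at h3
    exact h3.trans (mul_le_mul_of_nonneg_right h5 (Real.rpow_nonneg hx.le _))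
  have h3 : X ^ (a - 1) * u ≤ 2 * x ^ (a - 1) * u := mul_le_mul_of_nonneg_right h2 hu0
  linarith

lemma det2_one' {a B x X : ℝ} (ha0 : 0 < a) (ha1 : a < 1) (hx : 0 < x) (hX : x / 2 ≤ X)
    {s : ℕ → ℝ} (hs : ∀ k, 0 ≤ s k) {A : Finset ℕ} (hA : X ≤ ∑ i ∈ A, s i) :
    X ^ a + 2 * x ^ (a - 1) * ∑ i ∈ det2_small B s A, s i ≤ ∑ i ∈ A, jcost a B x (s i) := by
  have := det2_one (E := 0) ha0 ha1 hx hX hs hA
    (by rw [add_zero]; exact det2_sum_rpow ha0 ha1 hs (det2_big B s A))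
  linarith

lemma det2_one_big {a B x X : ℝ} (ha0 : 0 < a) (ha1 : a < 1) (hx : 0 < x) (hX : x / 2 ≤ X)
    (hB : 0 ≤ B) {s : ℕ → ℝ} (hs : ∀ k, 0 ≤ s k) {A : Finset ℕ} (hA : X ≤ ∑ i ∈ A, s i)
    (h2 : 1 < (det2_big B s A).card) :
    X ^ a + 2 * x ^ (a - 1) * ∑ i ∈ det2_small B s A, s i + (2 - 2 ^ a) * B ^ a ≤
      ∑ i ∈ A, jcost a B x (s i) := by
  classical
  apply det2_one ha0 ha1 hx hX hs hA
  obtain ⟨i, hi, j, hj, hij⟩ := Finset.one_lt_card.1 h2
  have hBi : B ≤ s i := (not_le.1 (Finset.mem_filter.1 hi).2).le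
  have hBj : B ≤ s j := (not_le.1 (Finset.mem_filter.1 hj).2).le
  have hj' : j ∈ (det2_big B s A).erase i := Finset.mem_erase.2 ⟨hij.symm, hj⟩
  have e : ∀ f : ℕ → ℝ, ∑ k ∈ det2_big B s A, f k =
      f i + (f j + ∑ k ∈ ((det2_big B s A).erase i).erase j, f k) := by
    intro f
    rw [← Finset.add_sum_erase _ f hi, ← Finset.add_sum_erase _ f hj']
  rw [e, e]
  set R := ∑ k ∈ ((det2_big B s A).erase i).erase j, s k with hR
  have hR0 : 0 ≤ R := Finset.sum_nonneg fun k _ => hs k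
  have h3 : R ^ a ≤ ∑ k ∈ ((det2_big B s A).erase i).erase j, s k ^ a :=
    det2_sum_rpow ha0 ha1 hs _
  have h4 := det2_two ha0 ha1 hB hBi hBj
  have h5 : (s i + (s j + R)) ^ a ≤ (s i + s j) ^ a + R ^ a := by
    rw [← add_assoc]
    exact rpow_add_le_add ha0 ha1 (add_nonneg (hs i) (hs j)) hR0
  linarith

lemma det2_jcost_nonneg {a B x s : ℝ} (hx : 0 ≤ x) (hs : 0 ≤ s) : 0 ≤ jcost a B x s := by
  unfold jcost
  split_ifs
  · have := Real.rpow_nonneg hx (a - 1)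
    positivity
  · exact Real.rpow_nonneg hs _

/-! ### growth of the workloads -/

lemma det2_step {w : ℝ × ℝ} {s t : ℝ} (h0 : 0 ≤ w.1) (h1 : w.1 ≤ w.2) (hs : 0 ≤ s)
    (ht : 0 ≤ t) : (kwStep w s t).2 ≤ w.2 + s := by
  unfold kwStep
  simp only
  refine max_le (max_le ?_ ?_) (max_le ?_ ?_) <;> linarith

lemma det2_snd_le {w : ℝ × ℝ} (h0 : 0 ≤ w.1) (h1 : w.1 ≤ w.2) {z : ℕ → ℝ × ℝ}
    (hz : ∀ k, 0 ≤ (z k).1 ∧ 0 ≤ (z k).2) (n : ℕ) :
    (pIter w z n).2 ≤ w.2 + ∑ i ∈ Finset.range n, (z i).1 := by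
  induction n with
  | zero => simp [pIter_zero]
  | succ n ih =>
    obtain ⟨a1, a2⟩ := pIter_ordered h0 h1 z n
    have := det2_step a1 a2 (hz n).1 (hz n).2
    rw [pIter_succ, Finset.sum_range_succ]
    linarith

lemma det2_partition {w : ℝ × ℝ} {c : ℝ} (h0 : 0 ≤ w.1) (h1 : w.1 ≤ w.2) (h2 : w.2 ≤ c)
    {z : ℕ → ℝ × ℝ} (hz : ∀ k, 0 ≤ (z k).1 ∧ 0 ≤ (z k).2) (n : ℕ) :
    ∃ A B : Finset ℕ, Disjoint A B ∧ A ∪ B = Finset.range n ∧
      (pIter w z n).1 ≤ c + ∑ i ∈ A, (z i).1 ∧ (pIter w z n).2 ≤ c + ∑ i ∈ B, (z i).1 := by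
  classical
  induction n with
  | zero =>
    refine ⟨∅, ∅, by simp, by simp, ?_, ?_⟩
    · simp only [pIter_zero, Finset.sum_empty, add_zero]; linarith
    · simp only [pIter_zero, Finset.sum_empty, add_zero]; linarith
  | succ n ih =>
    obtain ⟨A, B, hd, hu, hA, hB⟩ := ih
    have hnA : n ∉ A := fun h => by
      have : n ∈ Finset.range n := hu ▸ Finset.mem_union_left _ h
      simp at this
    have hnB : n ∉ B := fun h => by
      have : n ∈ Finset.range n := hu ▸ Finset.mem_union_right _ h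
      simp at this
    have hc : 0 ≤ c := by linarith
    have hA0 : 0 ≤ ∑ i ∈ A, (z i).1 := Finset.sum_nonneg fun k _ => (hz k).1
    have hB0 : 0 ≤ ∑ i ∈ B, (z i).1 := Finset.sum_nonneg fun k _ => (hz k).1
    have hs := (hz n).1
    have ht := (hz n).2
    have hins : ∑ i ∈ insert n A, (z i).1 = (z n).1 + ∑ i ∈ A, (z i).1 := Finset.sum_insert hnA
    have b1 : max ((pIter w z n).1 + (z n).1 - (z n).2) 0 ≤ c + ∑ i ∈ insert n A, (z i).1 := by
      rw [hins]
      exact max_le (by linarith) (by linarith)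
    have b2 : max ((pIter w z n).2 - (z n).2) 0 ≤ c + ∑ i ∈ B, (z i).1 :=
      max_le (by linarith) (by linarith)
    have hun : insert n A ∪ B = Finset.range (n + 1) := by
      rw [Finset.insert_union, hu, Finset.range_add_one]
    have hdis : Disjoint (insert n A) B := by
      rw [Finset.disjoint_insert_left]; exact ⟨hnB, hd⟩
    rw [pIter_succ]
    unfold kwStep
    rcases le_total (max ((pIter w z n).1 + (z n).1 - (z n).2) 0)
      (max ((pIter w z n).2 - (z n).2) 0) with h | h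
    · refine ⟨insert n A, B, hdis, hun, ?_, ?_⟩
      · simp only [min_eq_left h]; exact b1
      · simp only [max_eq_right h]; exact b2
    · refine ⟨B, insert n A, hdis.symm, by rw [Finset.union_comm]; exact hun, ?_, ?_⟩
      · simp only [min_eq_right h]; exact b2
      · simp only [max_eq_left h]; exact b1

/-! ### two big jobs -/

lemma det2_final {x b ε ε' : ℝ} (hx : 0 < x) (hε'ε : ε' ≤ ε) {w : ℝ × ℝ} (hw0 : 0 ≤ w.1)
    (hw1 : w.1 ≤ w.2) {z : ℕ → ℝ × ℝ} (hz : ∀ k, 0 ≤ (z k).1 ∧ 0 ≤ (z k).2) {k0 n p q : ℕ}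
    (hk : (pIter w z k0).2 ≤ ε' * x) (hpq : p < q) (hqn : q < n)
    (hp : b * x < (z (k0 + p)).1) (hq : b * x < (z (k0 + q)).1)
    (hsm : ∀ k < n, k ≠ p → k ≠ q → (z (k0 + k)).1 ≤ b * x)
    (hU : ∑ i ∈ det2_small (b * x) (fun k => (z (k0 + k)).1) (Finset.range n),
      (z (k0 + i)).1 ≤ ε * x) (hW : x < (pIter w z (k0 + n)).1) :
    ∃ l n1 n2 : ℕ, l + (n1 + n2 + 2) = k0 + n ∧
      pathShift l (w, z) ∈ mainEvent x (b * x) ε n1 n2 := by
  have hsub : ∀ S : Finset ℕ, (∀ k ∈ S, k < n ∧ k ≠ p ∧ k ≠ q) →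
      ∑ i ∈ S, (z (k0 + i)).1 ≤ ε * x := by
    intro S hS
    refine le_trans (Finset.sum_le_sum_of_subset_of_nonneg ?_ fun k _ _ => (hz _).1) hU
    intro k hk
    obtain ⟨a1, a2, a3⟩ := hS k hk
    exact Finset.mem_filter.2 ⟨Finset.mem_range.2 a1, hsm k a1 a2 a3⟩
  obtain ⟨a1, a2⟩ := pIter_ordered hw0 hw1 z k0
  refine ⟨k0 + p, q - p - 1, n - q - 1, by omega, ?_⟩
  refine ⟨?_, ⟨?_, ?_, ?_, ?_⟩, ?_, ?_, ?_⟩
  · change (pIter w z (k0 + p)).2 ≤ 2 * ε * x
    rw [pIter_add]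
    have h1 := det2_snd_le a1 a2 (z := fun k => z (k0 + k)) (fun k => hz _) p
    have h2 := hsub (Finset.range p) (fun k hk => by
      have := Finset.mem_range.1 hk
      exact ⟨by omega, by omega, by omega⟩)
    have h3 : ε' * x ≤ ε * x := mul_le_mul_of_nonneg_right hε'ε hx.le
    linarith
  · exact hp
  · intro i hi
    change (z (k0 + p + (i + 1))).1 ≤ b * x
    rw [Nat.add_assoc]
    exact hsm _ (by omega) (by omega) (by omega)
  · change b * x < (z (k0 + p + (q - p - 1 + 1))).1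
    have e : k0 + p + (q - p - 1 + 1) = k0 + q := by omega
    rw [e]; exact hq
  · intro i hi
    change (z (k0 + p + (q - p - 1 + (i + 1) + 1))).1 ≤ b * x
    have e : k0 + p + (q - p - 1 + (i + 1) + 1) = k0 + (q + (i + 1)) := by omega
    rw [e]
    exact hsm _ (by omega) (by omega) (by omega)
  · change ∑ i ∈ Finset.range (q - p - 1), (z (k0 + p + (i + 1))).1 ≤ ε * x
    have h1 := hsub (Finset.Ico (p + 1) q) (fun k hk => by
      have := Finset.mem_Ico.1 hk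
      exact ⟨by omega, by omega, by omega⟩)
    rw [Finset.sum_Ico_eq_sum_range] at h1
    have e : q - (p + 1) = q - p - 1 := by omega
    rw [e] at h1
    refine le_of_eq_of_le (Finset.sum_congr rfl fun i _ => ?_) h1
    have e2 : k0 + p + (i + 1) = k0 + (p + 1 + i) := by omega
    rw [e2]
  · change ∑ i ∈ Finset.range (n - q - 1), (z (k0 + p + (q - p - 1 + (i + 1) + 1))).1 ≤ ε * x
    have h1 := hsub (Finset.Ico (q + 1) n) (fun k hk => by
      have := Finset.mem_Ico.1 hk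
      exact ⟨by omega, by omega, by omega⟩)
    rw [Finset.sum_Ico_eq_sum_range] at h1
    have e : n - (q + 1) = n - q - 1 := by omega
    rw [e] at h1
    refine le_of_eq_of_le (Finset.sum_congr rfl fun i _ => ?_) h1
    have e2 : k0 + p + (q - p - 1 + (i + 1) + 1) = k0 + (q + 1 + i) := by omega
    rw [e2]
  · change x < (pIter (pIter w z (k0 + p)) (fun k => z (k0 + p + k))
      (q - p - 1 + (n - q - 1) + 2)).1
    rw [← pIter_add]
    have e : k0 + p + (q - p - 1 + (n - q - 1) + 2) = k0 + n := by omega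
    rw [e]; exact hW

/-- D2: the covering of the event `W_N.1 > x` -/
theorem covering {a x b ε ε' δ C : ℝ} (ha0 : 0 < a) (ha1 : a < 1) (hx : 0 < x) (hb : 0 < b)
    (hε' : 0 < ε') (hε'ε : ε' ≤ ε) (hε'2 : ε' ≤ 1 / 2) (hε2 : ε ≤ 1 / 2) (hδ : 0 < δ)
    (h1 : δ + ε' ≤ ε) (h2 : δ + ε' ≤ (2 - 2 ^ a) * b ^ a / 2)
    {w : ℝ × ℝ} (hw0 : 0 ≤ w.1) (hw1 : w.1 ≤ w.2) {z : ℕ → ℝ × ℝ}
    (hz : ∀ k, 0 ≤ (z k).1 ∧ 0 ≤ (z k).2) (N : ℕ) (hW : x < (pIter w z N).1) :
    ((∀ k ≤ N, ε' * x < (pIter w z k).2 ∧ (pIter w z k).2 ≤ C * x) ∧ x < (pIter w z N).1) ∨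
    (∃ k ≤ N, C * x < (pIter w z k).2) ∨
    ((2 + 2 * δ) * x ^ a ≤ ∑ k ∈ Finset.range N, jcost a (b * x) x (z k).1) ∨
    ∃ l n1 n2 : ℕ, l + (n1 + n2 + 2) = N ∧ pathShift l (w, z) ∈ mainEvent x (b * x) ε n1 n2 := by
  classical
  by_cases hc1 : ∀ k ≤ N, ε' * x < (pIter w z k).2 ∧ (pIter w z k).2 ≤ C * x
  · exact Or.inl ⟨hc1, hW⟩
  by_cases hc2 : ∃ k ≤ N, C * x < (pIter w z k).2
  · exact Or.inr (Or.inl hc2)
  by_cases hc3 : (2 + 2 * δ) * x ^ a ≤ ∑ k ∈ Finset.range N, jcost a (b * x) x (z k).1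
  · exact Or.inr (Or.inr (Or.inl hc3))
  refine Or.inr (Or.inr (Or.inr ?_))
  push Not at hc1 hc2 hc3
  obtain ⟨k0, hk0, hk⟩ := hc1
  have hk' : (pIter w z k0).2 ≤ ε' * x := by
    by_contra h
    exact absurd (hk (not_le.1 h)) (not_lt.2 (hc2 k0 hk0))
  obtain ⟨n, rfl⟩ := Nat.exists_eq_add_of_le hk0
  have hz' : ∀ k, 0 ≤ (z (k0 + k)).1 ∧ 0 ≤ (z (k0 + k)).2 := fun k => hz _
  obtain ⟨hw0', hw1'⟩ := pIter_ordered hw0 hw1 z k0
  obtain ⟨A, B, hd, hu, hA, hB⟩ := det2_partition hw0' hw1' hk' hz' n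
  rw [← pIter_add] at hA hB
  have hord := (pIter_ordered hw0 hw1 z (k0 + n)).2
  set s : ℕ → ℝ := fun k => (z (k0 + k)).1 with hs
  have hs0 : ∀ k, 0 ≤ s k := fun k => (hz _).1
  set X : ℝ := (1 - ε') * x with hX
  have hXx : x / 2 ≤ X := by
    rw [hX]; nlinarith
  have hXA : X < ∑ i ∈ A, s i := by
    have e : ε' * x + X = x := by rw [hX]; ring
    linarith
  have hXB : X < ∑ i ∈ B, s i := by
    have e : ε' * x + X = x := by rw [hX]; ring
    linarith
  have hbx : 0 ≤ b * x := (mul_pos hb hx).le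
  -- total cost
  have hcost : ∑ i ∈ A, jcost a (b * x) x (s i) + ∑ i ∈ B, jcost a (b * x) x (s i) ≤
      ∑ k ∈ Finset.range (k0 + n), jcost a (b * x) x (z k).1 := by
    rw [← Finset.sum_union hd, hu, Finset.sum_range_add]
    have : 0 ≤ ∑ k ∈ Finset.range k0, jcost a (b * x) x (z k).1 :=
      Finset.sum_nonneg fun k _ => det2_jcost_nonneg hx.le (hz k).1
    linarith
  have hxa : 0 < x ^ a := Real.rpow_pos_of_pos hx _
  have hXa : (1 - ε') * x ^ a ≤ X ^ a := by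
    rw [hX, Real.mul_rpow (by linarith) hx.le]
    apply mul_le_mul_of_nonneg_right _ hxa.le
    calc 1 - ε' = (1 - ε') ^ (1 : ℝ) := (Real.rpow_one _).symm
      _ ≤ (1 - ε') ^ a := Real.rpow_le_rpow_of_exponent_ge (by linarith) (by linarith) ha1.le
  have cA := det2_one' (B := b * x) ha0 ha1 hx hXx hs0 hXA.le
  have cB := det2_one' (B := b * x) ha0 ha1 hx hXx hs0 hXB.le
  set uA := ∑ i ∈ det2_small (b * x) s A, s i with huA
  set uB := ∑ i ∈ det2_small (b * x) s B, s i with huB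
  have huA0 : 0 ≤ uA := Finset.sum_nonneg fun k _ => hs0 k
  have huB0 : 0 ≤ uB := Finset.sum_nonneg fun k _ => hs0 k
  have hx1 : 0 < x ^ (a - 1) := Real.rpow_pos_of_pos hx _
  have exa : x ^ (a - 1) * x = x ^ a := by
    rw [Real.rpow_sub_one hx.ne']; field_simp
  -- the small jobs
  have hUε : uA + uB ≤ ε * x := by
    by_contra h
    have h3 : x ^ (a - 1) * (ε * x) ≤ x ^ (a - 1) * (uA + uB) :=
      mul_le_mul_of_nonneg_left (not_le.1 h).le hx1.le
    have h4 : x ^ (a - 1) * (ε * x) = ε * x ^ a := by rw [← exa]; ring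
    have h5 : (δ + ε') * x ^ a ≤ ε * x ^ a := mul_le_mul_of_nonneg_right h1 hxa.le
    nlinarith
  -- the big jobs
  have hBa : (b * x) ^ a = b ^ a * x ^ a := Real.mul_rpow hb.le hx.le
  have h2a : (δ + ε') * x ^ a ≤ (2 - 2 ^ a) * b ^ a / 2 * x ^ a :=
    mul_le_mul_of_nonneg_right h2 hxa.le
  have huA1 : 0 ≤ 2 * x ^ (a - 1) * uA := by positivity
  have huB1 : 0 ≤ 2 * x ^ (a - 1) * uB := by positivity
  have hA1 : (det2_big (b * x) s A).card ≤ 1 := by
    by_contra h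
    have := det2_one_big (B := b * x) ha0 ha1 hx hXx hbx hs0 hXA.le (not_le.1 h)
    rw [hBa] at this
    nlinarith
  have hB1 : (det2_big (b * x) s B).card ≤ 1 := by
    by_contra h
    have := det2_one_big (B := b * x) ha0 ha1 hx hXx hbx hs0 hXB.le (not_le.1 h)
    rw [hBa] at this
    nlinarith
  have hεx : ε * x ≤ X := by
    have : ε * x ≤ 1 / 2 * x := mul_le_mul_of_nonneg_right hε2 hx.le
    linarith
  have hA2 : (det2_big (b * x) s A).Nonempty := by
    by_contra h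
    rw [Finset.not_nonempty_iff_eq_empty] at h
    rw [det2_split (b * x) s, h, Finset.sum_empty] at hXA
    linarith
  have hB2 : (det2_big (b * x) s B).Nonempty := by
    by_contra h
    rw [Finset.not_nonempty_iff_eq_empty] at h
    rw [det2_split (b * x) s, h, Finset.sum_empty] at hXB
    linarith
  obtain ⟨i, hi⟩ := hA2
  obtain ⟨j, hj⟩ := hB2
  have hiA := (Finset.mem_filter.1 hi).1
  have hjB := (Finset.mem_filter.1 hj).1
  have hib : b * x < s i := not_le.1 (Finset.mem_filter.1 hi).2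
  have hjb : b * x < s j := not_le.1 (Finset.mem_filter.1 hj).2
  have hin : i < n := Finset.mem_range.1 (hu ▸ Finset.mem_union_left _ hiA)
  have hjn : j < n := Finset.mem_range.1 (hu ▸ Finset.mem_union_right _ hjB)
  have hij : i ≠ j := by
    rintro rfl
    exact (Finset.disjoint_left.1 hd) hiA hjB
  have hsm : ∀ k < n, k ≠ i → k ≠ j → s k ≤ b * x := by
    intro k hkn hki hkj
    by_contra h
    have hk3 : k ∈ A ∪ B := by rw [hu]; exact Finset.mem_range.2 hkn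
    rcases Finset.mem_union.1 hk3 with h3 | h3
    · exact hki (Finset.card_le_one.1 hA1 k (Finset.mem_filter.2 ⟨h3, h⟩) i hi)
    · exact hkj (Finset.card_le_one.1 hB1 k (Finset.mem_filter.2 ⟨h3, h⟩) j hj)
  have hU : ∑ i ∈ det2_small (b * x) s (Finset.range n), s i ≤ ε * x := by
    have e : det2_small (b * x) s (Finset.range n) =
        det2_small (b * x) s A ∪ det2_small (b * x) s B := by
      rw [← hu]
      exact Finset.filter_union _ _ _
    have hd' : Disjoint (det2_small (b * x) s A) (det2_small (b * x) s B) :=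
      Finset.disjoint_filter_filter hd
    rw [e, Finset.sum_union hd']
    exact hUε
  rcases lt_or_gt_of_ne hij with h | h
  · exact det2_final hx hε'ε hw0 hw1 hz hk' h hjn hib hjb hsm hU hW
  · exact det2_final hx hε'ε hw0 hw1 hz hk' h hin hjb hib
      (fun k a1 a2 a3 => hsm k a1 a3 a2) hU hW

end Pool.Agent.Lib.MP_04add8_pr
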