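import Mathlib
import Pool.Agent.Lib.MP_04add8_pr.Two.Defs
import Pool.Agent.Lib.MP_04add8_pr.Two.DriftU

open MeasureTheory ProbabilityTheory Filter Topology
open scoped ENNReal

set_option linter.unusedSectionVars false

namespace Pool.Agent.Lib.MP_04add8_pr

section calc_

lemma tendsto_hazard {a : ℝ} (ha1 : a < 1) :
    Tendsto (fun x : ℝ => a * x ^ (a - 1)) atTop (𝓝 0) := by
  have h1 : Tendsto (fun x : ℝ => x ^ (a - 1)) atTop (𝓝 0) := by
    have := tendsto_rpow_neg_atTop (y := 1 - a) (by linarith)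
    simpa using this
  simpa using h1.const_mul a

lemma exp_le_one_add_mul {y : ℝ} (hy : 0 ≤ y) : Real.exp y ≤ 1 + y * Real.exp y := by
  have h1 : 1 - y ≤ Real.exp (-y) := by
    have := Real.add_one_le_exp (-y)
    linarith
  have h2 : Real.exp y * Real.exp (-y) = 1 := by rw [← Real.exp_add]; simp
  have h3 := Real.exp_pos y
  nlinarith

/-- for workloads of order at most `2 ε x` the exponential tilt is harmless -/
lemma tilt_le {a rp ε x v : ℝ} (ha0 : 0 < a) (ha1 : a < 1) (hrp : 0 < rp) (hrp2 : rp ≤ 2)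
    (hε : 0 < ε) (hε8 : 8 * (2 * ε) ^ (1 - a) ≤ 1) (hx : 0 < x) (hv : 0 ≤ v)
    (hvx : v ≤ 2 * ε * x) : 2 * (rp * (a * x ^ (a - 1))) * v ≤ v ^ a / 2 := by
  rcases hv.eq_or_lt with h0 | h0
  · rw [← h0, Real.zero_rpow ha0.ne']; simp
  · have h1 : v ^ (1 - a) ≤ (2 * ε) ^ (1 - a) * x ^ (1 - a) := by
      rw [← Real.mul_rpow (by positivity) hx.le]
      have : 0 < 1 - a := by linarith
      gcongr
    have h2 : x ^ (a - 1) * x ^ (1 - a) = 1 := by
      rw [← Real.rpow_add hx]; simp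
    have h3 : v = v ^ (1 - a) * v ^ a := by
      rw [← Real.rpow_add h0]; simp
    have hxp : 0 < x ^ (a - 1) := by positivity
    have hva : 0 < v ^ a := by positivity
    have h4 : x ^ (a - 1) * v ≤ (2 * ε) ^ (1 - a) * v ^ a := by
      calc x ^ (a - 1) * v = x ^ (a - 1) * (v ^ (1 - a) * v ^ a) := by rw [← h3]
        _ ≤ x ^ (a - 1) * (((2 * ε) ^ (1 - a) * x ^ (1 - a)) * v ^ a) := by gcongr
        _ = (2 * ε) ^ (1 - a) * v ^ a * (x ^ (a - 1) * x ^ (1 - a)) := by ring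
        _ = _ := by rw [h2, mul_one]
    have hε0 : 0 < (2 * ε) ^ (1 - a) := by positivity
    calc 2 * (rp * (a * x ^ (a - 1))) * v = 2 * rp * a * (x ^ (a - 1) * v) := by ring
      _ ≤ 2 * 2 * 1 * ((2 * ε) ^ (1 - a) * v ^ a) := by gcongr
      _ = (8 * (2 * ε) ^ (1 - a)) * v ^ a / 2 := by ring
      _ ≤ 1 * v ^ a / 2 := by gcongr
      _ = v ^ a / 2 := by ring

end calc_

section stoch

variable {a : ℝ} {μ ν : Measure ℝ} [IsProbabilityMeasure μ] [IsProbabilityMeasure ν]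

theorem epi (ha0 : 0 < a) (ha1 : a < 1)
    (hμ : ∀ x, 0 ≤ x → μ (Set.Ioi x) = ENNReal.ofReal (Real.exp (-(x ^ a))))
    (hν : ν (Set.Iio 0) = 0) (hνi : Integrable (fun t : ℝ => t) ν)
    (hm : 0 < ∫ t, t ∂ν)
    (hgt : (∫ t, t ∂ν) < ∫ s, s ∂μ) (hlt : (∫ s, s ∂μ) < 2 * ∫ t, t ∂ν)
    {rp ε : ℝ} (hrp : 0 < rp) (hrp2 : rp ≤ 2) (hε : 0 < ε) (hε8 : 8 * (2 * ε) ^ (1 - a) ≤ 1)
    {η : ℝ} (hη : 0 < η) :
    ∀ᶠ x : ℝ in atTop, ∀ π : Measure (ℝ × ℝ), IsStationaryKW μ ν π →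
      ∫⁻ w, ({w : ℝ × ℝ | w.2 ≤ 2 * ε * x}).indicator
        (fun w => ENNReal.ofReal (Real.exp (2 * (rp * (a * x ^ (a - 1))) * w.2))) w ∂π ≤
        ENNReal.ofReal (1 + η) := by
  obtain ⟨C2, hC2, hmom⟩ := exp_moment_snd ha0 ha1 hμ hν hνi hm hgt hlt
  have hlim : Tendsto (fun x : ℝ => 2 * (rp * (a * x ^ (a - 1))) * C2) atTop (𝓝 0) := by
    have := ((tendsto_hazard (a := a) ha1).const_mul rp).const_mul 2
    simpa using this.mul_const C2
  filter_upwards [hlim.eventually_le_const hη, eventually_gt_atTop 0] with x hx hx0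
  intro π hπ
  have hp : IsProbabilityMeasure π := hπ.1
  have hc0 : 0 ≤ 2 * (rp * (a * x ^ (a - 1))) := by positivity
  calc ∫⁻ w, ({w : ℝ × ℝ | w.2 ≤ 2 * ε * x}).indicator
        (fun w => ENNReal.ofReal (Real.exp (2 * (rp * (a * x ^ (a - 1))) * w.2))) w ∂π
      ≤ ∫⁻ w, (1 + ENNReal.ofReal (2 * (rp * (a * x ^ (a - 1)))) *
          ENNReal.ofReal (w.2 * Real.exp (w.2 ^ a / 2))) ∂π := by
        apply lintegral_mono_ae
        filter_upwards [hπ.ae_ordered] with w hw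
        by_cases hwx : w.2 ≤ 2 * ε * x
        · rw [Set.indicator_of_mem (by exact hwx)]
          have hw2 : 0 ≤ w.2 := hw.1.trans hw.2
          have h1 := tilt_le ha0 ha1 hrp hrp2 hε hε8 hx0 hw2 hwx
          have h2 := exp_le_one_add_mul (y := 2 * (rp * (a * x ^ (a - 1))) * w.2) (by positivity)
          rw [← ENNReal.ofReal_mul hc0, ← ENNReal.ofReal_one,
            ← ENNReal.ofReal_add zero_le_one (by positivity)]
          apply ENNReal.ofReal_le_ofReal
          refine h2.trans ?_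
          have h3 : Real.exp (2 * (rp * (a * x ^ (a - 1))) * w.2) ≤ Real.exp (w.2 ^ a / 2) :=
            Real.exp_le_exp.mpr h1
          have h4 : 2 * (rp * (a * x ^ (a - 1))) * w.2 *
              Real.exp (2 * (rp * (a * x ^ (a - 1))) * w.2) ≤
              2 * (rp * (a * x ^ (a - 1))) * w.2 * Real.exp (w.2 ^ a / 2) := by gcongr
          linarith
        · rw [Set.indicator_of_notMem (by exact hwx)]
          exact zero_le
    _ = 1 + ENNReal.ofReal (2 * (rp * (a * x ^ (a - 1)))) *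
          ∫⁻ w, ENNReal.ofReal (w.2 * Real.exp (w.2 ^ a / 2)) ∂π := by
        rw [lintegral_add_left measurable_const, lintegral_const_mul _ (by fun_prop)]
        simp
    _ ≤ 1 + ENNReal.ofReal (2 * (rp * (a * x ^ (a - 1)))) * ENNReal.ofReal C2 := by
        gcongr
        exact hmom π hπ
    _ ≤ ENNReal.ofReal (1 + η) := by
        rw [← ENNReal.ofReal_mul hc0, ← ENNReal.ofReal_one,
            ← ENNReal.ofReal_add zero_le_one (by positivity)]
        apply ENNReal.ofReal_le_ofReal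
        linarith

lemma measurable_walkA (B τ θp θm : ℝ) (n : ℕ) :
    Measurable (fun r : ℝ => walkA μ ν B τ θp θm n r) := by
  unfold walkA
  apply Measurable.lintegral_prod_right' (f := fun q : ℝ × (ℕ → ℝ × ℝ) =>
    ({z : ℕ → ℝ × ℝ | ∀ i < n, (z i).1 ≤ B}).indicator
      (fun z => ENNReal.ofReal (Real.exp (θp * reflT τ q.1 z n - θm * sumT τ z n))) q.2)
  have hset : MeasurableSet {z : ℕ → ℝ × ℝ | ∀ i < n, (z i).1 ≤ B} := by
    have : {z : ℕ → ℝ × ℝ | ∀ i < n, (z i).1 ≤ B} = ⋂ i, ⋂ (_ : i < n), {z | (z i).1 ≤ B} := by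
      ext z; simp
    rw [this]
    refine MeasurableSet.iInter fun i => MeasurableSet.iInter fun _ => ?_
    exact measurableSet_le (by fun_prop) measurable_const
  have h1 : (fun q : ℝ × (ℕ → ℝ × ℝ) =>
    ({z : ℕ → ℝ × ℝ | ∀ i < n, (z i).1 ≤ B}).indicator
      (fun z => ENNReal.ofReal (Real.exp (θp * reflT τ q.1 z n - θm * sumT τ z n))) q.2) =
    ({q : ℝ × (ℕ → ℝ × ℝ) | q.2 ∈ {z : ℕ → ℝ × ℝ | ∀ i < n, (z i).1 ≤ B}}).indicator
      (fun q => ENNReal.ofReal (Real.exp (θp * reflT τ q.1 q.2 n - θm * sumT τ q.2 n))) := by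
    funext q
    by_cases hq : q.2 ∈ {z : ℕ → ℝ × ℝ | ∀ i < n, (z i).1 ≤ B}
    · rw [Set.indicator_of_mem hq, Set.indicator_of_mem (by exact hq)]
    · rw [Set.indicator_of_notMem hq, Set.indicator_of_notMem (by exact hq)]
  rw [h1]
  apply Measurable.indicator
  · have h2 := measurable_reflT τ n
    have h3 : Measurable fun q : ℝ × (ℕ → ℝ × ℝ) => sumT τ q.2 n :=
      (measurable_sumT τ n).comp measurable_snd
    fun_prop
  · exact measurable_snd hset

lemma measurableSet_mainEvent (x B ε : ℝ) (n1 n2 : ℕ) :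
    MeasurableSet (mainEvent x B ε n1 n2) := by
  have h1 : MeasurableSet {q : (ℝ × ℝ) × (ℕ → ℝ × ℝ) | q.1.2 ≤ 2 * ε * x} :=
    measurableSet_le (by fun_prop) measurable_const
  have h2 : MeasurableSet {q : (ℝ × ℝ) × (ℕ → ℝ × ℝ) | q.2 ∈ twoBig B n1 n2} := by
    apply measurable_snd
    have : twoBig B n1 n2 = {z : ℕ → ℝ × ℝ | B < (z 0).1} ∩
        ((⋂ i, ⋂ (_ : i < n1), {z : ℕ → ℝ × ℝ | (z (i + 1)).1 ≤ B}) ∩
        ({z : ℕ → ℝ × ℝ | B < (z (n1 + 1)).1} ∩
        (⋂ i, ⋂ (_ : i < n2), {z : ℕ → ℝ × ℝ | (z (n1 + (i + 1) + 1)).1 ≤ B}))) := by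
      ext z
      simp [twoBig]
    rw [this]
    refine MeasurableSet.inter (measurableSet_lt measurable_const (by fun_prop)) ?_
    refine MeasurableSet.inter ?_ ?_
    · refine MeasurableSet.iInter fun i => MeasurableSet.iInter fun _ => ?_
      exact measurableSet_le (by fun_prop) measurable_const
    · refine MeasurableSet.inter (measurableSet_lt measurable_const (by fun_prop)) ?_
      refine MeasurableSet.iInter fun i => MeasurableSet.iInter fun _ => ?_
      exact measurableSet_le (by fun_prop) measurable_const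
  have h3 : MeasurableSet {q : (ℝ × ℝ) × (ℕ → ℝ × ℝ) |
      ∑ i ∈ Finset.range n1, (q.2 (i + 1)).1 ≤ ε * x} :=
    measurableSet_le (by fun_prop) measurable_const
  have h4 : MeasurableSet {q : (ℝ × ℝ) × (ℕ → ℝ × ℝ) |
      ∑ i ∈ Finset.range n2, (q.2 (n1 + (i + 1) + 1)).1 ≤ ε * x} :=
    measurableSet_le (by fun_prop) measurable_const
  have h5 : MeasurableSet {q : (ℝ × ℝ) × (ℕ → ℝ × ℝ) | x < (pIter q.1 q.2 (n1 + n2 + 2)).1} :=
    measurableSet_lt measurable_const (measurable_fst.comp (measurable_pIter _))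
  exact h1.inter (h2.inter (h3.inter (h4.inter h5)))

end stoch

end Pool.Agent.Lib.MP_04add8_pr
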