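import Mathlib
import Pool.Agent.Lib.MP_04add8_pr.Two.WalkBase

open MeasureTheory ProbabilityTheory Filter Topology
open scoped ENNReal

set_option linter.unusedSectionVars false

namespace Pool.Agent.Lib.MP_04add8_pr

section walkC_

variable {a : ℝ} {μ ν : Measure ℝ} [IsProbabilityMeasure μ] [IsProbabilityMeasure ν]

/-- product formula with a linear factor -/
lemma noise_prod_sum {g u : ℝ × ℝ → ℝ≥0∞} (hg : Measurable g) (hu : Measurable u) (n : ℕ) :
    ∀ α : ℝ≥0∞, ∫⁻ z, (α + ∑ i ∈ Finset.range n, u (z i)) * ∏ i ∈ Finset.range n, g (z i)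
      ∂(noise μ ν) = α * (∫⁻ p, g p ∂(μ.prod ν)) ^ n +
        n * (∫⁻ p, u p * g p ∂(μ.prod ν)) * (∫⁻ p, g p ∂(μ.prod ν)) ^ (n - 1) := by
  set φ := ∫⁻ p, g p ∂(μ.prod ν) with hφ
  set γ := ∫⁻ p, u p * g p ∂(μ.prod ν) with hγ
  have hmeas : ∀ (n : ℕ) (α : ℝ≥0∞), Measurable fun z : ℕ → ℝ × ℝ =>
      (α + ∑ i ∈ Finset.range n, u (z i)) * ∏ i ∈ Finset.range n, g (z i) := by
    intro n α
    fun_prop
  induction n with
  | zero => intro α; simp
  | succ n ih =>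
    intro α
    rw [lintegral_noise_cons (hmeas (n + 1) α)]
    have h1 : ∀ p : ℝ × ℝ, ∫⁻ z, (α + ∑ i ∈ Finset.range (n + 1), u (gcons p z i)) *
        ∏ i ∈ Finset.range (n + 1), g (gcons p z i) ∂(noise μ ν) =
        (α * φ ^ n + n * γ * φ ^ (n - 1)) * g p + φ ^ n * (u p * g p) := by
      intro p
      have e : ∀ z : ℕ → ℝ × ℝ, (α + ∑ i ∈ Finset.range (n + 1), u (gcons p z i)) *
          ∏ i ∈ Finset.range (n + 1), g (gcons p z i) =
          g p * (((α + u p) + ∑ i ∈ Finset.range n, u (z i)) * ∏ i ∈ Finset.range n, g (z i)) := by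
        intro z
        rw [Finset.sum_range_succ', Finset.prod_range_succ']
        change (α + (∑ i ∈ Finset.range n, u (z i) + u p)) *
          ((∏ i ∈ Finset.range n, g (z i)) * g p) = _
        ring
      simp_rw [e]
      rw [lintegral_const_mul _ (hmeas n (α + u p)), ih (α + u p)]
      ring
    simp_rw [h1]
    have h2 : ∫⁻ p, φ ^ n * (u p * g p) ∂(μ.prod ν) = φ ^ n * γ :=
      lintegral_const_mul _ (hu.mul hg)
    rw [lintegral_add_left (hg.const_mul _), lintegral_const_mul _ hg, h2, ← hφ]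
    cases n with
    | zero => simp
    | succ n =>
      push_cast
      ring

lemma walkC_le (ha0 : 0 < a) (ha1 : a < 1)
    (hμ : ∀ x, 0 ≤ x → μ (Set.Ioi x) = ENNReal.ofReal (Real.exp (-(x ^ a))))
    (hν : ν (Set.Iio 0) = 0) {τ rp rm b x : ℝ} (hτ : 0 < τ) (hrp : 0 < rp) (hrp2 : rp ≤ 2)
    (hrm : 0 < rm) (hb : 0 < b) (hb4 : 4 * b ^ (1 - a) ≤ 1 / 2) (hx : 0 < x)
    {φ γ : ℝ} (hφ : (1 + rp * (a * x ^ (a - 1)) * (∫ s, s ∂μ) +
      (rp * (a * x ^ (a - 1))) ^ 2 * wkC μ a) * (1 - 2 * (rm * (a * x ^ (a - 1))) *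
        (∫ t, min t τ ∂ν) + (2 * (rm * (a * x ^ (a - 1)))) ^ 2 * τ ^ 2) ≤ φ)
    (hγ : rp * (a * x ^ (a - 1)) * (∫ s, s ∂μ) + (rp * (a * x ^ (a - 1))) ^ 2 * wkC μ a ≤ γ)
    (n : ℕ) :
    walkC μ ν (b * x) τ (rp * (a * x ^ (a - 1))) (rm * (a * x ^ (a - 1))) n ≤
      ENNReal.ofReal (φ ^ n + n * γ * φ ^ (n - 1)) := by
  set θ := rp * (a * x ^ (a - 1)) with hθ
  set θ' := rm * (a * x ^ (a - 1)) with hθ'
  have hθ0 : 0 < θ := by positivity
  have hθ'0 : 0 < θ' := by positivity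
  obtain ⟨i1, b1⟩ := wk_exp1 ha0 ha1 hμ hx hb hb4 hrp hrp2
  obtain ⟨i2, b2⟩ := wk_exp2 ha0 ha1 hμ hx hb hb4 hrp hrp2
  obtain ⟨i3, b3⟩ := wk_nu (κ := 2 * θ') hν hτ (by positivity)
  rw [← hθ] at i1 b1 i2 b2
  set F1 : ℝ → ℝ := (Set.Iic (b * x)).indicator fun s => Real.exp (θ * s) with hF1
  set F2 : ℝ → ℝ := (Set.Iic (b * x)).indicator fun s => θ * s * Real.exp (θ * s) with hF2
  set D : ℝ → ℝ := fun t => Real.exp (-(2 * θ' * min t τ)) with hD
  have hF1m : Measurable F1 :=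
    (by fun_prop : Measurable fun s : ℝ => Real.exp (θ * s)).indicator measurableSet_Iic
  have hF2m : Measurable F2 :=
    (by fun_prop : Measurable fun s : ℝ => θ * s * Real.exp (θ * s)).indicator measurableSet_Iic
  have hDm : Measurable D := by fun_prop
  have hF10 : ∀ s, 0 ≤ F1 s := fun s => Set.indicator_nonneg (fun _ _ => (Real.exp_pos _).le) _
  have hD0 : ∀ t, 0 ≤ D t := fun t => (Real.exp_pos _).le
  have hD1 : ∀ᵐ t ∂ν, D t ≤ 1 := by
    filter_upwards [ae_nonneg_of_Iio hν] with t ht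
    rw [hD]
    simp only
    rw [Real.exp_le_one_iff]
    have : 0 ≤ min t τ := le_min ht hτ.le
    have := mul_nonneg (mul_nonneg zero_le_two hθ'0.le) this
    linarith
  set g : ℝ × ℝ → ℝ≥0∞ := fun p => ENNReal.ofReal (F1 p.1 * D p.2) with hg
  set u : ℝ × ℝ → ℝ≥0∞ := fun p => ENNReal.ofReal (θ * p.1) with hu
  have hgm : Measurable g :=
    ENNReal.measurable_ofReal.comp ((hF1m.comp measurable_fst).mul (hDm.comp measurable_snd))
  have hum : Measurable u :=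
    ENNReal.measurable_ofReal.comp (measurable_fst.const_mul θ)
  have hpos : ∀ᵐ z ∂(noise μ ν), ∀ k, 0 < (z k).1 :=
    ae_noise (p := fun p : ℝ × ℝ => 0 < p.1) (by
      exact (Measure.quasiMeasurePreserving_fst (μ := μ) (ν := ν)).ae (weibull_ae_pos ha0 hμ))
  have hW : walkC μ ν (b * x) τ θ θ' n =
      ∫⁻ z, (1 + ∑ i ∈ Finset.range n, u (z i)) * ∏ i ∈ Finset.range n, g (z i)
        ∂(noise μ ν) := by
    unfold walkC
    apply lintegral_congr_ae
    filter_upwards [hpos] with z hz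
    by_cases hm : z ∈ {z : ℕ → ℝ × ℝ | ∀ i < n, (z i).1 ≤ b * x}
    · rw [Set.indicator_of_mem hm]
      have hS0 : 0 ≤ sumS z n := Finset.sum_nonneg fun i _ => (hz i).le
      have e1 : (1 + ∑ i ∈ Finset.range n, u (z i)) = ENNReal.ofReal (1 + θ * sumS z n) := by
        rw [ENNReal.ofReal_add zero_le_one (by positivity), ENNReal.ofReal_one, sumS,
          Finset.mul_sum, ENNReal.ofReal_sum_of_nonneg]
        intro i _
        have := hz i
        positivity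
      have e2 : ∏ i ∈ Finset.range n, g (z i) =
          ENNReal.ofReal (Real.exp (θ * sumS z n - 2 * θ' * sumT τ z n)) := by
        rw [sumS, sumT, Finset.mul_sum, Finset.mul_sum, ← Finset.sum_sub_distrib, Real.exp_sum,
          ENNReal.ofReal_prod_of_nonneg (fun i _ => (Real.exp_pos _).le)]
        apply Finset.prod_congr rfl
        intro i hi
        have hi' : (z i).1 ∈ Set.Iic (b * x) := hm i (Finset.mem_range.mp hi)
        rw [hg, hF1, hD]
        simp only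
        rw [Set.indicator_of_mem hi', ← Real.exp_add]
        congr 2
      rw [e1, e2, ← ENNReal.ofReal_mul (by positivity)]
    · rw [Set.indicator_of_notMem hm]
      simp only [Set.mem_ofPred_eq, not_forall, not_le] at hm
      obtain ⟨i, hi, hi2⟩ := hm
      have : ∏ i ∈ Finset.range n, g (z i) = 0 := by
        apply Finset.prod_eq_zero (Finset.mem_range.mpr hi)
        rw [hg, hF1]
        simp only
        rw [Set.indicator_of_notMem (by simpa using hi2)]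
        simp
      rw [this, mul_zero]
  rw [hW, noise_prod_sum hgm hum n 1]
  -- the two integrals
  have hE0 : 0 ≤ ∫ s, s ∂μ := integral_nonneg_of_ae (by
    filter_upwards [weibull_ae_pos ha0 hμ] with s hs using hs.le)
  have hC0 := wkC_nonneg μ a
  have hI1 : 0 ≤ ∫ s, F1 s ∂μ := integral_nonneg hF10
  have hI3 : 0 ≤ ∫ t, D t ∂ν := integral_nonneg hD0
  have hI31 : ∫ t, D t ∂ν ≤ 1 := by
    have := integral_mono_ae i3 (integrable_const (1 : ℝ)) hD1
    simpa using this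
  have hI2 : 0 ≤ ∫ s, F2 s ∂μ := integral_nonneg_of_ae (by
    filter_upwards [weibull_ae_pos ha0 hμ] with s hs
    exact Set.indicator_apply_nonneg (fun _ => by positivity))
  have hφg : ∫⁻ p, g p ∂(μ.prod ν) ≤ ENNReal.ofReal φ := by
    have h1 : ∫⁻ p, g p ∂(μ.prod ν) = ENNReal.ofReal ((∫ s, F1 s ∂μ) * ∫ t, D t ∂ν) := by
      rw [← integral_prod_mul, ofReal_integral_eq_lintegral_ofReal (i1.mul_prod i3)
        (by filter_upwards with p using mul_nonneg (hF10 _) (hD0 _))]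
    rw [h1]
    apply ENNReal.ofReal_le_ofReal
    refine le_trans ?_ hφ
    have h2 : 2 * θ' * (∫ t, min t τ ∂ν) = 2 * (θ' * ∫ t, min t τ ∂ν) := by ring
    apply mul_le_mul b1 b3 hI3
    positivity
  have hγg : ∫⁻ p, u p * g p ∂(μ.prod ν) ≤ ENNReal.ofReal γ := by
    have h1 : ∫⁻ p, u p * g p ∂(μ.prod ν) = ENNReal.ofReal ((∫ s, F2 s ∂μ) * ∫ t, D t ∂ν) := by
      have hae : ∀ᵐ p ∂(μ.prod ν), 0 < p.1 :=
        (Measure.quasiMeasurePreserving_fst (μ := μ) (ν := ν)).ae (weibull_ae_pos ha0 hμ)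
      have h2 : ∫⁻ p, u p * g p ∂(μ.prod ν) = ∫⁻ p, ENNReal.ofReal (F2 p.1 * D p.2)
          ∂(μ.prod ν) := by
        apply lintegral_congr_ae
        filter_upwards [hae] with p hp
        rw [hu, hg]
        simp only
        rw [← ENNReal.ofReal_mul (by positivity)]
        congr 1
        rw [← mul_assoc]
        congr 1
        rw [hF1, hF2]
        by_cases hm : p.1 ∈ Set.Iic (b * x)
        · rw [Set.indicator_of_mem hm, Set.indicator_of_mem hm]
        · rw [Set.indicator_of_notMem hm, Set.indicator_of_notMem hm, mul_zero]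
      rw [h2, ← integral_prod_mul, ofReal_integral_eq_lintegral_ofReal (i2.mul_prod i3)]
      filter_upwards [hae] with p hp
      exact mul_nonneg (Set.indicator_apply_nonneg (fun _ => by positivity)) (hD0 _)
    rw [h1]
    apply ENNReal.ofReal_le_ofReal
    refine le_trans ?_ hγ
    calc (∫ s, F2 s ∂μ) * ∫ t, D t ∂ν ≤ (∫ s, F2 s ∂μ) * 1 := by gcongr
      _ ≤ _ := by rw [mul_one]; exact b2
  have hφ0 : 0 ≤ φ := by
    refine le_trans ?_ hφ
    have : 0 ≤ 1 - 2 * θ' * (∫ t, min t τ ∂ν) + (2 * θ') ^ 2 * τ ^ 2 := hI3.trans b3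
    positivity
  have hγ0 : 0 ≤ γ := le_trans (by positivity) hγ
  calc 1 * (∫⁻ p, g p ∂(μ.prod ν)) ^ n +
        n * (∫⁻ p, u p * g p ∂(μ.prod ν)) * (∫⁻ p, g p ∂(μ.prod ν)) ^ (n - 1)
      ≤ 1 * (ENNReal.ofReal φ) ^ n + n * (ENNReal.ofReal γ) * (ENNReal.ofReal φ) ^ (n - 1) := by
        gcongr
    _ = ENNReal.ofReal (φ ^ n + n * γ * φ ^ (n - 1)) := by
        rw [ENNReal.ofReal_add (by positivity) (by positivity), ENNReal.ofReal_mul (by positivity),
          ENNReal.ofReal_mul (by positivity), ENNReal.ofReal_pow hφ0, ENNReal.ofReal_pow hφ0,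
          ENNReal.ofReal_natCast, one_mul]

/-- the constants -/
lemma wkC_limit {E m C τ rp rm η : ℝ} (hE : 0 ≤ E) (hrp : 0 < rp)
    (hD : rp * E < 2 * rm * m) (hη : 0 < η) :
    ∀ᶠ h in 𝓝[>] (0 : ℝ), 0 ≤ (1 + rp * h * E + (rp * h) ^ 2 * C) *
        (1 - 2 * (rm * h) * m + (2 * (rm * h)) ^ 2 * τ ^ 2) ∧
      (1 + rp * h * E + (rp * h) ^ 2 * C) *
        (1 - 2 * (rm * h) * m + (2 * (rm * h)) ^ 2 * τ ^ 2) < 1 ∧
      1 / (1 - (1 + rp * h * E + (rp * h) ^ 2 * C) *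
        (1 - 2 * (rm * h) * m + (2 * (rm * h)) ^ 2 * τ ^ 2)) +
      (rp * h * E + (rp * h) ^ 2 * C) / (1 - (1 + rp * h * E + (rp * h) ^ 2 * C) *
        (1 - 2 * (rm * h) * m + (2 * (rm * h)) ^ 2 * τ ^ 2)) ^ 2 ≤
      (1 + η) / h * (1 / (2 * rm * m - rp * E) + rp * E / (2 * rm * m - rp * E) ^ 2) := by
  set D := 2 * rm * m - rp * E with hDD
  have hD0 : 0 < D := by linarith
  set Q : ℝ → ℝ := fun h => D - h * (C * rp ^ 2 + 4 * rm ^ 2 * τ ^ 2 - 2 * rp * rm * E * m +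
    h * (rp * E * 4 * rm ^ 2 * τ ^ 2 - C * rp ^ 2 * 2 * rm * m) +
    h ^ 2 * (C * rp ^ 2 * 4 * rm ^ 2 * τ ^ 2)) with hQ
  have hid : ∀ h, 1 - (1 + rp * h * E + (rp * h) ^ 2 * C) *
        (1 - 2 * (rm * h) * m + (2 * (rm * h)) ^ 2 * τ ^ 2) = h * Q h := by
    intro h
    rw [hQ, hDD]
    ring
  have hQc : Continuous Q := by rw [hQ]; fun_prop
  have hQ0 : Q 0 = D := by rw [hQ]; simp
  have hQlim : Tendsto Q (𝓝[>] 0) (𝓝 D) := by
    have := hQc.tendsto 0
    rw [hQ0] at this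
    exact this.mono_left nhdsWithin_le_nhds
  have hid0 : Tendsto (fun h : ℝ => h) (𝓝[>] 0) (𝓝 0) := nhdsWithin_le_nhds
  have hlim : Tendsto (fun h => 1 / Q h + (rp * E + rp ^ 2 * h * C) / Q h ^ 2) (𝓝[>] 0)
      (𝓝 (1 / D + (rp * E + rp ^ 2 * 0 * C) / D ^ 2)) := by
    apply Tendsto.add
    · exact tendsto_const_nhds.div hQlim hD0.ne'
    · apply Tendsto.div _ (hQlim.pow 2) (by positivity)
      exact tendsto_const_nhds.add ((tendsto_const_nhds.mul hid0).mul tendsto_const_nhds)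
  rw [mul_zero, zero_mul, add_zero] at hlim
  have hLpos : 0 < 1 / D + rp * E / D ^ 2 := by positivity
  have hev := hlim.eventually_lt_const (u := (1 + η) * (1 / D + rp * E / D ^ 2)) (by nlinarith)
  have hev2 : ∀ᶠ h in 𝓝[>] (0 : ℝ), 0 < Q h := hQlim.eventually_const_lt hD0
  have hev3 : ∀ᶠ h in 𝓝[>] (0 : ℝ), h * Q h < 1 := by
    have : Tendsto (fun h => h * Q h) (𝓝[>] 0) (𝓝 (0 * D)) := hid0.mul hQlim
    rw [zero_mul] at this
    exact this.eventually_lt_const zero_lt_one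
  filter_upwards [hev, hev2, hev3, self_mem_nhdsWithin] with h h1 h2 h3 h4
  have h4' : (0 : ℝ) < h := h4
  have h5 := hid h
  have h6 : 0 < h * Q h := by positivity
  refine ⟨by linarith, by linarith, ?_⟩
  rw [h5]
  have e1 : 1 / (h * Q h) + (rp * h * E + (rp * h) ^ 2 * C) / (h * Q h) ^ 2 =
      1 / h * (1 / Q h + (rp * E + rp ^ 2 * h * C) / Q h ^ 2) := by
    field_simp
  have e2 : (1 + η) / h * (1 / D + rp * E / D ^ 2) =
      1 / h * ((1 + η) * (1 / D + rp * E / D ^ 2)) := by ring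
  rw [e1, e2]
  gcongr

theorem walkC_sum (ha0 : 0 < a) (ha1 : a < 1)
    (hμ : ∀ x, 0 ≤ x → μ (Set.Ioi x) = ENNReal.ofReal (Real.exp (-(x ^ a))))
    (hν : ν (Set.Iio 0) = 0) {τ rp rm b : ℝ} (hτ : 0 < τ) (hrp : 0 < rp) (hrp2 : rp ≤ 2)
    (hrm : 0 < rm) (hb : 0 < b) (hb4 : 4 * b ^ (1 - a) ≤ 1 / 2)
    (hD : rp * (∫ s, s ∂μ) < 2 * rm * ∫ t, min t τ ∂ν) {η : ℝ} (hη : 0 < η) :
    ∀ᶠ x : ℝ in atTop, ∀ N : ℕ,
      ∑ n ∈ Finset.range N, walkC μ ν (b * x) τ (rp * (a * x ^ (a - 1))) (rm * (a * x ^ (a - 1))) n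
        ≤ ENNReal.ofReal ((1 + η) / (a * x ^ (a - 1)) *
          (1 / (2 * rm * (∫ t, min t τ ∂ν) - rp * ∫ s, s ∂μ) +
            rp * (∫ s, s ∂μ) / (2 * rm * (∫ t, min t τ ∂ν) - rp * ∫ s, s ∂μ) ^ 2)) := by
  have hE0 : 0 ≤ ∫ s, s ∂μ := integral_nonneg_of_ae (by
    filter_upwards [weibull_ae_pos ha0 hμ] with s hs using hs.le)
  have hlim := wkC_limit (C := wkC μ a) (τ := τ) hE0 hrp hD hη
  filter_upwards [wk_hazard ha0 ha1 hlim, eventually_gt_atTop 0] with x hx hx0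
  intro N
  obtain ⟨h1, h2, h3⟩ := hx
  set φ := (1 + rp * (a * x ^ (a - 1)) * (∫ s, s ∂μ) +
      (rp * (a * x ^ (a - 1))) ^ 2 * wkC μ a) * (1 - 2 * (rm * (a * x ^ (a - 1))) *
        (∫ t, min t τ ∂ν) + (2 * (rm * (a * x ^ (a - 1)))) ^ 2 * τ ^ 2) with hφ
  set γ := rp * (a * x ^ (a - 1)) * (∫ s, s ∂μ) + (rp * (a * x ^ (a - 1))) ^ 2 * wkC μ a with hγ
  have hC0 := wkC_nonneg μ a
  have hγ0 : 0 ≤ γ := by positivity
  have hle := walkC_le ha0 ha1 hμ hν hτ hrp hrp2 hrm hb hb4 hx0 (φ := φ) (γ := γ) le_rfl le_rfl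
  calc ∑ n ∈ Finset.range N, walkC μ ν (b * x) τ (rp * (a * x ^ (a - 1)))
        (rm * (a * x ^ (a - 1))) n
      ≤ ∑ n ∈ Finset.range N, ENNReal.ofReal (φ ^ n + n * γ * φ ^ (n - 1)) :=
        Finset.sum_le_sum fun n _ => hle n
    _ = ENNReal.ofReal (∑ n ∈ Finset.range N, (φ ^ n + n * γ * φ ^ (n - 1))) := by
        rw [ENNReal.ofReal_sum_of_nonneg]
        intro n _
        positivity
    _ ≤ _ := by
        apply ENNReal.ofReal_le_ofReal
        refine le_trans ?_ h3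
        rw [Finset.sum_add_distrib]
        have e : ∑ n ∈ Finset.range N, (n : ℝ) * γ * φ ^ (n - 1) =
            γ * ∑ n ∈ Finset.range N, (n : ℝ) * φ ^ (n - 1) := by
          rw [Finset.mul_sum]
          exact Finset.sum_congr rfl fun n _ => by ring
        rw [e]
        have g1 := wk_geom h1 h2 N
        have g2 := wk_geom2 h1 h2 N
        have g3 : γ * ∑ n ∈ Finset.range N, (n : ℝ) * φ ^ (n - 1) ≤ γ * (1 / (1 - φ) ^ 2) := by
          gcongr
        have g4 : γ * (1 / (1 - φ) ^ 2) = γ / (1 - φ) ^ 2 := by ring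
        linarith

end walkC_

end Pool.Agent.Lib.MP_04add8_pr
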