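import Mathlib
import Pool.Agent.Lib.MP_04add8_pr.Two.Epi
import Pool.Agent.Lib.MP_04add8_pr.Two.WalkA
import Pool.Agent.Lib.MP_04add8_pr.Two.WalkC
import Pool.Agent.Lib.MP_04add8_pr.Two.MainU

open MeasureTheory ProbabilityTheory Filter Topology
open scoped ENNReal

set_option linter.unusedSectionVars false

namespace Pool.Agent.Lib.MP_04add8_pr

variable {a : ℝ} {μ ν : Measure ℝ} [IsProbabilityMeasure μ] [IsProbabilityMeasure ν]

/-- the limiting constant of the first phase -/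
noncomputable def cA (E mτ rp rm : ℝ) : ℝ := 1 / ((rp + rm) * mτ - rp * E)

/-- the limiting constant of the second phase -/
noncomputable def cC (E mτ rp rm : ℝ) : ℝ :=
  1 / (2 * rm * mτ - rp * E) + rp * E / (2 * rm * mτ - rp * E) ^ 2

/-- one main event under the stationary law -/
lemma mainEvent_le (ha0 : 0 < a) (ha1 : a < 1)
    (hμ : ∀ x, 0 ≤ x → μ (Set.Ioi x) = ENNReal.ofReal (Real.exp (-(x ^ a))))
    (hν : ν (Set.Iio 0) = 0) {x B ε ε4 τ : ℝ} (hx : 0 < x) (hε0 : 0 < ε) (hε : ε ≤ 1 / 8)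
    (hε4 : 0 < ε4) (hτ : 0 ≤ τ) {n1 n2 : ℕ} (hN : (n1 + n2 + 2 : ℝ) * τ ≤ ε4 * x)
    {π : Measure (ℝ × ℝ)} (hπ : IsStationaryKW μ ν π) :
    (π.prod (noise μ ν)) (mainEvent x B ε n1 n2) ≤
      ∫⁻ w, ({w : ℝ × ℝ | w.2 ≤ 2 * ε * x}).indicator (fun w =>
        ENNReal.ofReal (Real.exp (-(x ^ a)) ^ 2 *
          Real.exp ((1 - 4 * ε) ^ (a - 1) * (a * x ^ (a - 1)) * w.1)) *
        walkA μ ν B τ ((1 - 4 * ε) ^ (a - 1) * (a * x ^ (a - 1)))
          ((1 + ε4) ^ (a - 1) * (a * x ^ (a - 1))) n1 w.2 *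
        walkC μ ν B τ ((1 - 4 * ε) ^ (a - 1) * (a * x ^ (a - 1)))
          ((1 + ε4) ^ (a - 1) * (a * x ^ (a - 1))) n2) w ∂π := by
  have hp : IsProbabilityMeasure π := hπ.1
  rw [Measure.prod_apply (measurableSet_mainEvent _ _ _ _ _)]
  apply lintegral_mono_ae
  filter_upwards [hπ.ae_ordered] with w hw
  by_cases hwx : w.2 ≤ 2 * ε * x
  · rw [Set.indicator_of_mem (by exact hwx)]
    exact mainEvent_bound ha0 ha1 hμ hν hx hε0 hε hε4 hτ hN hw.1 hw.2 hwx
  · have : Prod.mk w ⁻¹' mainEvent x B ε n1 n2 = ∅ := by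
      ext z
      simp only [Set.mem_preimage, Set.mem_empty_iff_false, iff_false]
      intro hz
      exact hwx hz.1
    rw [this, measure_empty]
    exact zero_le

/-- the sum of all main events -/
theorem main_sum (ha0 : 0 < a) (ha1 : a < 1)
    (hμ : ∀ x, 0 ≤ x → μ (Set.Ioi x) = ENNReal.ofReal (Real.exp (-(x ^ a))))
    (hν : ν (Set.Iio 0) = 0) (hνi : Integrable (fun t : ℝ => t) ν)
    (hm : 0 < ∫ t, t ∂ν)
    (hgt : (∫ t, t ∂ν) < ∫ s, s ∂μ) (hlt : (∫ s, s ∂μ) < 2 * ∫ t, t ∂ν)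
    {ε ε4 τ b : ℝ} (hε0 : 0 < ε) (hε : ε ≤ 1 / 8) (hε8 : 8 * (2 * ε) ^ (1 - a) ≤ 1)
    (hε4 : 0 < ε4) (hτ : 0 < τ) (hb : 0 < b) (hb4 : 4 * b ^ (1 - a) ≤ 1 / 2)
    (hgtτ : (∫ t, min t τ ∂ν) < ∫ s, s ∂μ)
    (hDA : (1 - 4 * ε) ^ (a - 1) * (∫ s, s ∂μ) <
      ((1 - 4 * ε) ^ (a - 1) + (1 + ε4) ^ (a - 1)) * ∫ t, min t τ ∂ν)
    (hDC : (1 - 4 * ε) ^ (a - 1) * (∫ s, s ∂μ) < 2 * (1 + ε4) ^ (a - 1) * ∫ t, min t τ ∂ν)
    {η : ℝ} (hη : 0 < η) :
    ∀ᶠ x : ℝ in atTop, ∀ π : Measure (ℝ × ℝ), IsStationaryKW μ ν π → ∀ N : ℕ,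
      (N : ℝ) * τ ≤ ε4 * x →
      ∑ p ∈ (Finset.range N ×ˢ Finset.range N).filter (fun p => p.1 + p.2 + 2 ≤ N),
        (π.prod (noise μ ν)) (mainEvent x (b * x) ε p.1 p.2) ≤
      ENNReal.ofReal ((1 + η) ^ 3 * (cA (∫ s, s ∂μ) (∫ t, min t τ ∂ν) ((1 - 4 * ε) ^ (a - 1))
        ((1 + ε4) ^ (a - 1)) * cC (∫ s, s ∂μ) (∫ t, min t τ ∂ν) ((1 - 4 * ε) ^ (a - 1))
        ((1 + ε4) ^ (a - 1))) * (Real.exp (-(x ^ a)) / (a * x ^ (a - 1))) ^ 2) := by
  set rp := (1 - 4 * ε) ^ (a - 1) with hrpdef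
  set rm := (1 + ε4) ^ (a - 1) with hrmdef
  set E := ∫ s, s ∂μ with hE
  set mτ := ∫ t, min t τ ∂ν with hmτ
  have h14 : 0 < 1 - 4 * ε := by linarith
  have hrp0 : 0 < rp := by positivity
  have hrm0 : 0 < rm := by positivity
  have hrp2 : rp ≤ 2 := by
    have h1 : (1 / 2 : ℝ) ≤ 1 - 4 * ε := by linarith
    have h2 : rp ≤ (1 / 2 : ℝ) ^ (a - 1) :=
      Real.rpow_le_rpow_of_nonpos (by norm_num) h1 (by linarith)
    have h3 : (1 / 2 : ℝ) ^ (a - 1) ≤ (1 / 2 : ℝ) ^ (-1 : ℝ) :=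
      Real.rpow_le_rpow_of_exponent_ge (by norm_num) (by norm_num) (by linarith)
    have h4 : (1 / 2 : ℝ) ^ (-1 : ℝ) = 2 := by
      rw [Real.rpow_neg_one]; norm_num
    linarith
  have hA := walkA_sum (ν := ν) ha0 ha1 hμ hν hτ hrp0 hrp2 hrm0 hb hb4 hgtτ hDA hη
  have hC := walkC_sum (ν := ν) ha0 ha1 hμ hν hτ hrp0 hrp2 hrm0 hb hb4 hDC hη
  have hP := epi ha0 ha1 hμ hν hνi hm hgt hlt hrp0 hrp2 hε0 hε8 hη
  filter_upwards [hA, hC, hP, eventually_gt_atTop 0] with x hA hC hP hx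
  intro π hπ N hN
  have hp : IsProbabilityMeasure π := hπ.1
  set h := a * x ^ (a - 1) with hh
  have hh0 : 0 < h := by positivity
  set DA := (rp + rm) * mτ - rp * E with hDAdef
  have hDA0 : 0 < DA := by rw [hDAdef]; linarith
  set KC := 1 / (2 * rm * mτ - rp * E) + rp * E / (2 * rm * mτ - rp * E) ^ 2 with hKC
  have hE0 : 0 < E := hm.trans hgt
  have hDC0 : 0 < 2 * rm * mτ - rp * E := by linarith
  have hKC0 : 0 < KC := by positivity
  have hcA : cA E mτ rp rm = 1 / DA := rfl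
  have hcC : cC E mτ rp rm = KC := rfl
  set F : ℕ × ℕ → (ℝ × ℝ) → ℝ≥0∞ := fun p w =>
    ({w : ℝ × ℝ | w.2 ≤ 2 * ε * x}).indicator (fun w =>
        ENNReal.ofReal (Real.exp (-(x ^ a)) ^ 2 * Real.exp (rp * h * w.1)) *
        walkA μ ν (b * x) τ (rp * h) (rm * h) p.1 w.2 *
        walkC μ ν (b * x) τ (rp * h) (rm * h) p.2) w with hF
  have hFm : ∀ p, Measurable (F p) := by
    intro p
    apply Measurable.indicator
    · have h1 : Measurable fun w : ℝ × ℝ =>
          walkA μ ν (b * x) τ (rp * h) (rm * h) p.1 w.2 :=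
        (measurable_walkA _ _ _ _ _).comp measurable_snd
      fun_prop
    · exact measurableSet_le (by fun_prop) measurable_const
  calc ∑ p ∈ (Finset.range N ×ˢ Finset.range N).filter (fun p => p.1 + p.2 + 2 ≤ N),
        (π.prod (noise μ ν)) (mainEvent x (b * x) ε p.1 p.2)
      ≤ ∑ p ∈ (Finset.range N ×ˢ Finset.range N).filter (fun p => p.1 + p.2 + 2 ≤ N),
          ∫⁻ w, F p w ∂π := by
        apply Finset.sum_le_sum
        intro p hp'
        rw [Finset.mem_filter] at hp'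
        apply mainEvent_le ha0 ha1 hμ hν hx hε0 hε hε4 hτ.le _ hπ
        have h1 : ((p.1 + p.2 + 2 : ℕ) : ℝ) ≤ N := by exact_mod_cast hp'.2
        push_cast at h1
        calc ((p.1 : ℝ) + p.2 + 2) * τ ≤ N * τ := by gcongr
          _ ≤ _ := hN
    _ ≤ ∑ p ∈ Finset.range N ×ˢ Finset.range N, ∫⁻ w, F p w ∂π :=
        Finset.sum_le_sum_of_subset (Finset.filter_subset _ _)
    _ = ∫⁻ w, ∑ p ∈ Finset.range N ×ˢ Finset.range N, F p w ∂π := by
        rw [lintegral_finsetSum _ fun p _ => hFm p]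
    _ ≤ ∫⁻ w, ENNReal.ofReal (Real.exp (-(x ^ a)) ^ 2 * ((1 + η) / (DA * h)) *
          ((1 + η) / h * KC)) * ({w : ℝ × ℝ | w.2 ≤ 2 * ε * x}).indicator
        (fun w => ENNReal.ofReal (Real.exp (2 * (rp * h) * w.2))) w ∂π := by
        apply lintegral_mono_ae
        filter_upwards [hπ.ae_ordered] with w hw
        by_cases hwx : w.2 ≤ 2 * ε * x
        · have hw2 : 0 ≤ w.2 := hw.1.trans hw.2
          have e1 : ∀ p, F p w =
              ENNReal.ofReal (Real.exp (-(x ^ a)) ^ 2 * Real.exp (rp * h * w.1)) *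
              (walkA μ ν (b * x) τ (rp * h) (rm * h) p.1 w.2 *
              walkC μ ν (b * x) τ (rp * h) (rm * h) p.2) := by
            intro p
            rw [hF]
            simp only
            rw [Set.indicator_of_mem (by exact hwx), mul_assoc]
          simp only [e1]
          have e3 : ∑ p ∈ Finset.range N ×ˢ Finset.range N,
              (walkA μ ν (b * x) τ (rp * h) (rm * h) p.1 w.2 *
              walkC μ ν (b * x) τ (rp * h) (rm * h) p.2) =
              (∑ n ∈ Finset.range N, walkA μ ν (b * x) τ (rp * h) (rm * h) n w.2) *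
              ∑ n ∈ Finset.range N, walkC μ ν (b * x) τ (rp * h) (rm * h) n := by
            rw [Finset.sum_mul_sum, Finset.sum_product]
          rw [← Finset.mul_sum, e3, Set.indicator_of_mem (by exact hwx)]
          calc _ ≤ ENNReal.ofReal (Real.exp (-(x ^ a)) ^ 2 * Real.exp (rp * h * w.1)) *
                (ENNReal.ofReal ((1 + η) / (DA * h) * Real.exp (rp * h * w.2)) *
                ENNReal.ofReal ((1 + η) / h * KC)) := by
                gcongr
                · exact hA N w.2 hw2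
                · exact hC N
            _ = ENNReal.ofReal ((Real.exp (-(x ^ a)) ^ 2 * ((1 + η) / (DA * h)) *
                  ((1 + η) / h * KC)) * (Real.exp (rp * h * w.1) * Real.exp (rp * h * w.2))) := by
                rw [← ENNReal.ofReal_mul (by positivity), ← ENNReal.ofReal_mul (by positivity)]
                congr 1
                ring
            _ ≤ _ := by
                rw [← ENNReal.ofReal_mul (by positivity)]
                apply ENNReal.ofReal_le_ofReal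
                have e2 : Real.exp (rp * h * w.1) * Real.exp (rp * h * w.2) ≤
                    Real.exp (2 * (rp * h) * w.2) := by
                  rw [← Real.exp_add]
                  apply Real.exp_le_exp.mpr
                  have : rp * h * w.1 ≤ rp * h * w.2 := by
                    have := hw.2
                    gcongr
                  linarith
                gcongr
        · have e1 : ∀ p, F p w = 0 := by
            intro p
            rw [hF]
            simp only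
            rw [Set.indicator_of_notMem (by exact hwx)]
          simp [e1]
    _ = ENNReal.ofReal (Real.exp (-(x ^ a)) ^ 2 * ((1 + η) / (DA * h)) *
          ((1 + η) / h * KC)) * ∫⁻ w, ({w : ℝ × ℝ | w.2 ≤ 2 * ε * x}).indicator
        (fun w => ENNReal.ofReal (Real.exp (2 * (rp * h) * w.2))) w ∂π := by
        rw [lintegral_const_mul]
        apply Measurable.indicator
        · fun_prop
        · exact measurableSet_le (by fun_prop) measurable_const
    _ ≤ ENNReal.ofReal (Real.exp (-(x ^ a)) ^ 2 * ((1 + η) / (DA * h)) *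
          ((1 + η) / h * KC)) * ENNReal.ofReal (1 + η) := by
        gcongr
        exact hP π hπ
    _ = _ := by
        rw [← ENNReal.ofReal_mul (by positivity), hcA, hcC]
        congr 1
        field_simp

end Pool.Agent.Lib.MP_04add8_pr
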