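import Mathlib
import Pool.Agent.Lib.MP_04add8_pr.Two.MainSum

open MeasureTheory ProbabilityTheory Filter Topology
open scoped ENNReal

set_option linter.unusedSectionVars false

namespace Pool.Agent.Lib.MP_04add8_pr

variable {a : ℝ} {μ ν : Measure ℝ} [IsProbabilityMeasure μ] [IsProbabilityMeasure ν]

lemma param_exists (ha0 : 0 < a) (ha1 : a < 1)
    (hν : ν (Set.Iio 0) = 0) (hνi : Integrable (fun t : ℝ => t) ν)
    (hm : 0 < ∫ t, t ∂ν) {E : ℝ} (hgt : (∫ t, t ∂ν) < E) (hlt : E < 2 * ∫ t, t ∂ν)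
    {η : ℝ} (hη : 0 < η) :
    ∃ ε ε4 τ : ℝ, 0 < ε ∧ ε ≤ 1 / 8 ∧ 8 * (2 * ε) ^ (1 - a) ≤ 1 ∧ 0 < ε4 ∧ 0 < τ ∧
      (∫ t, min t τ ∂ν) < E ∧
      (1 - 4 * ε) ^ (a - 1) * E <
        ((1 - 4 * ε) ^ (a - 1) + (1 + ε4) ^ (a - 1)) * ∫ t, min t τ ∂ν ∧
      (1 - 4 * ε) ^ (a - 1) * E < 2 * (1 + ε4) ^ (a - 1) * ∫ t, min t τ ∂ν ∧
      cA E (∫ t, min t τ ∂ν) ((1 - 4 * ε) ^ (a - 1)) ((1 + ε4) ^ (a - 1)) *
        cC E (∫ t, min t τ ∂ν) ((1 - 4 * ε) ^ (a - 1)) ((1 + ε4) ^ (a - 1)) <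
        2 * (∫ t, t ∂ν) / (2 * (∫ t, t ∂ν) - E) ^ 3 + η := by
  set m := ∫ t, t ∂ν with hmdef
  have hc : 0 < 2 * m - E := by linarith
  have hE : 0 < E := hm.trans hgt
  have hinv : Tendsto (fun n : ℕ => (1 : ℝ) / ((n : ℝ) + 1)) atTop (𝓝 0) :=
    tendsto_one_div_add_atTop_nhds_zero_nat
  have hmin := tendsto_integral_min hν hνi
  have h1a : 0 < 1 - a := by linarith
  have hrp : Tendsto (fun n : ℕ => (1 - 4 * (1 / 8 * ((1 : ℝ) / ((n : ℝ) + 1)))) ^ (a - 1)) atTop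
      (𝓝 1) := by
    have h1 : Tendsto (fun n : ℕ => (1 - 4 * (1 / 8 * ((1 : ℝ) / ((n : ℝ) + 1))))) atTop
        (𝓝 (1 - 4 * (1 / 8 * 0))) := ((hinv.const_mul _).const_mul _).const_sub _
    have h2 := h1.rpow_const (p := a - 1) (Or.inl (by norm_num))
    simpa using h2
  have hrm : Tendsto (fun n : ℕ => (1 + ((1 : ℝ) / ((n : ℝ) + 1))) ^ (a - 1)) atTop (𝓝 1) := by
    have h1 : Tendsto (fun n : ℕ => (1 + ((1 : ℝ) / ((n : ℝ) + 1)))) atTop
        (𝓝 (1 + 0)) := hinv.const_add _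
    have h2 := h1.rpow_const (p := a - 1) (Or.inl (by norm_num))
    simpa using h2
  have hε8 : Tendsto (fun n : ℕ => 8 * (2 * (1 / 8 * ((1 : ℝ) / ((n : ℝ) + 1)))) ^ (1 - a)) atTop
      (𝓝 0) := by
    have h1 : Tendsto (fun n : ℕ => (2 * (1 / 8 * ((1 : ℝ) / ((n : ℝ) + 1))))) atTop
        (𝓝 (2 * (1 / 8 * 0))) := (hinv.const_mul _).const_mul _
    have h2 := (h1.rpow_const (p := 1 - a) (Or.inr h1a.le)).const_mul 8
    simpa [Real.zero_rpow h1a.ne'] using h2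
  set rp : ℕ → ℝ := fun n => (1 - 4 * (1 / 8 * ((1 : ℝ) / ((n : ℝ) + 1)))) ^ (a - 1) with hrpdef
  set rm : ℕ → ℝ := fun n => (1 + ((1 : ℝ) / ((n : ℝ) + 1))) ^ (a - 1) with hrmdef
  set mm : ℕ → ℝ := fun n => ∫ t, min t (n : ℝ) ∂ν with hmm
  have hDA : Tendsto (fun n => (rp n + rm n) * mm n - rp n * E) atTop (𝓝 (2 * m - E)) := by
    have := ((hrp.add hrm).mul hmin).sub (hrp.mul_const E)
    have e : (1 + 1) * m - 1 * E = 2 * m - E := by ring
    rw [e] at this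
    exact this
  have hDC : Tendsto (fun n => 2 * rm n * mm n - rp n * E) atTop (𝓝 (2 * m - E)) := by
    have := ((hrm.const_mul 2).mul hmin).sub (hrp.mul_const E)
    have e : 2 * 1 * m - 1 * E = 2 * m - E := by ring
    rw [e] at this
    exact this
  have hA : Tendsto (fun n => cA E (mm n) (rp n) (rm n)) atTop (𝓝 (1 / (2 * m - E))) := by
    unfold cA
    exact tendsto_const_nhds.div hDA hc.ne'
  have hC : Tendsto (fun n => cC E (mm n) (rp n) (rm n)) atTop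
      (𝓝 (1 / (2 * m - E) + 1 * E / (2 * m - E) ^ 2)) := by
    unfold cC
    exact (tendsto_const_nhds.div hDC hc.ne').add
      ((hrp.mul_const E).div (hDC.pow 2) (pow_ne_zero 2 hc.ne'))
  have hF : Tendsto (fun n => cA E (mm n) (rp n) (rm n) * cC E (mm n) (rp n) (rm n)) atTop
      (𝓝 (2 * m / (2 * m - E) ^ 3)) := by
    have := hA.mul hC
    have e : 1 / (2 * m - E) * (1 / (2 * m - E) + 1 * E / (2 * m - E) ^ 2) =
        2 * m / (2 * m - E) ^ 3 := by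
      field_simp
      ring
    rw [e] at this
    exact this
  have hmle : ∀ n : ℕ, mm n ≤ m := by
    intro n
    apply integral_mono_ae (min_integrable hν (by positivity)) hνi
    filter_upwards with t
    exact min_le_left _ _
  have ev1 := hF.eventually_lt_const (show 2 * m / (2 * m - E) ^ 3 <
    2 * m / (2 * m - E) ^ 3 + η by linarith)
  have ev2 := hDA.eventually_const_lt hc
  have ev3 := hDC.eventually_const_lt hc
  have ev4 := hε8.eventually_lt_const (show (0 : ℝ) < 1 by norm_num)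
  obtain ⟨n, e1, e2, e3, e4, e5⟩ :=
    (ev1.and (ev2.and (ev3.and (ev4.and (eventually_ge_atTop 1))))).exists
  have hn : (1 : ℝ) ≤ n := by exact_mod_cast e5
  refine ⟨1 / 8 * ((1 : ℝ) / ((n : ℝ) + 1)), (1 : ℝ) / ((n : ℝ) + 1), n, by positivity, ?_,
    e4.le, by positivity, by linarith, ?_, ?_, ?_, e1⟩
  · have : (1 : ℝ) / ((n : ℝ) + 1) ≤ 1 := by
      rw [div_le_one (by positivity)]; linarith
    linarith
  · exact (hmle n).trans_lt hgt
  · have e2' : 0 < (rp n + rm n) * mm n - rp n * E := e2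
    change rp n * E < (rp n + rm n) * mm n
    linarith
  · have e3' : 0 < 2 * rm n * mm n - rp n * E := e3
    change rp n * E < 2 * rm n * mm n
    linarith

lemma tendsto_rpow_mul_exp_neg_rpow {a c : ℝ} (ha0 : 0 < a) (hc : 0 < c) (q : ℝ) :
    Tendsto (fun x : ℝ => x ^ q * Real.exp (-(c * x ^ a))) atTop (𝓝 0) := by
  have h1 := (tendsto_rpow_mul_exp_neg_mul_atTop_nhds_zero (q / a) c hc).comp
    (tendsto_rpow_atTop ha0)
  refine h1.congr' ?_
  filter_upwards [eventually_gt_atTop 0] with x hx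
  simp only [Function.comp]
  rw [← Real.rpow_mul hx.le, mul_div_cancel₀ _ ha0.ne']
  congr 2
  ring

lemma small_err {a c : ℝ} (ha0 : 0 < a) (hc : 0 < c) (C p : ℝ) {η : ℝ} (hη : 0 < η) :
    ∀ᶠ x : ℝ in atTop, C * x ^ p * Real.exp (-((2 + c) * x ^ a)) ≤
      η * (Real.exp (-(x ^ a)) / (a * x ^ (a - 1))) ^ 2 := by
  have h1 : Tendsto (fun x : ℝ => C * a ^ 2 * (x ^ (p + 2 * (a - 1)) *
      Real.exp (-(c * x ^ a)))) atTop (𝓝 0) := by
    simpa using (tendsto_rpow_mul_exp_neg_rpow ha0 hc (p + 2 * (a - 1))).const_mul (C * a ^ 2)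
  filter_upwards [h1.eventually_le_const hη, eventually_gt_atTop 0] with x hx hx0
  have hh : 0 < a * x ^ (a - 1) := by positivity
  have e1 : x ^ (p + 2 * (a - 1)) = x ^ p * (x ^ (a - 1)) ^ 2 := by
    rw [Real.rpow_add hx0, mul_comm 2 (a - 1), Real.rpow_mul hx0.le]
    norm_num
  have e2 : Real.exp (-((2 + c) * x ^ a)) = Real.exp (-(c * x ^ a)) * Real.exp (-(x ^ a)) ^ 2 := by
    rw [← Real.exp_nat_mul, ← Real.exp_add]
    congr 1
    push_cast
    ring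
  have e3 : C * x ^ p * Real.exp (-((2 + c) * x ^ a)) =
      (C * a ^ 2 * (x ^ (p + 2 * (a - 1)) * Real.exp (-(c * x ^ a)))) *
        (Real.exp (-(x ^ a)) / (a * x ^ (a - 1))) ^ 2 := by
    rw [e1, e2]
    field_simp
  rw [e3]
  gcongr

end Pool.Agent.Lib.MP_04add8_pr
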