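import Mathlib
import Pool.Agent.Lib.MP_04add8_pr.Two.Params
import Pool.Agent.Lib.MP_04add8_pr.Two.Det2
import Pool.Agent.Lib.MP_04add8_pr.Two.Excursion
import Pool.Agent.Lib.MP_04add8_pr.Two.CostMarkov

open MeasureTheory ProbabilityTheory Filter Topology
open scoped ENNReal

set_option linter.unusedSectionVars false

namespace Pool.Agent.Lib.MP_04add8_pr

variable {a : ℝ} {μ ν : Measure ℝ} [IsProbabilityMeasure μ] [IsProbabilityMeasure ν]

lemma ae_noise_nonneg (ha0 : 0 < a)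
    (hμ : ∀ x, 0 ≤ x → μ (Set.Ioi x) = ENNReal.ofReal (Real.exp (-(x ^ a))))
    (hν : ν (Set.Iio 0) = 0) :
    ∀ᵐ z ∂(noise μ ν), ∀ k, 0 ≤ (z k).1 ∧ 0 ≤ (z k).2 := by
  apply ae_noise (p := fun p : ℝ × ℝ => 0 ≤ p.1 ∧ 0 ≤ p.2)
  have h1 : ∀ᵐ p ∂(μ.prod ν), 0 ≤ p.1 := by
    have := (Measure.quasiMeasurePreserving_fst (μ := μ) (ν := ν)).ae
      ((weibull_ae_pos ha0 hμ).mono fun s hs => hs.le)
    exact this
  have h2 : ∀ᵐ p ∂(μ.prod ν), 0 ≤ p.2 := by
    have := (Measure.quasiMeasurePreserving_snd (μ := μ) (ν := ν)).ae (ae_nonneg_of_Iio hν)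
    exact this
  filter_upwards [h1, h2] with p hp1 hp2 using ⟨hp1, hp2⟩

/-- almost every path is ordered and has nonnegative noise -/
lemma ae_path (ha0 : 0 < a)
    (hμ : ∀ x, 0 ≤ x → μ (Set.Ioi x) = ENNReal.ofReal (Real.exp (-(x ^ a))))
    (hν : ν (Set.Iio 0) = 0) {π : Measure (ℝ × ℝ)} (hπ : IsStationaryKW μ ν π) :
    ∀ᵐ q ∂(π.prod (noise μ ν)), (0 ≤ q.1.1 ∧ q.1.1 ≤ q.1.2) ∧
      ∀ k, 0 ≤ (q.2 k).1 ∧ 0 ≤ (q.2 k).2 := by
  have hp : IsProbabilityMeasure π := hπ.1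
  have h1 : ∀ᵐ q ∂(π.prod (noise μ ν)), 0 ≤ q.1.1 ∧ q.1.1 ≤ q.1.2 := by
    have := (Measure.quasiMeasurePreserving_fst (μ := π) (ν := noise μ ν)).ae hπ.ae_ordered
    exact this
  have h2 : ∀ᵐ q ∂(π.prod (noise μ ν)), ∀ k, 0 ≤ (q.2 k).1 ∧ 0 ≤ (q.2 k).2 := by
    have := (Measure.quasiMeasurePreserving_snd (μ := π) (ν := noise μ ν)).ae
      (ae_noise_nonneg ha0 hμ hν)
    exact this
  filter_upwards [h1, h2] with q hq1 hq2 using ⟨hq1, hq2⟩

/-- law of the chain at time `n` -/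
lemma path_marginal {π : Measure (ℝ × ℝ)} (hπ : IsStationaryKW μ ν π) (n : ℕ)
    {S : Set (ℝ × ℝ)} (hS : MeasurableSet S) :
    (π.prod (noise μ ν)) {q | pIter q.1 q.2 n ∈ S} = π S := by
  have hp : IsProbabilityMeasure π := hπ.1
  have h1 := (hπ.measurePreserving_path n).measure_preimage
    (s := {q : (ℝ × ℝ) × (ℕ → ℝ × ℝ) | q.1 ∈ S}) (measurable_fst hS).nullMeasurableSet
  have h2 : {q : (ℝ × ℝ) × (ℕ → ℝ × ℝ) | q.1 ∈ S} = S ×ˢ Set.univ := by
    ext q; simp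
  have h3 : pathShift n ⁻¹' {q : (ℝ × ℝ) × (ℕ → ℝ × ℝ) | q.1 ∈ S} =
      {q | pIter q.1 q.2 n ∈ S} := rfl
  rw [h3, h2, Measure.prod_prod] at h1
  simpa using h1

/-- the union bound -/
lemma union_bound (ha0 : 0 < a) (ha1 : a < 1)
    (hμ : ∀ x, 0 ≤ x → μ (Set.Ioi x) = ENNReal.ofReal (Real.exp (-(x ^ a))))
    (hν : ν (Set.Iio 0) = 0) {x b ε ε' δ C : ℝ} (hx : 0 < x) (hb : 0 < b)
    (hε' : 0 < ε') (hε'ε : ε' ≤ ε) (hε'2 : ε' ≤ 1 / 2) (hε2 : ε ≤ 1 / 2) (hδ : 0 < δ)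
    (h1 : δ + ε' ≤ ε) (h2 : δ + ε' ≤ (2 - 2 ^ a) * b ^ a / 2) (N : ℕ)
    {π : Measure (ℝ × ℝ)} (hπ : IsStationaryKW μ ν π) :
    π {w | x < w.1} ≤
      (π.prod (noise μ ν)) {q | (∀ k ≤ N, ε' * x < (pIter q.1 q.2 k).2 ∧
            (pIter q.1 q.2 k).2 ≤ C * x) ∧ x < (pIter q.1 q.2 N).1} +
      (N + 1 : ℕ) * π {w | C * x < w.2} +
      (noise μ ν) {z | (2 + 2 * δ) * x ^ a ≤
        ∑ k ∈ Finset.range N, jcost a (b * x) x (z k).1} +
      ∑ p ∈ (Finset.range N ×ˢ Finset.range N).filter (fun p => p.1 + p.2 + 2 ≤ N),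
        (π.prod (noise μ ν)) (mainEvent x (b * x) ε p.1 p.2) := by
  have hp : IsProbabilityMeasure π := hπ.1
  set SX : Set ((ℝ × ℝ) × (ℕ → ℝ × ℝ)) := {q | (∀ k ≤ N, ε' * x < (pIter q.1 q.2 k).2 ∧
            (pIter q.1 q.2 k).2 ≤ C * x) ∧ x < (pIter q.1 q.2 N).1} with hSX
  set SY : Set ((ℝ × ℝ) × (ℕ → ℝ × ℝ)) :=
    ⋃ k ∈ Finset.range (N + 1), {q | C * x < (pIter q.1 q.2 k).2} with hSY
  set Z : Set (ℕ → ℝ × ℝ) := {z | (2 + 2 * δ) * x ^ a ≤
        ∑ k ∈ Finset.range N, jcost a (b * x) x (z k).1} with hZ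
  set SZ : Set ((ℝ × ℝ) × (ℕ → ℝ × ℝ)) := Set.univ ×ˢ Z with hSZ
  set I := (Finset.range N ×ˢ Finset.range N).filter (fun p => p.1 + p.2 + 2 ≤ N) with hI
  set SM : Set ((ℝ × ℝ) × (ℕ → ℝ × ℝ)) :=
    ⋃ p ∈ I, pathShift (N - (p.1 + p.2 + 2)) ⁻¹' mainEvent x (b * x) ε p.1 p.2 with hSM
  have e0 : π {w | x < w.1} = (π.prod (noise μ ν)) {q | x < (pIter q.1 q.2 N).1} := by
    have := path_marginal hπ N (S := {w : ℝ × ℝ | x < w.1})
      (measurableSet_lt measurable_const measurable_fst)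
    exact this.symm
  have hY : (π.prod (noise μ ν)) SY ≤ (N + 1 : ℕ) * π {w | C * x < w.2} := by
    refine (measure_biUnion_finset_le _ _).trans ?_
    have : ∀ k ∈ Finset.range (N + 1),
        (π.prod (noise μ ν)) {q | C * x < (pIter q.1 q.2 k).2} = π {w | C * x < w.2} := by
      intro k _
      exact path_marginal hπ k (S := {w : ℝ × ℝ | C * x < w.2})
        (measurableSet_lt measurable_const measurable_snd)
    rw [Finset.sum_congr rfl this, Finset.sum_const, Finset.card_range, nsmul_eq_mul]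
  have hZ' : (π.prod (noise μ ν)) SZ = (noise μ ν) Z := by
    rw [hSZ, Measure.prod_prod, measure_univ, one_mul]
  have hM : (π.prod (noise μ ν)) SM ≤ ∑ p ∈ I,
      (π.prod (noise μ ν)) (mainEvent x (b * x) ε p.1 p.2) := by
    refine (measure_biUnion_finset_le _ _).trans ?_
    apply Finset.sum_le_sum
    intro p _
    rw [(hπ.measurePreserving_path _).measure_preimage
      (measurableSet_mainEvent _ _ _ _ _).nullMeasurableSet]
  rw [e0]
  calc (π.prod (noise μ ν)) {q | x < (pIter q.1 q.2 N).1}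
      ≤ (π.prod (noise μ ν)) (SX ∪ SY ∪ SZ ∪ SM) := by
        apply measure_mono_ae
        filter_upwards [ae_path ha0 hμ hν hπ] with q hq hqx
        have hcov := covering (C := C) ha0 ha1 hx hb hε' hε'ε hε'2 hε2 hδ h1 h2 hq.1.1
          hq.1.2 hq.2 N hqx
        rcases hcov with hc | hc | hc | hc
        · exact Or.inl (Or.inl (Or.inl hc))
        · obtain ⟨k, hk, hk'⟩ := hc
          refine Or.inl (Or.inl (Or.inr ?_))
          rw [hSY]
          simp only [Set.mem_iUnion, Finset.mem_range]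
          exact ⟨k, Nat.lt_succ_of_le hk, hk'⟩
        · exact Or.inl (Or.inr ⟨trivial, hc⟩)
        · obtain ⟨l, n1, n2, hl, hc⟩ := hc
          refine Or.inr ?_
          rw [hSM]
          simp only [Set.mem_iUnion]
          refine ⟨(n1, n2), ?_, ?_⟩
          · rw [hI, Finset.mem_filter, Finset.mem_product, Finset.mem_range, Finset.mem_range]
            simp only
            omega
          · have : N - (n1 + n2 + 2) = l := by omega
            simp only [this]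
            exact hc
    _ ≤ (π.prod (noise μ ν)) SX + (π.prod (noise μ ν)) SY + (π.prod (noise μ ν)) SZ +
          (π.prod (noise μ ν)) SM := by
        refine (measure_union_le _ _).trans ?_
        gcongr
        refine (measure_union_le _ _).trans ?_
        gcongr
        exact measure_union_le _ _
    _ ≤ _ := by
        rw [hZ']
        gcongr

/-- **Upper bound** in the regime of two big jobs. -/
theorem upper_two (ha0 : 0 < a) (ha1 : a < 1)
    (hμ : ∀ x, 0 ≤ x → μ (Set.Ioi x) = ENNReal.ofReal (Real.exp (-(x ^ a))))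
    (hν : ν (Set.Iio 0) = 0) (hνi : Integrable (fun t : ℝ => t) ν)
    (hm : 0 < ∫ t, t ∂ν)
    (hgt : (∫ t, t ∂ν) < ∫ s, s ∂μ) (hlt : (∫ s, s ∂μ) < 2 * ∫ t, t ∂ν)
    (h2 : 2 < ((∫ s, s ∂μ) / ((∫ s, s ∂μ) - ∫ t, t ∂ν)) ^ a) {η : ℝ} (hη : 0 < η) :
    ∀ᶠ x : ℝ in atTop, ∀ π : Measure (ℝ × ℝ), IsStationaryKW μ ν π →
      π.real {w | x < w.1} ≤
        (2 * (∫ t, t ∂ν) / (2 * (∫ t, t ∂ν) - ∫ s, s ∂μ) ^ 3 + η) *
          (Real.exp (-(x ^ a)) / (a * x ^ (a - 1))) ^ 2 := by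
  set E := ∫ s, s ∂μ with hE
  set m := ∫ t, t ∂ν with hmdef
  have hE0 : 0 < E := hm.trans hgt
  have hc0 : 0 < 2 * m - E := by linarith
  set K := 2 * m / (2 * m - E) ^ 3 with hK
  have hK0 : 0 < K := by positivity
  obtain ⟨ε, ε4, τ, hε0, hε, hε8, hε4, hτ, hgtτ, hDA, hDC, hF⟩ :=
    param_exists (η := η / 3) ha0 ha1 hν hνi hm hgt hlt (by positivity)
  rw [← hK] at hF
  set F := cA E (∫ t, min t τ ∂ν) ((1 - 4 * ε) ^ (a - 1)) ((1 + ε4) ^ (a - 1)) *
        cC E (∫ t, min t τ ∂ν) ((1 - 4 * ε) ^ (a - 1)) ((1 + ε4) ^ (a - 1)) with hFdef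
  -- the slack `η1`
  obtain ⟨η1, hη10, hη1⟩ : ∃ η1 : ℝ, 0 < η1 ∧ (1 + η1) ^ 3 * F ≤ K + η / 2 := by
    have h3 : Tendsto (fun y : ℝ => (1 + y) ^ 3 * F) (𝓝[>] 0) (𝓝 ((1 + 0) ^ 3 * F)) := by
      apply Tendsto.mono_left _ nhdsWithin_le_nhds
      have : Continuous fun y : ℝ => (1 + y) ^ 3 * F := by fun_prop
      exact this.tendsto 0
    have h4 : (1 + 0 : ℝ) ^ 3 * F < K + η / 2 := by
      norm_num
      linarith
    obtain ⟨y, hy1, hy2⟩ := ((h3.eventually_lt_const h4).and self_mem_nhdsWithin).exists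
    exact ⟨y, hy2, hy1.le⟩
  -- the threshold of big jobs
  have h1a : 0 < 1 - a := by linarith
  set b : ℝ := (1 / 8) ^ (1 / (1 - a)) with hb
  have hb0 : 0 < b := by positivity
  have hb4 : 4 * b ^ (1 - a) ≤ 1 / 2 := by
    rw [hb, ← Real.rpow_mul (by norm_num), one_div_mul_cancel h1a.ne', Real.rpow_one]
    norm_num
  have h2a : 0 < 2 - (2 : ℝ) ^ a := by
    have : (2 : ℝ) ^ a < 2 ^ (1 : ℝ) := Real.rpow_lt_rpow_of_exponent_lt (by norm_num) ha1
    rw [Real.rpow_one] at this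
    linarith
  set g := min (2 * ε) ((2 - (2 : ℝ) ^ a) * b ^ a) with hg
  have hg0 : 0 < g := lt_min (by positivity) (by positivity)
  have hg1 : g ≤ 2 * ε := min_le_left _ _
  have hg2 : g ≤ (2 - (2 : ℝ) ^ a) * b ^ a := min_le_right _ _
  set δ := g / 4 with hδ
  have hδ0 : 0 < δ := by positivity
  set ε1 := min (ε4 / τ) (δ / (8 * E)) with hε1
  have hε10 : 0 < ε1 := lt_min (by positivity) (by positivity)
  have hε1τ : ε1 * τ ≤ ε4 := by
    have : ε1 ≤ ε4 / τ := min_le_left _ _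
    rwa [le_div_iff₀ hτ] at this
  have hε1E : 8 * E * ε1 ≤ δ := by
    have : ε1 ≤ δ / (8 * E) := min_le_right _ _
    rw [le_div_iff₀ (by positivity)] at this
    linarith
  set C : ℝ := 4 ^ (1 / a) with hC
  have hC0 : 0 < C := by positivity
  have hCa : C ^ a = 4 := by
    rw [hC, ← Real.rpow_mul (by norm_num), one_div_mul_cancel ha0.ne', Real.rpow_one]
  obtain ⟨k', hk', hexc⟩ := excursion ha0 ha1 hμ hν hνi hm hgt hlt h2 hC0
  set lam := max (1 / 2) (1 - k' * ε1 / 4) with hlam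
  have hlam1 : lam < 1 := max_lt (by norm_num) (by
    have : 0 < k' * ε1 / 4 := by positivity
    linarith)
  have hlam2 : 2 + k' * ε1 / 2 ≤ 2 * lam + k' * ε1 := by
    have : 1 - k' * ε1 / 4 ≤ lam := le_max_right _ _
    linarith
  obtain ⟨C1, x1, hC1, hx1, hX⟩ := hexc lam (le_max_left _ _) hlam1 δ hδ0
  obtain ⟨C2, y2, hC2, hy2, hY⟩ := tail_snd ha0 ha1 hμ hν hνi hm hgt hlt
    (lam := 3 / 4) (by norm_num) (by norm_num)
  set lam3 := (1 + 3 * δ / 4) / (1 + δ) with hlam3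
  have hlam30 : 0 < lam3 := by positivity
  have hlam31 : lam3 < 1 := by
    rw [hlam3, div_lt_one (by positivity)]; linarith
  have hlam32 : lam3 * (2 + 2 * δ) = 2 + 3 / 2 * δ := by
    rw [hlam3]; field_simp; ring
  obtain ⟨C3, hC3, hZ⟩ := cost_markov ha0 ha1 hμ (ν := ν) hb0 hb4 hlam30 hlam31
  have hmain := main_sum ha0 ha1 hμ hν hνi hm hgt hlt hε0 hε hε8 hε4 hτ hb0 hb4 hgtτ hDA hDC hη10
  have hη6 : 0 < η / 6 := by positivity
  have err1 := small_err ha0 (show 0 < k' * ε1 / 2 by positivity)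
    (C1 * Real.exp k') (1 - a) hη6
  have err2 := small_err ha0 (show (0 : ℝ) < 1 by norm_num) ((ε1 + 1) * C2) 1 hη6
  have err3 := small_err ha0 (show 0 < δ / 2 by positivity) 1 0 hη6
  have hhaz : Tendsto (fun x : ℝ => ε1 * C3 * x ^ (a - 1)) atTop (𝓝 0) := by
    have h1 : Tendsto (fun x : ℝ => x ^ (a - 1)) atTop (𝓝 0) := by
      have := tendsto_rpow_neg_atTop (y := 1 - a) (by linarith)
      simpa using this
    simpa using h1.const_mul (ε1 * C3)
  filter_upwards [hmain, err1, err2, err3, hhaz.eventually_le_const (show 0 < δ / 2 by positivity),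
    eventually_ge_atTop 1, eventually_ge_atTop x1, eventually_ge_atTop (y2 / C)]
    with x hmain err1 err2 err3 hhaz hx1' hxx1 hxy2
  intro π hπ
  have hp : IsProbabilityMeasure π := hπ.1
  have hx0 : 0 < x := by linarith
  have hxa : 0 < x ^ a := by positivity
  have hxa1 : x ^ (a - 1) * x = x ^ a := by
    rw [← Real.rpow_add_one hx0.ne']; congr 1; ring
  have hxa2 : x ^ (a - 1) ≤ 1 := Real.rpow_le_one_of_one_le_of_nonpos hx1' (by linarith)
  set N := ⌊ε1 * x⌋₊ with hN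
  have hNu : (N : ℝ) ≤ ε1 * x := Nat.floor_le (by positivity)
  have hNl : ε1 * x - 1 ≤ N := by
    have := (Nat.lt_floor_add_one (ε1 * x)).le
    linarith
  have hub := union_bound (C := C) ha0 ha1 hμ hν hx0 hb0 hδ0 (by linarith) (by linarith)
    (by linarith) hδ0 (ε := ε) (by linarith) (by linarith) N hπ
  -- the four terms
  have t1 := hX π hπ x hxx1 N
  have t2 := hY π hπ (C * x) (by rwa [div_le_iff₀ hC0, mul_comm] at hxy2)
  have t3 := hZ x hx1' N ((2 + 2 * δ) * x ^ a)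
  have t4 := hmain π hπ N (by
    calc (N : ℝ) * τ ≤ (ε1 * x) * τ := by gcongr
      _ = ε1 * τ * x := by ring
      _ ≤ ε4 * x := by gcongr)
  set Q := Real.exp (-(x ^ a)) / (a * x ^ (a - 1)) with hQ
  have hQ0 : 0 < Q := by positivity
  have u1 : C1 * x ^ (1 - a) * Real.exp (-(2 * lam * x ^ a + k' * x ^ (a - 1) * N)) ≤
      η / 6 * Q ^ 2 := by
    refine le_trans ?_ err1
    have h3 : Real.exp (-(2 * lam * x ^ a + k' * x ^ (a - 1) * N)) ≤
        Real.exp k' * Real.exp (-((2 + k' * ε1 / 2) * x ^ a)) := by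
      rw [← Real.exp_add]
      apply Real.exp_le_exp.mpr
      have h4 : k' * x ^ (a - 1) * (ε1 * x - 1) ≤ k' * x ^ (a - 1) * N := by gcongr
      have h5 : k' * x ^ (a - 1) * (ε1 * x - 1) = k' * ε1 * x ^ a - k' * x ^ (a - 1) := by
        rw [← hxa1]; ring
      have h6 : k' * x ^ (a - 1) ≤ k' * 1 := by gcongr
      have h7 : (2 + k' * ε1 / 2) * x ^ a ≤ (2 * lam + k' * ε1) * x ^ a := by gcongr
      nlinarith
    calc C1 * x ^ (1 - a) * Real.exp (-(2 * lam * x ^ a + k' * x ^ (a - 1) * N))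
        ≤ C1 * x ^ (1 - a) * (Real.exp k' * Real.exp (-((2 + k' * ε1 / 2) * x ^ a))) := by
          gcongr
      _ = _ := by ring
  have u2 : ((N + 1 : ℕ) : ℝ) * (C2 * Real.exp (-(3 / 4 * (C * x) ^ a))) ≤ η / 6 * Q ^ 2 := by
    refine le_trans ?_ err2
    rw [Real.mul_rpow hC0.le hx0.le, hCa, Real.rpow_one]
    have h3 : ((N + 1 : ℕ) : ℝ) ≤ (ε1 + 1) * x := by
      push_cast
      linarith
    have h4 : -(3 / 4 * (4 * x ^ a)) = -((2 + 1) * x ^ a) := by ring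
    rw [h4]
    calc ((N + 1 : ℕ) : ℝ) * (C2 * Real.exp (-((2 + 1) * x ^ a)))
        ≤ ((ε1 + 1) * x) * (C2 * Real.exp (-((2 + 1) * x ^ a))) := by gcongr
      _ = _ := by ring
  have u3 : Real.exp (-(lam3 * ((2 + 2 * δ) * x ^ a)) +
          N * (4 * E * x ^ (a - 1) + C3 * (x ^ (a - 1)) ^ 2)) ≤ η / 6 * Q ^ 2 := by
    refine le_trans ?_ err3
    rw [Real.rpow_zero, mul_one, one_mul]
    apply Real.exp_le_exp.mpr
    have h3 : lam3 * ((2 + 2 * δ) * x ^ a) = (2 + 3 / 2 * δ) * x ^ a := by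
      rw [← mul_assoc, hlam32]
    have h4 : (N : ℝ) * (4 * E * x ^ (a - 1) + C3 * (x ^ (a - 1)) ^ 2) ≤
        (ε1 * x) * (4 * E * x ^ (a - 1) + C3 * (x ^ (a - 1)) ^ 2) := by gcongr
    have h5 : (ε1 * x) * (4 * E * x ^ (a - 1) + C3 * (x ^ (a - 1)) ^ 2) =
        (8 * E * ε1) / 2 * x ^ a + (ε1 * C3 * x ^ (a - 1)) * x ^ a := by
      rw [← hxa1]; ring
    have h6 : (8 * E * ε1) / 2 * x ^ a ≤ δ / 2 * x ^ a := by gcongr
    have h7 : (ε1 * C3 * x ^ (a - 1)) * x ^ a ≤ δ / 2 * x ^ a := by gcongr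
    rw [h3]
    nlinarith
  have u4 : (1 + η1) ^ 3 * F * Q ^ 2 ≤ (K + η / 2) * Q ^ 2 := by gcongr
  have hfin : π {w | x < w.1} ≤ ENNReal.ofReal ((K + η) * Q ^ 2) := by
    calc π {w | x < w.1} ≤ _ := hub
      _ ≤ ENNReal.ofReal (η / 6 * Q ^ 2) + ENNReal.ofReal (η / 6 * Q ^ 2) +
            ENNReal.ofReal (η / 6 * Q ^ 2) + ENNReal.ofReal ((K + η / 2) * Q ^ 2) := by
          gcongr
          · exact t1.trans (ENNReal.ofReal_le_ofReal u1)
          · calc ((N + 1 : ℕ) : ℝ≥0∞) * π {w | C * x < w.2}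
                ≤ ENNReal.ofReal ((N + 1 : ℕ) : ℝ) *
                  ENNReal.ofReal (C2 * Real.exp (-(3 / 4 * (C * x) ^ a))) := by
                  rw [ENNReal.ofReal_natCast]
                  gcongr
              _ ≤ _ := by
                  rw [← ENNReal.ofReal_mul (by positivity)]
                  exact ENNReal.ofReal_le_ofReal u2
          · exact t3.trans (ENNReal.ofReal_le_ofReal u3)
          · exact t4.trans (ENNReal.ofReal_le_ofReal u4)
      _ = _ := by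
          rw [← ENNReal.ofReal_add (by positivity) (by positivity),
            ← ENNReal.ofReal_add (by positivity) (by positivity),
            ← ENNReal.ofReal_add (by positivity) (by positivity)]
          congr 1
          ring
  rw [measureReal_def]
  exact ENNReal.toReal_le_of_le_ofReal (by positivity) hfin

end Pool.Agent.Lib.MP_04add8_pr
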