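import Mathlib
import Pool.Agent.Lib.MP_04add8_pr.Integ

/-! # The integrated tail of the Weibull law and geometric sums (module `Integ`) -/

open MeasureTheory ProbabilityTheory Filter Topology
open scoped ENNReal

set_option linter.unusedSectionVars false

namespace Pool.Agent.Lib.MP_04add8_pr

lemma integT_pair {a : ℝ} (ha0 : 0 < a) (ha1 : a < 1) {y : ℝ} (hy0 : 0 < y)
    (hy : (1 - a) / a * y ^ (-a) < 1) :
    (1 - (1 - a) / a * y ^ (-a)) * (∫ s in Set.Ioi y, Real.exp (-(s ^ a))) ≤
      Real.exp (-(y ^ a)) / (a * y ^ (a - 1)) ∧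
    Real.exp (-(y ^ a)) / (a * y ^ (a - 1)) ≤ ∫ s in Set.Ioi y, Real.exp (-(s ^ a)) := by
  set c := (1 - a) / a with hc
  have hc0 : 0 < c := by
    have : 0 < 1 - a := by linarith
    positivity
  set G : ℝ → ℝ := fun s => -((1 / a) * (s ^ (1 - a) * Real.exp (-(s ^ a)))) with hG
  set G' : ℝ → ℝ := fun s => (1 - c * s ^ (-a)) * Real.exp (-(s ^ a)) with hG'
  have hderiv : ∀ x ∈ Set.Ici y, HasDerivAt G (G' x) x := by
    intro x hx
    have hx0 : 0 < x := hy0.trans_le hx
    have h1 : HasDerivAt (fun s : ℝ => s ^ (1 - a)) ((1 - a) * x ^ (1 - a - 1)) x :=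
      Real.hasDerivAt_rpow_const (x := x) (p := 1 - a) (Or.inl hx0.ne')
    have h2 : HasDerivAt (fun s : ℝ => s ^ a) (a * x ^ (a - 1)) x :=
      Real.hasDerivAt_rpow_const (x := x) (p := a) (Or.inl hx0.ne')
    have h3 := (h2.neg).exp
    have h4 := ((h1.mul h3).const_mul (1 / a)).neg
    refine h4.congr_deriv ?_
    rw [hG']
    simp only [Pi.neg_apply]
    have e1 : x ^ (1 - a - 1) = x ^ (-a) := by congr 1; ring
    have e2 : x ^ (1 - a) * x ^ (a - 1) = 1 := by
      rw [← Real.rpow_add hx0]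
      have : 1 - a + (a - 1) = 0 := by ring
      rw [this, Real.rpow_zero]
    rw [e1]
    have e3 : x ^ (1 - a) * (Real.exp (-x ^ a) * -(a * x ^ (a - 1))) =
      -(a * (x ^ (1 - a) * x ^ (a - 1)) * Real.exp (-x ^ a)) := by ring
    rw [e3, e2, hc]
    field_simp
    ring
  have hmono : ∀ x ∈ Set.Ioi y, c * x ^ (-a) ≤ c * y ^ (-a) := by
    intro x hx
    have hx0 : 0 < x := hy0.trans hx
    apply mul_le_mul_of_nonneg_left _ hc0.le
    exact Real.rpow_le_rpow_of_nonpos hy0 (le_of_lt hx) (by linarith)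
  have hlow : ∀ x ∈ Set.Ioi y, (1 - c * y ^ (-a)) * Real.exp (-(x ^ a)) ≤ G' x := by
    intro x hx
    have := hmono x hx
    rw [hG']
    simp only
    apply mul_le_mul_of_nonneg_right _ (Real.exp_pos _).le
    linarith
  have hup : ∀ x ∈ Set.Ioi y, G' x ≤ Real.exp (-(x ^ a)) := by
    intro x hx
    have hx0 : 0 < x := hy0.trans hx
    have h1 : 0 ≤ c * x ^ (-a) := by positivity
    rw [hG']
    simp only
    have := Real.exp_pos (-(x ^ a))
    nlinarith
  have hq : 0 < 1 - c * y ^ (-a) := by linarith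
  have hpos : ∀ x ∈ Set.Ioi y, 0 ≤ G' x := fun x hx =>
    (mul_nonneg hq.le (Real.exp_pos _).le).trans (hlow x hx)
  have hlim : Tendsto G atTop (𝓝 0) := by
    have := ((tendsto_rpow_mul_exp ha0 ha1).const_mul (1 / a)).neg
    rw [mul_zero, neg_zero] at this
    exact this
  have hint' := integrableOn_Ioi_deriv_of_nonneg' hderiv hpos hlim
  have hval := integral_Ioi_of_hasDerivAt_of_nonneg' hderiv hpos hlim
  have hmeas : Measurable fun s : ℝ => Real.exp (-(s ^ a)) := by fun_prop
  have hint : IntegrableOn (fun s : ℝ => Real.exp (-(s ^ a))) (Set.Ioi y) := by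
    refine Integrable.mono' (hint'.const_mul (1 - c * y ^ (-a))⁻¹) hmeas.aestronglyMeasurable ?_
    filter_upwards [ae_restrict_mem measurableSet_Ioi] with x hx
    rw [Real.norm_of_nonneg (Real.exp_pos _).le]
    have h1 := hlow x hx
    rw [← div_eq_inv_mul, le_div_iff₀ hq]
    linarith
  have hT : Real.exp (-(y ^ a)) / (a * y ^ (a - 1)) = ∫ s in Set.Ioi y, G' s := by
    rw [hval, hG]
    simp only
    have e2 : y ^ (1 - a) * y ^ (a - 1) = 1 := by
      rw [← Real.rpow_add hy0]
      have : 1 - a + (a - 1) = 0 := by ring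
      rw [this, Real.rpow_zero]
    have h3 : 0 < y ^ (a - 1) := by positivity
    rw [div_eq_iff (by positivity)]
    have : (0 - -(1 / a * (y ^ (1 - a) * Real.exp (-y ^ a)))) * (a * y ^ (a - 1))
        = (a * (1 / a)) * (y ^ (1 - a) * y ^ (a - 1)) * Real.exp (-y ^ a) := by ring
    rw [this, e2]
    field_simp
  constructor
  · rw [hT, ← integral_const_mul]
    exact setIntegral_mono_on (hint.const_mul _) hint' measurableSet_Ioi hlow
  · rw [hT]
    exact setIntegral_mono_on hint' hint measurableSet_Ioi hup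

theorem integratedTail_asymp {a : ℝ} {μ : Measure ℝ} [IsProbabilityMeasure μ]
    (ha0 : 0 < a) (ha1 : a < 1)
    (hμ : ∀ x, 0 ≤ x → μ (Set.Ioi x) = ENNReal.ofReal (Real.exp (-(x ^ a)))) :
    Tendsto (fun x : ℝ => integratedTail μ x / (Real.exp (-(x ^ a)) / (a * x ^ (a - 1))))
      atTop (𝓝 1) := by
  set c := (1 - a) / a with hc
  have hz : Tendsto (fun y : ℝ => c * y ^ (-a)) atTop (𝓝 0) := by
    have := (tendsto_rpow_neg_atTop ha0).const_mul c
    simpa using this
  have hlt : ∀ᶠ y : ℝ in atTop, c * y ^ (-a) < 1 := hz.eventually_lt_const one_pos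
  obtain ⟨y0, hy01, hb⟩ := integ_bounds ha0 ha1
  -- the integral is at most one eventually
  have hone : ∀ᶠ y : ℝ in atTop, ∫ s in Set.Ioi y, Real.exp (-(s ^ a)) ≤ 1 := by
    have h1 : Tendsto (fun s : ℝ => (2 / a) * (s ^ (1 - a) * Real.exp (-(s ^ a)))) atTop (𝓝 0) := by
      have := (tendsto_rpow_mul_exp ha0 ha1).const_mul (2 / a)
      simpa using this
    filter_upwards [h1.eventually_lt_const one_pos, eventually_ge_atTop y0] with y h2 h3
    have h4 := (hb y h3).1
    have h5 : (2 / a) * y ^ (1 - a) * Real.exp (-(y ^ a))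
      = (2 / a) * (y ^ (1 - a) * Real.exp (-(y ^ a))) := by ring
    linarith
  have hup : Tendsto (fun y : ℝ => (1 - c * y ^ (-a))⁻¹) atTop (𝓝 1) := by
    have h1 : Tendsto (fun y : ℝ => 1 - c * y ^ (-a)) atTop (𝓝 (1 - 0)) := hz.const_sub 1
    have h2 := h1.inv₀ (by norm_num)
    simpa using h2
  refine tendsto_of_tendsto_of_tendsto_of_le_of_le' tendsto_const_nhds hup ?_ ?_
  · filter_upwards [hlt, hone, eventually_gt_atTop 0] with y h1 h2 h3
    obtain ⟨h4, h5⟩ := integT_pair ha0 ha1 h3 h1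
    have heq : ∫ s in Set.Ioi y, μ.real (Set.Ioi s) = ∫ s in Set.Ioi y, Real.exp (-(s ^ a)) := by
      apply setIntegral_congr_fun measurableSet_Ioi
      intro s hs
      exact weibull_real hμ (h3.trans hs).le
    have hT : 0 < Real.exp (-(y ^ a)) / (a * y ^ (a - 1)) := by positivity
    unfold integratedTail
    rw [heq, min_eq_right h2, le_div_iff₀ hT, one_mul]
    exact h5
  · filter_upwards [hlt, hone, eventually_gt_atTop 0] with y h1 h2 h3
    obtain ⟨h4, h5⟩ := integT_pair ha0 ha1 h3 h1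
    have heq : ∫ s in Set.Ioi y, μ.real (Set.Ioi s) = ∫ s in Set.Ioi y, Real.exp (-(s ^ a)) := by
      apply setIntegral_congr_fun measurableSet_Ioi
      intro s hs
      exact weibull_real hμ (h3.trans hs).le
    have hT : 0 < Real.exp (-(y ^ a)) / (a * y ^ (a - 1)) := by positivity
    have hq : 0 < 1 - c * y ^ (-a) := by linarith
    unfold integratedTail
    rw [heq, min_eq_right h2, div_le_iff₀ hT, ← div_eq_inv_mul, le_div_iff₀ hq]
    linarith

theorem geom_sums {c α β : ℝ} (hc : 0 < c) {h : ℝ → ℝ} {P : ℝ → ℕ}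
    (hh : ∀ᶠ x in atTop, 0 < h x) (hh0 : Tendsto h atTop (𝓝 0))
    (hP : Tendsto (fun x => h x * P x) atTop atTop) :
    Tendsto (fun x => h x * ∑ n ∈ Finset.range (P x),
      (α + β * (h x * n)) * Real.exp (-(c * (h x * n)))) atTop (𝓝 (α / c + β / c ^ 2)) := by
  -- the function `g t = t / (1 - exp (-c t))`
  set g : ℝ → ℝ := fun t => t / (1 - Real.exp (-(c * t))) with hg
  have hg0 : Tendsto g (𝓝[>] 0) (𝓝 (1 / c)) := by
    have h1 : HasDerivAt (fun t : ℝ => Real.exp (-(c * t))) (Real.exp (-(c * 0)) * -(c * 1)) 0 :=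
      (((hasDerivAt_id (0 : ℝ)).const_mul c).neg).exp
    have h2 := h1.tendsto_slope_zero_right
    simp only [mul_zero, neg_zero, Real.exp_zero, zero_add, smul_eq_mul, mul_one, one_mul] at h2
    have h3 := (h2.neg).inv₀ (by simpa using hc.ne')
    rw [neg_neg] at h3
    rw [one_div]
    refine h3.congr' ?_
    filter_upwards [self_mem_nhdsWithin] with t ht
    have ht0 : (0 : ℝ) < t := ht
    rw [hg]
    simp only
    have e1 : -(t⁻¹ * (Real.exp (-(c * t)) - 1)) = (1 - Real.exp (-(c * t))) / t := by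
      rw [div_eq_inv_mul]; ring
    rw [e1, inv_div]
  have hh' : Tendsto h atTop (𝓝[>] 0) :=
    tendsto_nhdsWithin_iff.2 ⟨hh0, hh.mono fun x hx => hx⟩
  have hgh : Tendsto (fun x => g (h x)) atTop (𝓝 (1 / c)) := hg0.comp hh'
  have hr : Tendsto (fun x => Real.exp (-(c * h x))) atTop (𝓝 1) := by
    have h1 : Tendsto (fun x => -(c * h x)) atTop (𝓝 0) := by
      have := (hh0.const_mul c).neg
      simpa using this
    have := (Real.continuous_exp.tendsto 0).comp h1
    rw [Real.exp_zero] at this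
    exact this
  have hA : Tendsto (fun x => α * g (h x) + β * Real.exp (-(c * h x)) * (g (h x)) ^ 2) atTop
      (𝓝 (α / c + β / c ^ 2)) := by
    have h1 := (hgh.const_mul α).add (((hr.const_mul β)).mul (hgh.pow 2))
    have e1 : α * (1 / c) + β * 1 * (1 / c) ^ 2 = α / c + β / c ^ 2 := by
      field_simp
    rw [e1] at h1
    exact h1
  have hexp : Tendsto (fun u : ℝ => Real.exp (-(c * u))) atTop (𝓝 0) := by
    have h1 : Tendsto (fun u : ℝ => c * u) atTop atTop := tendsto_id.const_mul_atTop hc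
    exact Real.tendsto_exp_neg_atTop_nhds_zero.comp h1
  have huexp : Tendsto (fun u : ℝ => u * Real.exp (-(c * u))) atTop (𝓝 0) := by
    have h1 := tendsto_rpow_mul_exp_neg_mul_atTop_nhds_zero 1 c hc
    refine h1.congr ?_
    intro u
    rw [Real.rpow_one, neg_mul]
  have h1 := hexp.comp hP
  have h2 := huexp.comp hP
  have hB : Tendsto (fun x => (α * g (h x) + β * Real.exp (-(c * h x)) * (g (h x)) ^ 2) *
      Real.exp (-(c * (h x * P x))) + β * g (h x) * ((h x * P x) * Real.exp (-(c * (h x * P x)))))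
      atTop (𝓝 0) := by
    have h3 := (hA.mul h1).add ((hgh.const_mul β).mul h2)
    rw [mul_zero, mul_zero, add_zero] at h3
    exact h3
  have hfin := hA.sub hB
  rw [sub_zero] at hfin
  refine hfin.congr' ?_
  filter_upwards [hh] with x hx
  set t := h x with ht
  have hr1 : Real.exp (-(c * t)) < 1 := by
    rw [Real.exp_lt_one_iff]
    have : 0 < c * t := by positivity
    linarith
  set r := Real.exp (-(c * t)) with hrdef
  have hr0 : 1 - r ≠ 0 := by
    have : 0 < 1 - r := by linarith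
    exact this.ne'
  have hpow : ∀ n : ℕ, Real.exp (-(c * (t * n))) = r ^ n := by
    intro n
    rw [hrdef, ← Real.exp_nat_mul]
    congr 1
    ring
  have hsum : ∀ N : ℕ, ∑ n ∈ Finset.range N, (α + β * (t * n)) * Real.exp (-(c * (t * n))) =
      (α + β * t * r / (1 - r)) / (1 - r) -
        ((α + β * t * r / (1 - r)) / (1 - r) + β * t / (1 - r) * N) * r ^ N := by
    intro N
    induction N with
    | zero => simp
    | succ N ih =>
      rw [Finset.sum_range_succ, ih, hpow, pow_succ]
      push_cast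
      field_simp
      ring
  have hgt : g t = t / (1 - r) := rfl
  rw [hsum, hpow, hgt]
  field_simp

end Pool.Agent.Lib.MP_04add8_pr
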