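import Mathlib
import Pool.Agent.Lib.MP_04add8_pr.Two.Defs

/-! # Laws of large numbers for the noise (module `Good`) -/

open MeasureTheory ProbabilityTheory Filter Topology
open scoped ENNReal

set_option linter.unusedSectionVars false

namespace Pool.Agent.Lib.MP_04add8_pr

theorem measurableSet_Good (E m κ δ : ℝ) : MeasurableSet (Good E m κ δ) := by
  have h : Good E m κ δ = ⋂ n : ℕ, ({z | |sumS z n - E * n| ≤ δ * (n + κ)} ∩
      {z | |sumA z n - m * n| ≤ δ * (n + κ)}) := by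
    ext z
    simp [Good]
  rw [h]
  refine MeasurableSet.iInter fun n => ?_
  apply MeasurableSet.inter
  · exact measurableSet_le ((measurable_sumS n).sub_const _).abs measurable_const
  · exact measurableSet_le ((measurable_sumA n).sub_const _).abs measurable_const

lemma good_mono {E m δ : ℝ} (hδ : 0 ≤ δ) {κ κ' : ℝ} (h : κ ≤ κ') :
    Good E m κ δ ⊆ Good E m κ' δ := by
  intro z hz n
  have h1 : δ * ((n : ℝ) + κ) ≤ δ * (n + κ') := by gcongr
  exact ⟨(hz n).1.trans h1, (hz n).2.trans h1⟩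

lemma good_bound {u : ℕ → ℝ} {L δ : ℝ} (hδ : 0 < δ)
    (h : Tendsto (fun n : ℕ => u n / n) atTop (𝓝 L)) :
    ∃ K : ℕ, ∀ κ : ℝ, K ≤ κ → ∀ n : ℕ, |u n - L * n| ≤ δ * (n + κ) := by
  have h1 := (Metric.tendsto_atTop.1 h) δ hδ
  obtain ⟨N, hN⟩ := h1
  obtain ⟨K, hK⟩ := exists_nat_ge (δ⁻¹ * ∑ n ∈ Finset.range (N + 1), |u n - L * n|)
  refine ⟨K, fun κ hκ n => ?_⟩
  have hκ0 : 0 ≤ κ := (Nat.cast_nonneg K).trans hκ
  rcases Nat.lt_or_ge N n with hn | hn
  · have h2 := hN n hn.le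
    rw [Real.dist_eq] at h2
    have hn0 : (0 : ℝ) < n := by exact_mod_cast (Nat.zero_le N).trans_lt hn
    have h3 : |u n - L * n| = |u n / n - L| * n := by
      rw [← abs_of_pos hn0, ← abs_mul, abs_of_pos hn0]
      congr 1
      field_simp
    rw [h3]
    have h4 : |u n / n - L| * n ≤ δ * n := by gcongr
    nlinarith
  · have h2 : |u n - L * n| ≤ ∑ n ∈ Finset.range (N + 1), |u n - L * n| :=
      Finset.single_le_sum (f := fun n : ℕ => |u n - L * n|) (fun i _ => abs_nonneg _)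
        (Finset.mem_range.2 (Nat.lt_succ_of_le hn))
    have h3 : ∑ n ∈ Finset.range (N + 1), |u n - L * n| ≤ δ * κ := by
      have := hK.trans hκ
      rw [inv_mul_le_iff₀ hδ] at this
      exact this
    have h4 : 0 ≤ δ * (n : ℝ) := by positivity
    linarith

theorem good_slln {μ ν : Measure ℝ} [IsProbabilityMeasure μ] [IsProbabilityMeasure ν]
    {φ : ℝ × ℝ → ℝ} (hφ : Measurable φ) (hi : Integrable φ (μ.prod ν)) :
    ∀ᵐ z ∂(noise μ ν), Tendsto (fun n : ℕ => (∑ i ∈ Finset.range n, φ (z i)) / n) atTop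
      (𝓝 (∫ p, φ p ∂(μ.prod ν))) := by
  have hmp : ∀ i : ℕ, MeasurePreserving (fun z : ℕ → ℝ × ℝ => z i) (noise μ ν) (μ.prod ν) :=
    fun i => measurePreserving_eval_infinitePi (fun _ : ℕ => μ.prod ν) i
  have hmp0 := hmp 0
  have hint : Integrable (fun z : ℕ → ℝ × ℝ => φ (z 0)) (noise μ ν) :=
    hmp0.integrable_comp_of_integrable hi
  have hind : iIndepFun (fun (i : ℕ) (z : ℕ → ℝ × ℝ) => φ (z i)) (noise μ ν) :=
    iIndepFun_infinitePi (P := fun _ : ℕ => μ.prod ν) (X := fun _ => φ) (fun _ => hφ)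
  have h := strong_law_ae_real (μ := noise μ ν) (fun (i : ℕ) (z : ℕ → ℝ × ℝ) => φ (z i)) hint
    (fun i j hij => hind.indepFun hij)
    (fun i => ⟨(hφ.comp (measurable_pi_apply i)).aemeasurable,
      (hφ.comp (measurable_pi_apply 0)).aemeasurable, by
        have e1 : Measure.map (fun z : ℕ → ℝ × ℝ => φ (z i)) (noise μ ν)
            = Measure.map φ (μ.prod ν) := by
          rw [← (hmp i).map_eq, Measure.map_map hφ (measurable_pi_apply i)]
          rfl
        have e2 : Measure.map (fun z : ℕ → ℝ × ℝ => φ (z 0)) (noise μ ν)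
            = Measure.map φ (μ.prod ν) := by
          rw [← (hmp 0).map_eq, Measure.map_map hφ (measurable_pi_apply 0)]
          rfl
        rw [e1, e2]⟩)
  have e3 : ∫ z, φ (z 0) ∂(noise μ ν) = ∫ p, φ p ∂(μ.prod ν) := by
    rw [← hmp0.map_eq, integral_map hmp0.measurable.aemeasurable hφ.aestronglyMeasurable]
  rw [e3] at h
  exact h

theorem good_prob {μ ν : Measure ℝ} [IsProbabilityMeasure μ] [IsProbabilityMeasure ν]
    (hμi : Integrable (fun s : ℝ => s) μ) (hνi : Integrable (fun t : ℝ => t) ν)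
    {δ : ℝ} (hδ : 0 < δ) {η : ℝ} (hη : 0 < η) :
    ∃ κ0 : ℝ, ∀ κ, κ0 ≤ κ →
      ENNReal.ofReal (1 - η) ≤ (noise μ ν) (Good (∫ s, s ∂μ) (∫ t, t ∂ν) κ δ) := by
  have h1 : Integrable (fun p : ℝ × ℝ => p.1) (μ.prod ν) := hμi.comp_fst ν
  have h2 : Integrable (fun p : ℝ × ℝ => p.2) (μ.prod ν) := hνi.comp_snd μ
  have e1 : ∫ p : ℝ × ℝ, p.1 ∂(μ.prod ν) = ∫ s, s ∂μ := by
    have := integral_fun_fst (μ := μ) (ν := ν) (fun s : ℝ => s)
    simpa using this
  have e2 : ∫ p : ℝ × ℝ, p.2 ∂(μ.prod ν) = ∫ t, t ∂ν := by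
    have := integral_fun_snd (μ := μ) (ν := ν) (fun s : ℝ => s)
    simpa using this
  have s1 := good_slln measurable_fst h1
  have s2 := good_slln measurable_snd h2
  rw [e1] at s1
  rw [e2] at s2
  set E := ∫ s, s ∂μ with hE
  set m := ∫ t, t ∂ν with hm
  set A : ℕ → Set (ℕ → ℝ × ℝ) := fun k => Good E m k δ with hA
  have hmono : Monotone A := fun k k' h => good_mono hδ.le (by exact_mod_cast h)
  have hfull : (noise μ ν) (⋃ k, A k) = 1 := by
    rw [← prob_compl_eq_zero_iff (MeasurableSet.iUnion fun k => measurableSet_Good _ _ _ _)]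
    rw [← mem_ae_iff]
    filter_upwards [s1, s2] with z h3 h4
    obtain ⟨K1, hK1⟩ := good_bound hδ h3
    obtain ⟨K2, hK2⟩ := good_bound hδ h4
    refine Set.mem_iUnion.2 ⟨max K1 K2, fun n => ⟨hK1 _ ?_ n, hK2 _ ?_ n⟩⟩
    · exact_mod_cast le_max_left _ _
    · exact_mod_cast le_max_right _ _
  have hlim := tendsto_measure_iUnion_atTop (μ := noise μ ν) hmono
  rw [hfull] at hlim
  have hlt : ENNReal.ofReal (1 - η) < 1 := by
    rw [← ENNReal.ofReal_one]
    exact (ENNReal.ofReal_lt_ofReal_iff one_pos).2 (by linarith)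
  obtain ⟨k, hk⟩ := (hlim.eventually_const_lt hlt).exists
  refine ⟨k, fun κ hκ => hk.le.trans (measure_mono (good_mono hδ.le hκ))⟩

end Pool.Agent.Lib.MP_04add8_pr
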