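import Mathlib
import Pool.Agent.Lib.MP_04add8_pr.Two.Defs

open MeasureTheory ProbabilityTheory Filter Topology
open scoped ENNReal

set_option linter.unusedSectionVars false

namespace Pool.Agent.Lib.MP_04add8_pr

namespace D3

lemma step_cases (w : ℝ × ℝ) (s t : ℝ) :
    ((kwStep w s t).1 = max (w.1 + s - t) 0 ∧ (kwStep w s t).2 = max (w.2 - t) 0) ∨
    ((kwStep w s t).1 = max (w.2 - t) 0 ∧ (kwStep w s t).2 = max (w.1 + s - t) 0) := by
  rcases le_total (max (w.1 + s - t) 0) (max (w.2 - t) 0) with h | h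
  · left
    exact ⟨min_eq_left h, max_eq_right h⟩
  · right
    exact ⟨min_eq_right h, max_eq_left h⟩

lemma sumS_le {z : ℕ → ℝ × ℝ} (hz : ∀ k, 0 ≤ (z k).1 ∧ 0 ≤ (z k).2) {k n : ℕ} (h : k ≤ n) :
    sumS z k ≤ sumS z n := by
  induction n, h using Nat.le_induction with
  | base => exact le_rfl
  | succ n _ ih => rw [sumS_succ]; have := (hz n).1; linarith

/-- first phase -/
lemma phase1 {w : ℝ × ℝ} (h0 : 0 ≤ w.1) {z : ℕ → ℝ × ℝ}
    (hz : ∀ k, 0 ≤ (z k).1 ∧ 0 ≤ (z k).2) {y : ℝ} (hy : y ≤ w.2) (n : ℕ)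
    (hS : sumS z n ≤ y) : ∀ k ≤ n, sumS z k - sumA z k ≤ (pIter w z k).1 ∧
      y - sumA z k ≤ (pIter w z k).2 := by
  intro k
  induction k with
  | zero =>
    intro _
    simp only [pIter_zero, sumS, sumA, Finset.range_zero, Finset.sum_empty]
    constructor <;> linarith
  | succ k ih =>
    intro hk
    obtain ⟨i1, i2⟩ := ih (Nat.le_of_succ_le hk)
    have h3 := sumS_le hz hk
    rw [sumS_succ] at h3
    rw [pIter_succ, sumS_succ, sumA_succ]
    have e1 := le_max_left ((pIter w z k).1 + (z k).1 - (z k).2) 0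
    have e2 := le_max_left ((pIter w z k).2 - (z k).2) 0
    constructor
    · apply le_min <;> linarith
    · have e3 : (pIter w z k).2 - (z k).2 ≤ (kwStep (pIter w z k) (z k).1 (z k).2).2 :=
        e2.trans (le_max_right _ _)
      linarith

/-- second phase -/
lemma phase2 {B : ℝ} (hB : 0 ≤ B) (w : ℝ × ℝ) (h0 : 0 ≤ w.1) (h1 : w.1 ≤ w.2) {z : ℕ → ℝ × ℝ}
    (hz : ∀ k, 0 ≤ (z k).1 ∧ 0 ≤ (z k).2) (n : ℕ)
    (hB2 : ∀ k < n, (z k).1 ≤ B) : ∀ k ≤ n,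
      w.1 + w.2 + sumS z k - 2 * sumA z k ≤ (pIter w z k).1 + (pIter w z k).2 ∧
      ((pIter w z k).2 ≤ w.2 - sumA z k ∨ (pIter w z k).2 ≤ (pIter w z k).1 + B) := by
  intro k
  induction k with
  | zero =>
    intro _
    simp only [pIter_zero, sumS, sumA, Finset.range_zero, Finset.sum_empty]
    constructor
    · linarith
    · left; linarith
  | succ k ih =>
    intro hk
    obtain ⟨i1, i2⟩ := ih (Nat.le_of_succ_le hk)
    have hb := hB2 k hk
    have hs := (hz k).1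
    have ho := pIter_ordered h0 h1 z k
    rw [pIter_succ, sumS_succ, sumA_succ]
    have e1 := le_max_left ((pIter w z k).1 + (z k).1 - (z k).2) 0
    have e2 := le_max_left ((pIter w z k).2 - (z k).2) 0
    have e3 := le_max_right ((pIter w z k).1 + (z k).1 - (z k).2) 0
    have e4 := le_max_right ((pIter w z k).2 - (z k).2) 0
    rcases step_cases (pIter w z k) (z k).1 (z k).2 with ⟨c1, c2⟩ | ⟨c1, c2⟩
    · rw [c1, c2]
      refine ⟨by linarith, ?_⟩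
      rcases le_total ((pIter w z k).2 - (z k).2) 0 with h | h
      · right
        rw [max_eq_right h]
        linarith
      · rw [max_eq_left h]
        rcases i2 with i2 | i2
        · left; linarith
        · right; linarith
    · rw [c1, c2]
      refine ⟨by linarith, ?_⟩
      right
      apply max_le <;> linarith

end D3

/-- D3 -/
theorem det_lower {x B : ℝ} (hx : 0 < x) (hB : 0 ≤ B) {w : ℝ × ℝ}
    (h0 : 0 ≤ w.1) (h1 : w.1 ≤ w.2) {p1 p2 : ℝ × ℝ}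
    (hp1 : 0 ≤ p1.1 ∧ 0 ≤ p1.2) (hp2 : 0 ≤ p2.1 ∧ 0 ≤ p2.2) {z1 z2 : ℕ → ℝ × ℝ}
    (hz1 : ∀ k, 0 ≤ (z1 k).1 ∧ 0 ≤ (z1 k).2) (hz2 : ∀ k, 0 ≤ (z2 k).1 ∧ 0 ≤ (z2 k).2)
    (n1 n2 : ℕ) (hB2 : ∀ k < n2, (z2 k).1 ≤ B)
    (hS : sumS z1 n1 + p1.2 ≤ p1.1)
    (hW : max (x + sumA z2 n2 + p1.2 + sumA z1 n1 + p2.2 - p1.1) 0 +
      max (x + sumA z2 n2 + p2.2 + sumA z1 n1 - sumS z1 n1 - p2.1) 0 + B < sumS z2 n2) :
    x < (pIter (kwStep (pIter (kwStep w p1.1 p1.2) z1 n1) p2.1 p2.2) z2 n2).1 := by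
  have hw1 : p1.1 - p1.2 ≤ (kwStep w p1.1 p1.2).2 := by
    have e : w.1 + p1.1 - p1.2 ≤ (kwStep w p1.1 p1.2).2 :=
      (le_max_left _ 0).trans (le_max_left _ _)
    linarith
  obtain ⟨a1, a2⟩ := D3.phase1 (kwStep_fst_nonneg w p1.1 p1.2) hz1 hw1 n1 (by linarith) n1 le_rfl
  have ho2 := pIter_ordered (kwStep_fst_nonneg w p1.1 p1.2) (kwStep_fst_le_snd w p1.1 p1.2) z1 n1
  revert a1 a2 ho2
  generalize pIter (kwStep w p1.1 p1.2) z1 n1 = W2
  intro a1 a2 ho2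
  have ho3 := kwStep_fst_nonneg W2 p2.1 p2.2
  have ho4 := kwStep_fst_le_snd W2 p2.1 p2.2
  have hD : max (x + sumA z2 n2 - (kwStep W2 p2.1 p2.2).1) 0 +
      max (x + sumA z2 n2 - (kwStep W2 p2.1 p2.2).2) 0 + B < sumS z2 n2 := by
    have e1 := le_max_left (W2.1 + p2.1 - p2.2) 0
    have e2 := le_max_left (W2.2 - p2.2) 0
    have f1 : max (x + sumA z2 n2 - max (W2.1 + p2.1 - p2.2) 0) 0 ≤
        max (x + sumA z2 n2 + p2.2 + sumA z1 n1 - sumS z1 n1 - p2.1) 0 :=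
      max_le_max (by linarith) le_rfl
    have f2 : max (x + sumA z2 n2 - max (W2.2 - p2.2) 0) 0 ≤
        max (x + sumA z2 n2 + p1.2 + sumA z1 n1 + p2.2 - p1.1) 0 :=
      max_le_max (by linarith) le_rfl
    rcases D3.step_cases W2 p2.1 p2.2 with ⟨c1, c2⟩ | ⟨c1, c2⟩
    · rw [c1, c2]; linarith
    · rw [c1, c2]; linarith
  obtain ⟨b1, b2⟩ := D3.phase2 hB (kwStep W2 p2.1 p2.2) ho3 ho4 hz2 n2 hB2 n2 le_rfl
  by_contra hcon
  push_neg at hcon
  have e5 := le_max_left (x + sumA z2 n2 - (kwStep W2 p2.1 p2.2).1) 0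
  have e6 := le_max_left (x + sumA z2 n2 - (kwStep W2 p2.1 p2.2).2) 0
  have e7 := le_max_right (x + sumA z2 n2 - (kwStep W2 p2.1 p2.2).1) 0
  have e8 := le_max_right (x + sumA z2 n2 - (kwStep W2 p2.1 p2.2).2) 0
  rcases b2 with b2 | b2
  · linarith
  · linarith

end Pool.Agent.Lib.MP_04add8_pr
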