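import Mathlib
import Pool.Agent.Lib.MP_04add8_pr.Two.Det3

open MeasureTheory ProbabilityTheory Filter Topology
open scoped ENNReal

set_option linter.unusedSectionVars false

namespace Pool.Agent.Lib.MP_04add8_pr

/-- first threshold -/
noncomputable def thr1 (x m κ δ : ℝ) (n1 n2 : ℕ) : ℝ := x + m * (n1 + n2) + δ * (n1 + n2 + 4 * κ)

/-- second threshold -/
noncomputable def thr2 (x E m κ δ : ℝ) (n1 n2 : ℕ) : ℝ :=
  x + m * n2 - (E - m) * n1 + 2 * δ * (n1 + n2 + 2 * κ)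

/-- available small work -/
noncomputable def avail (E κ δ : ℝ) (n2 : ℕ) : ℝ := E * n2 - 4 * δ * (n2 + κ)

lemma good_job {E m κ δ : ℝ} {z : ℕ → ℝ × ℝ} (hz : z ∈ Good E m κ δ) (k : ℕ) :
    (z k).1 ≤ E + δ * (2 * k + 1 + 2 * κ) := by
  have h1 := (hz k).1
  have h2 := (hz (k + 1)).1
  rw [sumS_succ] at h2
  have h3 := (abs_le.mp h1).1
  have h4 := (abs_le.mp h2).2
  push_cast at h4
  linarith

lemma lower_path {x E m κ δ : ℝ} {n1 n2 : ℕ} (hx : 0 < x) (hδ : 0 < δ) (hδ1 : δ ≤ 1)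
    (hκ : 0 < κ) (hE : 0 < E) (hm : 0 < m) (hmE : m < E) (hEδ : E ≤ δ * κ)
    (hM : (E + m + 8) * (n1 + n2 + κ) ≤ x / 4) {w : ℝ × ℝ} (h0 : 0 ≤ w.1) (h1 : w.1 ≤ w.2)
    {p1 p2 : ℝ × ℝ} (hp1 : 0 ≤ p1.1 ∧ 0 ≤ p1.2) (hp2 : 0 ≤ p2.1 ∧ 0 ≤ p2.2)
    {z1 z2 : ℕ → ℝ × ℝ} (hz1 : ∀ k, 0 ≤ (z1 k).1 ∧ 0 ≤ (z1 k).2)
    (hz2 : ∀ k, 0 ≤ (z2 k).1 ∧ 0 ≤ (z2 k).2) (hg1 : z1 ∈ Good E m κ δ) (hg2 : z2 ∈ Good E m κ δ)
    (ht1 : p1.2 ≤ δ * κ) (ht2 : p2.2 ≤ δ * κ)
    (hV : max (thr1 x m κ δ n1 n2 - p1.1) 0 + max (thr2 x E m κ δ n1 n2 - p2.1) 0 <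
      avail E κ δ n2) :
    four n1 p1 z1 p2 z2 ∈ twoBig (x / 2) n1 n2 ∧
      x < (pIter w (four n1 p1 z1 p2 z2) (n1 + n2 + 2)).1 := by
  have hn1 : (0 : ℝ) ≤ n1 := by positivity
  have hn2 : (0 : ℝ) ≤ n2 := by positivity
  have hS : (0 : ℝ) ≤ n1 + n2 + κ := by positivity
  have hEx : E * (n1 + n2 + κ) ≤ x / 4 := by
    refine le_trans ?_ hM
    gcongr
    linarith
  have h8x : 8 * (n1 + n2 + κ) ≤ x / 4 := by
    refine le_trans ?_ hM
    gcongr
    linarith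
  have hE2x : (E + 8) * (n1 + n2 + κ) ≤ x / 4 := by
    refine le_trans ?_ hM
    gcongr
    linarith
  have hv1 : thr1 x m κ δ n1 n2 - p1.1 < avail E κ δ n2 := by
    have := le_max_left (thr1 x m κ δ n1 n2 - p1.1) 0
    have := le_max_right (thr2 x E m κ δ n1 n2 - p2.1) 0
    linarith
  have hv2 : thr2 x E m κ δ n1 n2 - p2.1 < avail E κ δ n2 := by
    have := le_max_left (thr2 x E m κ δ n1 n2 - p2.1) 0
    have := le_max_right (thr1 x m κ δ n1 n2 - p1.1) 0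
    linarith
  have ht0 : x ≤ thr1 x m κ δ n1 n2 := by
    unfold thr1
    have : 0 ≤ m * (n1 + n2 : ℝ) := by positivity
    have : 0 ≤ δ * (n1 + n2 + 4 * κ : ℝ) := by positivity
    linarith
  have ht0' : x - E * n1 ≤ thr2 x E m κ δ n1 n2 := by
    unfold thr2
    have : 0 ≤ m * (n2 : ℝ) := by positivity
    have : 0 ≤ m * (n1 : ℝ) := by positivity
    have : 0 ≤ 2 * δ * (n1 + n2 + 2 * κ : ℝ) := by positivity
    linarith
  have hu : avail E κ δ n2 ≤ E * n2 := by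
    unfold avail
    have : 0 ≤ 4 * δ * (n2 + κ : ℝ) := by positivity
    linarith
  have hEn : E * (n1 + n2 + κ) = E * n1 + E * n2 + E * κ := by ring
  have hEκ : 0 ≤ E * κ := by positivity
  have hEn1 : 0 ≤ E * n1 := by positivity
  have hy1 : x / 2 < p1.1 := by linarith
  have hy2 : x / 2 < p2.1 := by linarith
  have hs1 : ∀ k < n1, (z1 k).1 ≤ x / 2 := by
    intro k hk
    have h3 := good_job hg1 k
    have hk' : (k : ℝ) + 1 ≤ n1 := by exact_mod_cast hk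
    have h4 : δ * (2 * k + 1 + 2 * κ) ≤ 1 * (2 * (n1 + n2 + κ)) := by
      gcongr
      linarith
    have h5 : E ≤ E * (n1 + n2 + κ) := by
      have : (1 : ℝ) ≤ n1 + n2 + κ := by
        have : (0 : ℝ) ≤ k := by positivity
        linarith
      nlinarith
    linarith
  have hB2 : ∀ k < n2, (z2 k).1 ≤ E + 2 * δ * (n2 + κ) := by
    intro k hk
    have h3 := good_job hg2 k
    have hk' : (k : ℝ) + 1 ≤ n2 := by exact_mod_cast hk
    have h4 : δ * (2 * k + 1 + 2 * κ) ≤ δ * (2 * (n2 + κ)) := by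
      gcongr
      linarith
    linarith
  have hs2 : ∀ k < n2, (z2 k).1 ≤ x / 2 := by
    intro k hk
    have h3 := hB2 k hk
    have hk' : (k : ℝ) + 1 ≤ n2 := by exact_mod_cast hk
    have h4 : 2 * δ * (n2 + κ) ≤ 2 * 1 * (n1 + n2 + κ) := by
      gcongr
      linarith
    have h5 : E ≤ E * (n1 + n2 + κ) := by
      have : (1 : ℝ) ≤ n1 + n2 + κ := by
        have : (0 : ℝ) ≤ k := by positivity
        linarith
      nlinarith
    linarith
  refine ⟨⟨hy1, ?_, ?_, ?_⟩, ?_⟩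
  · intro i hi
    rw [four_one _ _ _ _ _ hi]
    exact hs1 i hi
  · rw [four_two]; exact hy2
  · intro i hi
    rw [four_three]
    exact hs2 i hi
  · rw [pIter_four]
    have g1 := hg1 n1
    have g2 := hg2 n2
    have g1a := (abs_le.mp g1.1).1
    have g1b := (abs_le.mp g1.1).2
    have g1c := (abs_le.mp g1.2).2
    have g2a := (abs_le.mp g2.1).1
    have g2c := (abs_le.mp g2.2).2
    have hδκ : δ * κ ≤ 1 * κ := by gcongr
    have hδn1 : δ * n1 ≤ 1 * n1 := by gcongr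
    have hB0 : 0 ≤ E + 2 * δ * (n2 + κ) := by positivity
    apply det_lower hx hB0 h0 h1 hp1 hp2 hz1 hz2 n1 n2 hB2
    · -- `S1 + t1 ≤ y1`
      linarith
    · have a1 : x + sumA z2 n2 + p1.2 + sumA z1 n1 + p2.2 - p1.1 ≤
          thr1 x m κ δ n1 n2 - p1.1 := by
        unfold thr1
        linarith
      have a2 : x + sumA z2 n2 + p2.2 + sumA z1 n1 - sumS z1 n1 - p2.1 ≤
          thr2 x E m κ δ n1 n2 - p2.1 := by
        unfold thr2
        have : 0 ≤ δ * (n2 : ℝ) := by positivity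
        linarith
      have b1 := max_le_max_right 0 a1
      have b2 := max_le_max_right 0 a2
      have hu2 : avail E κ δ n2 + (E + 2 * δ * (n2 + κ)) ≤ sumS z2 n2 := by
        unfold avail
        have : 0 ≤ δ * (n2 : ℝ) := by positivity
        linarith
      linarith

end Pool.Agent.Lib.MP_04add8_pr
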