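import Mathlib
import Pool.Agent.Lib.MP_04add8_pr.Two.LowerPath
import Pool.Agent.Lib.MP_04add8_pr.Two.UpperTwo
import Pool.Agent.Lib.MP_04add8_pr.Two.Good

open MeasureTheory ProbabilityTheory Filter Topology
open scoped ENNReal

set_option linter.unusedSectionVars false

namespace Pool.Agent.Lib.MP_04add8_pr

/-- the event of the lower bound -/
def lowEvent (x : ℝ) (n1 n2 : ℕ) : Set ((ℝ × ℝ) × (ℕ → ℝ × ℝ)) :=
  {q | q.2 ∈ twoBig (x / 2) n1 n2 ∧ x < (pIter q.1 q.2 (n1 + n2 + 2)).1}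

lemma measurableSet_twoBig (B : ℝ) (n1 n2 : ℕ) : MeasurableSet (twoBig B n1 n2) := by
  have : twoBig B n1 n2 = {z : ℕ → ℝ × ℝ | B < (z 0).1} ∩
      ((⋂ i, ⋂ (_ : i < n1), {z : ℕ → ℝ × ℝ | (z (i + 1)).1 ≤ B}) ∩
      ({z : ℕ → ℝ × ℝ | B < (z (n1 + 1)).1} ∩
      (⋂ i, ⋂ (_ : i < n2), {z : ℕ → ℝ × ℝ | (z (n1 + (i + 1) + 1)).1 ≤ B}))) := by
    ext z
    simp [twoBig]
  rw [this]
  refine MeasurableSet.inter (measurableSet_lt measurable_const (by fun_prop)) ?_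
  refine MeasurableSet.inter ?_ ?_
  · refine MeasurableSet.iInter fun i => MeasurableSet.iInter fun _ => ?_
    exact measurableSet_le (by fun_prop) measurable_const
  · refine MeasurableSet.inter (measurableSet_lt measurable_const (by fun_prop)) ?_
    refine MeasurableSet.iInter fun i => MeasurableSet.iInter fun _ => ?_
    exact measurableSet_le (by fun_prop) measurable_const

lemma measurableSet_lowEvent (x : ℝ) (n1 n2 : ℕ) : MeasurableSet (lowEvent x n1 n2) :=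
  (measurable_snd (measurableSet_twoBig _ _ _)).inter
    (measurableSet_lt measurable_const (measurable_fst.comp (measurable_pIter _)))

variable {a : ℝ} {μ ν : Measure ℝ} [IsProbabilityMeasure μ] [IsProbabilityMeasure ν]

lemma lower_event (ha0 : 0 < a)
    (hμ : ∀ x, 0 ≤ x → μ (Set.Ioi x) = ENNReal.ofReal (Real.exp (-(x ^ a))))
    (hν : ν (Set.Iio 0) = 0) {x E m κ δ : ℝ} {n1 n2 : ℕ} (hx : 0 < x) (hδ : 0 < δ) (hδ1 : δ ≤ 1)
    (hκ : 0 < κ) (hE : 0 < E) (hm : 0 < m) (hmE : m < E) (hEδ : E ≤ δ * κ)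
    (hM : (E + m + 8) * (n1 + n2 + κ) ≤ x / 4)
    {π : Measure (ℝ × ℝ)} (hπ : IsStationaryKW μ ν π) :
    (noise μ ν) (Good E m κ δ) ^ 2 * ν (Set.Iic (δ * κ)) ^ 2 *
      (μ.prod μ) {p : ℝ × ℝ | max (thr1 x m κ δ n1 n2 - p.1) 0 +
        max (thr2 x E m κ δ n1 n2 - p.2) 0 < avail E κ δ n2} ≤
      (π.prod (noise μ ν)) (lowEvent x n1 n2) := by
  have hp : IsProbabilityMeasure π := hπ.1
  set V : Set (ℝ × ℝ) := {p : ℝ × ℝ | max (thr1 x m κ δ n1 n2 - p.1) 0 +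
        max (thr2 x E m κ δ n1 n2 - p.2) 0 < avail E κ δ n2} with hVdef
  have hVm : MeasurableSet V := measurableSet_lt (by fun_prop) measurable_const
  have hGm := measurableSet_Good E m κ δ
  set G := Good E m κ δ with hG
  set T : Set ℝ := Set.Iic (δ * κ) with hT
  have hTm : MeasurableSet T := measurableSet_Iic
  set gG : (ℕ → ℝ × ℝ) → ℝ≥0∞ := G.indicator 1 with hgG
  set gT : ℝ → ℝ≥0∞ := T.indicator 1 with hgT
  set gV : ℝ × ℝ → ℝ≥0∞ := V.indicator 1 with hgV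
  have hgGm : Measurable gG := measurable_one.indicator hGm
  have hgTm : Measurable gT := measurable_one.indicator hTm
  have hgVm : Measurable gV := measurable_one.indicator hVm
  have hjobs : ∀ᵐ p ∂(μ.prod ν), 0 ≤ p.1 ∧ 0 ≤ p.2 := by
    have h1 : ∀ᵐ p ∂(μ.prod ν), 0 ≤ p.1 := by
      have := (Measure.quasiMeasurePreserving_fst (μ := μ) (ν := ν)).ae
        ((weibull_ae_pos ha0 hμ).mono fun s hs => hs.le)
      exact this
    have h2 : ∀ᵐ p ∂(μ.prod ν), 0 ≤ p.2 := by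
      have := (Measure.quasiMeasurePreserving_snd (μ := μ) (ν := ν)).ae (ae_nonneg_of_Iio hν)
      exact this
    filter_upwards [h1, h2] with p hp1 hp2 using ⟨hp1, hp2⟩
  have hnn := ae_noise_nonneg (ν := ν) ha0 hμ hν
  -- the product integral
  have hprod : ∫⁻ p1, ∫⁻ z1, ∫⁻ p2, ∫⁻ z2, gG z1 * (gG z2 * (gT p1.2 * (gT p2.2 *
      gV (p1.1, p2.1)))) ∂(noise μ ν) ∂(μ.prod ν) ∂(noise μ ν) ∂(μ.prod ν) =
      (noise μ ν) G ^ 2 * ν T ^ 2 * (μ.prod μ) V := by
    have e1 : ∀ (p1 : ℝ × ℝ) (z1 : ℕ → ℝ × ℝ) (p2 : ℝ × ℝ),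
        ∫⁻ z2, gG z1 * (gG z2 * (gT p1.2 * (gT p2.2 * gV (p1.1, p2.1)))) ∂(noise μ ν) =
        gG z1 * ((noise μ ν) G * (gT p1.2 * (gT p2.2 * gV (p1.1, p2.1)))) := by
      intro p1 z1 p2
      rw [lintegral_const_mul _ (by fun_prop), lintegral_mul_const _ hgGm,
        hgG, lintegral_indicator_one hGm]
    have e2 : ∀ (p1 : ℝ × ℝ) (z1 : ℕ → ℝ × ℝ),
        ∫⁻ p2, gG z1 * ((noise μ ν) G * (gT p1.2 * (gT p2.2 * gV (p1.1, p2.1)))) ∂(μ.prod ν) =
        gG z1 * ((noise μ ν) G * (gT p1.2 * (ν T * ∫⁻ y, gV (p1.1, y) ∂μ))) := by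
      intro p1 z1
      have hm1 : Measurable fun p2 : ℝ × ℝ => gT p2.2 * gV (p1.1, p2.1) := by fun_prop
      rw [lintegral_const_mul _ (by fun_prop), lintegral_const_mul _ (by fun_prop),
        lintegral_const_mul _ (by fun_prop)]
      congr 3
      have e3 : ∫⁻ p2 : ℝ × ℝ, gT p2.2 * gV (p1.1, p2.1) ∂(μ.prod ν) =
          ∫⁻ p2 : ℝ × ℝ, (fun y => gV (p1.1, y)) p2.1 * gT p2.2 ∂(μ.prod ν) := by
        apply lintegral_congr
        intro p2
        rw [mul_comm]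
      rw [e3, lintegral_prod_mul (f := fun y => gV (p1.1, y)) (g := gT)
        (by fun_prop) hgTm.aemeasurable, hgT, lintegral_indicator_one hTm, mul_comm]
    have e4 : ∀ (p1 : ℝ × ℝ),
        ∫⁻ z1, gG z1 * ((noise μ ν) G * (gT p1.2 * (ν T * ∫⁻ y, gV (p1.1, y) ∂μ))) ∂(noise μ ν) =
        (noise μ ν) G * ((noise μ ν) G * (gT p1.2 * (ν T * ∫⁻ y, gV (p1.1, y) ∂μ))) := by
      intro p1
      rw [lintegral_mul_const _ hgGm, hgG, lintegral_indicator_one hGm]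
    simp only [e1, e2, e4]
    have hm2 : Measurable fun y1 : ℝ => ∫⁻ y, gV (y1, y) ∂μ :=
      Measurable.lintegral_prod_right' (f := gV) hgVm
    rw [lintegral_const_mul _ (by fun_prop), lintegral_const_mul _ (by fun_prop)]
    have e5 : ∫⁻ p1 : ℝ × ℝ, gT p1.2 * (ν T * ∫⁻ y, gV (p1.1, y) ∂μ) ∂(μ.prod ν) =
        ∫⁻ p1 : ℝ × ℝ, (fun y1 => ν T * ∫⁻ y, gV (y1, y) ∂μ) p1.1 * gT p1.2 ∂(μ.prod ν) := by
      apply lintegral_congr
      intro p1
      rw [mul_comm]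
    rw [e5, lintegral_prod_mul (f := fun y1 => ν T * ∫⁻ y, gV (y1, y) ∂μ) (g := gT)
      (by fun_prop) hgTm.aemeasurable, hgT, lintegral_indicator_one hTm,
      lintegral_const_mul _ hm2]
    have e6 : ∫⁻ y1, ∫⁻ y, gV (y1, y) ∂μ ∂μ = (μ.prod μ) V := by
      rw [← lintegral_prod _ hgVm.aemeasurable, hgV, lintegral_indicator_one hVm]
    rw [e6]
    ring
  rw [← hprod, Measure.prod_apply (measurableSet_lowEvent _ _ _)]
  calc ∫⁻ p1, ∫⁻ z1, ∫⁻ p2, ∫⁻ z2, gG z1 * (gG z2 * (gT p1.2 * (gT p2.2 *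
      gV (p1.1, p2.1)))) ∂(noise μ ν) ∂(μ.prod ν) ∂(noise μ ν) ∂(μ.prod ν)
      = ∫⁻ _ : ℝ × ℝ, (∫⁻ p1, ∫⁻ z1, ∫⁻ p2, ∫⁻ z2, gG z1 * (gG z2 * (gT p1.2 * (gT p2.2 *
      gV (p1.1, p2.1)))) ∂(noise μ ν) ∂(μ.prod ν) ∂(noise μ ν) ∂(μ.prod ν)) ∂π := by
        simp
    _ ≤ _ := by
        apply lintegral_mono_ae
        filter_upwards [hπ.ae_ordered] with w hw
        have hSm : MeasurableSet (Prod.mk w ⁻¹' lowEvent x n1 n2) :=
          measurable_prodMk_left (measurableSet_lowEvent _ _ _)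
        rw [← lintegral_indicator_one hSm,
          lintegral_noise_four n1 (measurable_one.indicator hSm)]
        apply lintegral_mono_ae
        filter_upwards [hjobs] with p1 hp1
        apply lintegral_mono_ae
        filter_upwards [hnn] with z1 hz1
        apply lintegral_mono_ae
        filter_upwards [hjobs] with p2 hp2
        apply lintegral_mono_ae
        filter_upwards [hnn] with z2 hz2
        by_cases hz1G : z1 ∈ G
        swap
        · rw [hgG, Set.indicator_of_notMem hz1G, zero_mul]; exact zero_le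
        by_cases hz2G : z2 ∈ G
        swap
        · rw [hgG, Set.indicator_of_notMem hz2G, zero_mul, mul_zero]; exact zero_le
        by_cases ht1 : p1.2 ∈ T
        swap
        · rw [hgT, Set.indicator_of_notMem ht1, zero_mul, mul_zero, mul_zero]; exact zero_le
        by_cases ht2 : p2.2 ∈ T
        swap
        · rw [hgT, Set.indicator_of_notMem ht2, zero_mul, mul_zero, mul_zero, mul_zero]
          exact zero_le
        by_cases hpV : (p1.1, p2.1) ∈ V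
        swap
        · rw [hgV, Set.indicator_of_notMem hpV, mul_zero, mul_zero, mul_zero, mul_zero]
          exact zero_le
        have hmem : four n1 p1 z1 p2 z2 ∈ Prod.mk w ⁻¹' lowEvent x n1 n2 :=
          lower_path hx hδ hδ1 hκ hE hm hmE hEδ hM hw.1 hw.2 hp1 hp2 hz1 hz2 hz1G hz2G ht1 ht2 hpV
        rw [Set.indicator_of_mem hmem, hgG, hgT, hgV, Set.indicator_of_mem hz1G,
          Set.indicator_of_mem hz2G, Set.indicator_of_mem ht1, Set.indicator_of_mem ht2,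
          Set.indicator_of_mem hpV]
        simp

/-- the events of the lower bound are disjoint -/
lemma lowEvent_disjoint {x : ℝ} {N : ℕ} {p q : ℕ × ℕ} (hp : p.1 + p.2 + 2 ≤ N)
    (hq : q.1 + q.2 + 2 ≤ N) (hne : p ≠ q) :
    Disjoint (pathShift (N - (p.1 + p.2 + 2)) ⁻¹' lowEvent x p.1 p.2)
      (pathShift (N - (q.1 + q.2 + 2)) ⁻¹' lowEvent x q.1 q.2) := by
  rw [Set.disjoint_left]
  rintro ⟨w, z⟩ h1 h2
  apply hne
  have key : ∀ p q : ℕ × ℕ, p.1 + p.2 + 2 ≤ N → q.1 + q.2 + 2 ≤ N →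
      (w, z) ∈ pathShift (N - (p.1 + p.2 + 2)) ⁻¹' lowEvent x p.1 p.2 →
      (w, z) ∈ pathShift (N - (q.1 + q.2 + 2)) ⁻¹' lowEvent x q.1 q.2 → ¬ p.2 < q.2 := by
    intro p q hp hq h1 h2 hlt
    obtain ⟨⟨-, -, hb, -⟩, -⟩ := h1
    obtain ⟨⟨-, -, -, hs⟩, -⟩ := h2
    have hb' : x / 2 < (z (N - (p.1 + p.2 + 2) + (p.1 + 1))).1 := hb
    have hs' : (z (N - (q.1 + q.2 + 2) + (q.1 + ((q.2 - p.2 - 1) + 1) + 1))).1 ≤ x / 2 :=
      hs (q.2 - p.2 - 1) (by omega)
    have e : N - (p.1 + p.2 + 2) + (p.1 + 1) =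
        N - (q.1 + q.2 + 2) + (q.1 + ((q.2 - p.2 - 1) + 1) + 1) := by omega
    rw [e] at hb'
    linarith
  have e2 : p.2 = q.2 := by
    have a1 := key p q hp hq h1 h2
    have a2 := key q p hq hp h2 h1
    omega
  have key2 : ∀ p q : ℕ × ℕ, p.1 + p.2 + 2 ≤ N → q.1 + q.2 + 2 ≤ N → p.2 = q.2 →
      (w, z) ∈ pathShift (N - (p.1 + p.2 + 2)) ⁻¹' lowEvent x p.1 p.2 →
      (w, z) ∈ pathShift (N - (q.1 + q.2 + 2)) ⁻¹' lowEvent x q.1 q.2 → ¬ p.1 < q.1 := by
    intro p q hp hq he h1 h2 hlt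
    obtain ⟨⟨hb, -, -, -⟩, -⟩ := h1
    obtain ⟨⟨-, hs, -, -⟩, -⟩ := h2
    have hb' : x / 2 < (z (N - (p.1 + p.2 + 2) + 0)).1 := hb
    have hs' : (z (N - (q.1 + q.2 + 2) + ((q.1 - p.1 - 1) + 1))).1 ≤ x / 2 :=
      hs (q.1 - p.1 - 1) (by omega)
    have e : N - (p.1 + p.2 + 2) + 0 = N - (q.1 + q.2 + 2) + ((q.1 - p.1 - 1) + 1) := by omega
    rw [e] at hb'
    linarith
  have e1 : p.1 = q.1 := by
    have a1 := key2 p q hp hq e2 h1 h2
    have a2 := key2 q p hq hp e2.symm h2 h1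
    omega
  exact Prod.ext e1 e2

/-- the stationary tail dominates the sum of the probabilities of the lower events -/
lemma lower_sum {π : Measure (ℝ × ℝ)} (hπ : IsStationaryKW μ ν π) (x : ℝ) (n0 P : ℕ) :
    ∑ p ∈ Finset.range P ×ˢ Finset.range P,
      (π.prod (noise μ ν)) (lowEvent x p.1 (n0 + p.2)) ≤ π {w | x < w.1} := by
  have hp : IsProbabilityMeasure π := hπ.1
  set N := 2 * P + n0 + 2 with hN
  have e0 : π {w | x < w.1} = (π.prod (noise μ ν)) {q | x < (pIter q.1 q.2 N).1} := by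
    have := path_marginal hπ N (S := {w : ℝ × ℝ | x < w.1})
      (measurableSet_lt measurable_const measurable_fst)
    exact this.symm
  set S : ℕ × ℕ → Set ((ℝ × ℝ) × (ℕ → ℝ × ℝ)) := fun p =>
    pathShift (N - (p.1 + (n0 + p.2) + 2)) ⁻¹' lowEvent x p.1 (n0 + p.2) with hS
  have hle : ∀ p ∈ Finset.range P ×ˢ Finset.range P, p.1 + (n0 + p.2) + 2 ≤ N := by
    intro p hp'
    rw [Finset.mem_product, Finset.mem_range, Finset.mem_range] at hp'
    omega
  have hdisj : Set.PairwiseDisjoint (↑(Finset.range P ×ˢ Finset.range P) : Set (ℕ × ℕ)) S := by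
    intro p hp' q hq' hne
    apply lowEvent_disjoint (p := (p.1, n0 + p.2)) (q := (q.1, n0 + q.2)) (hle p hp') (hle q hq')
    intro he
    apply hne
    have h1 := congrArg Prod.fst he
    have h2 := congrArg Prod.snd he
    simp only at h1 h2
    exact Prod.ext h1 (by omega)
  have hmeas : ∀ p ∈ Finset.range P ×ˢ Finset.range P, MeasurableSet (S p) := by
    intro p _
    exact measurable_pathShift _ (measurableSet_lowEvent _ _ _)
  have h1 : ∑ p ∈ Finset.range P ×ˢ Finset.range P,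
      (π.prod (noise μ ν)) (lowEvent x p.1 (n0 + p.2)) =
      ∑ p ∈ Finset.range P ×ˢ Finset.range P, (π.prod (noise μ ν)) (S p) := by
    apply Finset.sum_congr rfl
    intro p _
    exact ((hπ.measurePreserving_path _).measure_preimage
      (measurableSet_lowEvent _ _ _).nullMeasurableSet).symm
  rw [h1, ← measure_biUnion_finset hdisj hmeas, e0]
  apply measure_mono
  intro q hq
  simp only [Set.mem_iUnion] at hq
  obtain ⟨p, hp', hq⟩ := hq
  have h2 := hle p hp'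
  have h3 : x < (pIter (pIter q.1 q.2 (N - (p.1 + (n0 + p.2) + 2)))
    (fun k => q.2 (N - (p.1 + (n0 + p.2) + 2) + k)) (p.1 + (n0 + p.2) + 2)).1 := hq.2
  rw [← pIter_add, Nat.sub_add_cancel h2] at h3
  exact h3

end Pool.Agent.Lib.MP_04add8_pr
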