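import Mathlib
import Pool.Agent.Lib.MP_04add8_pr.Two.LowerAsm
import Pool.Agent.Lib.MP_04add8_pr.Two.UpperTwo
import Pool.Agent.Lib.MP_04add8_pr.Two.Integ

open MeasureTheory ProbabilityTheory Filter Topology
open scoped ENNReal

set_option linter.unusedSectionVars false

namespace Pool.Agent.Lib.MP_04add8_pr

variable {a : ℝ} {μ ν : Measure ℝ} [IsProbabilityMeasure μ] [IsProbabilityMeasure ν]

/-- exact asymptotics of the stationary waiting time in the regime of two big jobs -/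
theorem two_big_jobs (ha0 : 0 < a) (ha1 : a < 1)
    (hμ : ∀ x, 0 ≤ x → μ (Set.Ioi x) = ENNReal.ofReal (Real.exp (-(x ^ a))))
    (hν : ν (Set.Iio 0) = 0) (hνi : Integrable (fun t : ℝ => t) ν)
    (hm : 0 < ∫ t, t ∂ν)
    (hgt : (∫ t, t ∂ν) < ∫ s, s ∂μ) (hlt : (∫ s, s ∂μ) < 2 * ∫ t, t ∂ν)
    (h2 : 2 < ((∫ s, s ∂μ) / ((∫ s, s ∂μ) - ∫ t, t ∂ν)) ^ a)
    {π : Measure (ℝ × ℝ)} (hπ : IsStationaryKW μ ν π) :
    Tendsto (fun x : ℝ => π.real {w | x < w.1} /
      (2 * (∫ t, t ∂ν) / (2 * (∫ t, t ∂ν) - ∫ s, s ∂μ) ^ 3 * integratedTail μ x ^ 2))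
      atTop (𝓝 1) := by
  set E := ∫ s, s ∂μ with hE
  set m := ∫ t, t ∂ν with hmdef
  have hc0 : 0 < 2 * m - E := by linarith
  set K := 2 * m / (2 * m - E) ^ 3 with hK
  have hK0 : 0 < K := by positivity
  set Q : ℝ → ℝ := fun x => Real.exp (-(x ^ a)) / (a * x ^ (a - 1)) with hQ
  have h1 : Tendsto (fun x => π.real {w | x < w.1} / Q x ^ 2) atTop (𝓝 K) := by
    rw [Metric.tendsto_atTop']
    intro η hη
    have hu := upper_two ha0 ha1 hμ hν hνi hm hgt hlt h2 (show 0 < η / 2 by positivity)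
    have hl := lower_two_jobs ha0 ha1 hμ hν hνi hm hgt hlt (show 0 < η / 2 by positivity)
    obtain ⟨x0, hx0⟩ := eventually_atTop.mp ((hu.and hl).and (eventually_gt_atTop 0))
    refine ⟨x0, ?_⟩
    intro x hx
    obtain ⟨⟨hu', hl'⟩, hxpos⟩ := hx0 x hx.le
    have hu'' := hu' π hπ
    have hl'' := hl' π hπ
    have hQx : 0 < Q x ^ 2 := by
      rw [hQ]; positivity
    have e1 : π.real {w | x < w.1} / Q x ^ 2 ≤ K + η / 2 := by
      rw [div_le_iff₀ hQx]; exact hu''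
    have e2 : K - η / 2 ≤ π.real {w | x < w.1} / Q x ^ 2 := by
      rw [le_div_iff₀ hQx]; exact hl''
    rw [Real.dist_eq, abs_lt]
    constructor <;> linarith
  have h3 : Tendsto (fun x => integratedTail μ x / Q x) atTop (𝓝 1) :=
    integratedTail_asymp ha0 ha1 hμ
  have h4 := h1.div ((h3.pow 2).const_mul K) (by simpa using hK0.ne')
  have e5 : K / (K * 1 ^ 2) = 1 := by
    rw [one_pow, mul_one, div_self hK0.ne']
  rw [e5] at h4
  refine h4.congr' ?_
  filter_upwards [eventually_gt_atTop 0] with x hx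
  have hQx : Q x ≠ 0 := by
    have : 0 < Q x := by rw [hQ]; positivity
    exact this.ne'
  have e6 : K * (integratedTail μ x / Q x) ^ 2 = K * integratedTail μ x ^ 2 / Q x ^ 2 := by
    rw [div_pow]; ring
  change π.real {w | x < w.1} / Q x ^ 2 / (K * (integratedTail μ x / Q x) ^ 2) = _
  rw [e6, div_div_div_cancel_right₀ (pow_ne_zero 2 hQx)]

end Pool.Agent.Lib.MP_04add8_pr
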